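import Mathlib

/-!
Covariant functors on the category of compact Hausdorff spaces: the basic notions of Shchepin's
theory (monomorphic, epimorphic, continuous, normal functors), skeletal maps and squares.
-/

open CategoryTheory CategoryTheory.Limits Topology Set

namespace Q149.Fun

/-- Covariant functors on the category of compact Hausdorff spaces. -/
abbrev CompFunctor := CompHaus.{0} ⥤ CompHaus.{0}

/-- A map is skeletal if preimages of nowhere dense sets are nowhere dense. -/
def SkeletalMap {X Y : Type} [TopologicalSpace X] [TopologicalSpace Y] (f : X → Y) : Prop :=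
  ∀ A : Set Y, IsNowhereDense A → IsNowhereDense (f ⁻¹' A)

/-- `F` is monomorphic: it preserves injective maps. -/
def Monomorphic (F : CompFunctor) : Prop :=
  ∀ (X Y : CompHaus.{0}) (f : X ⟶ Y), Function.Injective f → Function.Injective (F.map f)

/-- `F` is epimorphic: it preserves surjective maps. -/
def Epimorphic (F : CompFunctor) : Prop :=
  ∀ (X Y : CompHaus.{0}) (f : X ⟶ Y), Function.Surjective f → Function.Surjective (F.map f)

/-- `F` is continuous: it commutes with limits of inverse spectra (functors from the opposite of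
a directed preordered set). -/
def IsCont (F : CompFunctor) : Prop :=
  ∀ (J : Type) [Preorder J] [IsDirectedOrder J] [Nonempty J] (D : Jᵒᵖ ⥤ CompHaus.{0}),
    PreservesLimit D F

/-- `F` preserves intersections of (nonempty) families of closed subspaces. A closed subspace is
given by an injective map; `F` of it is the range of the image under `F` of that map. -/
def PreservesInter (F : CompFunctor) : Prop :=
  ∀ (X : CompHaus.{0}) (ι : Type) [Nonempty ι] (A : ι → CompHaus.{0}) (e : ∀ i, A i ⟶ X)
    (B : CompHaus.{0}) (g : B ⟶ X), (∀ i, Function.Injective (e i)) → Function.Injective g →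
    range g = ⋂ i, range (e i) → range (F.map g) = ⋂ i, range (F.map (e i))

/-- `F` preserves the empty space. -/
def PreservesEmpty (F : CompFunctor) : Prop := ∀ X : CompHaus.{0}, IsEmpty X → IsEmpty (F.obj X)

/-- `F` preserves one-point spaces. -/
def PreservesPoint (F : CompFunctor) : Prop :=
  ∀ X : CompHaus.{0}, Nonempty X → Subsingleton X →
    Nonempty (F.obj X) ∧ Subsingleton (F.obj X)

/-- The weight of a space: the least cardinality of a base of the topology. -/
noncomputable def weight (X : Type) [TopologicalSpace X] : Cardinal.{0} :=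
  sInf {κ | ∃ B : Set (Set X), TopologicalSpace.IsTopologicalBasis B ∧ Cardinal.mk B = κ}

/-- `F` does not increase the weight of infinite compacta. -/
def PreservesWeight (F : CompFunctor) : Prop :=
  ∀ X : CompHaus.{0}, Infinite X → weight (F.obj X) ≤ weight X

/-- A commutative square of compacta:
`tf : X' → Y'`, `f : X → Y`, `pX : X' → X`, `pY : Y' → Y` with `f ∘ pX = pY ∘ tf`. -/
structure Square where
  (X' Y' X Y : CompHaus.{0})
  (tf : X' ⟶ Y')
  (f : X ⟶ Y)
  (pX : X' ⟶ X)
  (pY : Y' ⟶ Y)
  comm : pX ≫ f = tf ≫ pY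

/-- The image of a square under a functor. -/
def Square.map (F : CompFunctor) (D : Square) : Square where
  X' := F.obj D.X'
  Y' := F.obj D.Y'
  X := F.obj D.X
  Y := F.obj D.Y
  tf := F.map D.tf
  f := F.map D.f
  pX := F.map D.pX
  pY := F.map D.pY
  comm := by rw [← F.map_comp, ← F.map_comp, D.comm]

/-- The square is bicommutative: `tf (pX⁻¹ (x)) = pY⁻¹ (f (x))` for all `x ∈ X`. -/
def Square.Bicommutative (D : Square) : Prop :=
  ∀ x : D.X, D.tf '' (D.pX ⁻¹' {x}) = D.pY ⁻¹' {D.f x}

/-- The square is skeletal: for every `x ∈ X` and every neighbourhood `U` of `x` there is a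
nonempty open `V ⊆ Y` with `V ⊆ f (U)` and `pY⁻¹ (V) ⊆ tf (pX⁻¹ (U))`. -/
def Square.IsSkeletal (D : Square) : Prop :=
  ∀ (x : D.X), ∀ U ∈ 𝓝 x, ∃ V : Set D.Y, IsOpen V ∧ V.Nonempty ∧ V ⊆ D.f '' U ∧
    D.pY ⁻¹' V ⊆ D.tf '' (D.pX ⁻¹' U)

/-- All four maps of the square are surjective. -/
def Square.Surj (D : Square) : Prop :=
  Function.Surjective D.tf ∧ Function.Surjective D.f ∧ Function.Surjective D.pX ∧
    Function.Surjective D.pY

/-- All four spaces of the square are finite. -/
def Square.Fin (D : Square) : Prop := Finite D.X' ∧ Finite D.Y' ∧ Finite D.X ∧ Finite D.Y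

/-- `F` preserves preimages. -/
def PreservesPreimages (F : CompFunctor) : Prop :=
  ∀ D : Square, Function.Injective D.f → Function.Injective D.tf → D.Bicommutative →
    (D.map F).Bicommutative

/-- Normal functors (in the sense of Shchepin). -/
structure IsNormal (F : CompFunctor) : Prop where
  mono : Monomorphic F
  epi : Epimorphic F
  cont : IsCont F
  inter : PreservesInter F
  empty : PreservesEmpty F
  point : PreservesPoint F
  weight : PreservesWeight F
  preimages : PreservesPreimages F

/-- `F` is finitary. -/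
def IsFinitary (F : CompFunctor) : Prop := ∀ X : CompHaus.{0}, Finite X → Finite (F.obj X)

/-- `F` is of finite degree: for some `n` all points of `F X` come from `F n` along some map
`n → X`, for every compactum `X`. -/
def FiniteDegree (F : CompFunctor) : Prop :=
  ∃ n : ℕ, ∀ (X : CompHaus.{0}) (a : F.obj X), ∃ ξ : CompHaus.of (Fin n) ⟶ X,
    a ∈ range (F.map ξ)

/-- `F` is skeletal. -/
def SkeletalFunctor (F : CompFunctor) : Prop :=
  ∀ (X Y : CompHaus.{0}) (f : X ⟶ Y), IsOpenMap f → Function.Surjective f →
    SkeletalMap (F.map f)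

/-- `F` is open. -/
def OpenFunctor (F : CompFunctor) : Prop :=
  ∀ (X Y : CompHaus.{0}) (f : X ⟶ Y), IsOpenMap f → Function.Surjective f →
    IsOpenMap (F.map f)

/-- `F` is finitely bicommutative. -/
def FinBicommutative (F : CompFunctor) : Prop :=
  ∀ D : Square, D.Fin → D.Surj → D.Bicommutative → (D.map F).Bicommutative

/-- `F` is square-skeletal. -/
def SquareSkeletal (F : CompFunctor) : Prop :=
  ∀ D : Square, D.Surj → D.IsSkeletal → (D.map F).IsSkeletal

/-- `F` is finitely square-skeletal. -/
def FinSquareSkeletal (F : CompFunctor) : Prop :=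
  ∀ D : Square, D.Fin → D.Surj → D.IsSkeletal → (D.map F).IsSkeletal

/-! ### Generalities -/

/-- A point of a compactum as a map from the one-point space. -/
def pt (X : CompHaus.{0}) (x : X) : CompHaus.of PUnit.{1} ⟶ X :=
  CompHausLike.ofHom _ (ContinuousMap.const _ x)

@[simp] theorem pt_apply (X : CompHaus.{0}) (x : X) (u : CompHaus.of PUnit.{1}) :
    pt X x u = x := rfl

section limits
variable {J : Type} [Preorder J] {D : Jᵒᵖ ⥤ CompHaus.{0}}

theorem limit_ext {c : Cone D} (hc : IsLimit c) {a b : c.pt}
    (h : ∀ j, c.π.app j a = c.π.app j b) : a = b := by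
  have h1 : pt c.pt a = pt c.pt b := by
    apply hc.hom_ext
    intro j
    ext u
    exact h j
  exact congrArg (fun f : CompHaus.of PUnit.{1} ⟶ c.pt => f PUnit.unit) h1

theorem limit_exists {c : Cone D} (hc : IsLimit c) (z : ∀ j, D.obj j)
    (hz : ∀ (i j : Jᵒᵖ) (φ : i ⟶ j), D.map φ (z i) = z j) :
    ∃ a : c.pt, ∀ j, c.π.app j a = z j := by
  let s : Cone D :=
    { pt := CompHaus.of PUnit.{1}
      π := { app := fun j => pt (D.obj j) (z j)
             naturality := by
               intro i j φ
               ext u
               exact (hz i j φ).symm } }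
  refine ⟨hc.lift s PUnit.unit, fun j => ?_⟩
  have := hc.fac s j
  exact congrArg (fun f : CompHaus.of PUnit.{1} ⟶ D.obj j => f PUnit.unit) this

theorem comp_app {X Y Z : CompHaus.{0}} (f : X ⟶ Y) (g : Y ⟶ Z) (x : X) :
    (f ≫ g) x = g (f x) := rfl

/-- A cone of compacta over an inverse spectrum is a limit cone as soon as its points correspond
bijectively to the threads of the spectrum. -/
theorem isLimit_of {c : Cone D}
    (h1 : ∀ a b : c.pt, (∀ j, c.π.app j a = c.π.app j b) → a = b)
    (h2 : ∀ z : ∀ j, D.obj j, (∀ (i j : Jᵒᵖ) (φ : i ⟶ j), D.map φ (z i) = z j) →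
      ∃ a : c.pt, ∀ j, c.π.app j a = z j) : Nonempty (IsLimit c) := by
  classical
  -- the comparison map to the product is a closed embedding
  let e : c.pt → ∀ j, D.obj j := fun a j => c.π.app j a
  have he : Continuous e := continuous_pi fun j => (c.π.app j).hom.hom.continuous
  have hinj : Function.Injective e := fun a b hab => h1 a b fun j => congrFun hab j
  have hemb : IsClosedEmbedding e := he.isClosedEmbedding hinj
  have hthread : ∀ (s : Cone D) (p : s.pt), ∃ a : c.pt, ∀ j, c.π.app j a = s.π.app j p := by
    intro s p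
    apply h2
    intro i j φ
    rw [← comp_app, s.w]
  choose l hl using hthread
  have hlc : ∀ s : Cone D, Continuous (l s) := by
    intro s
    rw [hemb.isEmbedding.continuous_iff]
    refine continuous_pi fun j => ?_
    have : (fun p => (e ∘ l s) p j) = fun p => s.π.app j p := by
      funext p
      exact hl s p j
    rw [this]
    exact (s.π.app j).hom.hom.continuous
  refine ⟨{ lift := fun s => CompHausLike.ofHom _ (⟨l s, hlc s⟩ : C(s.pt, c.pt)), fac := ?_, uniq := ?_ }⟩
  · intro s j
    ext p
    exact hl s p j
  · intro s m hm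
    ext p
    apply h1
    intro j
    have h3 : c.π.app j (m p) = s.π.app j p := by
      rw [← comp_app, hm]
    exact h3.trans (hl s p j).symm

end limits

/-- A criterion for a functor to be continuous. -/
theorem isCont_of (F : CompFunctor)
    (h : ∀ (J : Type) [Preorder J] [IsDirectedOrder J] [Nonempty J] (D : Jᵒᵖ ⥤ CompHaus.{0})
      (c : Cone D), IsLimit c →
      (∀ a b : F.obj c.pt, (∀ j, F.map (c.π.app j) a = F.map (c.π.app j) b) → a = b) ∧
      (∀ z : ∀ j, F.obj (D.obj j), (∀ (i j : Jᵒᵖ) (φ : i ⟶ j), F.map (D.map φ) (z i) = z j) →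
        ∃ a : F.obj c.pt, ∀ j, F.map (c.π.app j) a = z j)) : IsCont F := by
  intro J _ _ _ D
  refine ⟨fun {c} hc => ?_⟩
  obtain ⟨h1, h2⟩ := h J D c hc
  exact isLimit_of (D := D ⋙ F) (c := F.mapCone c) h1 h2

end Q149.Fun
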