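import Pool.Agent.Q149.OrderArcs

set_option autoImplicit false

open Set Topology TopologicalSpace

namespace Pool.Agent.Q149.HSp

/-- The hyperspace `C(X)` of all nonempty compact connected subsets of `X`, with the Vietoris
topology (for a metric space this is the topology of the Hausdorff metric). -/
abbrev CX (X : Type) [TopologicalSpace X] : Type :=
  {K : NonemptyCompacts X // IsConnected (K : Set X)}

/-- The equivalence relation on `C(X)` which identifies all members containing `p`. -/
def rel (X : Type) [TopologicalSpace X] (p : X) : Setoid (CX X) where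
  r A B := A = B ∨ (p ∈ (A.1 : Set X) ∧ p ∈ (B.1 : Set X))
  iseqv := by
    refine ⟨fun A => Or.inl rfl, ?_, ?_⟩
    · rintro A B (h | h)
      · exact Or.inl h.symm
      · exact Or.inr ⟨h.2, h.1⟩
    · rintro A B C (rfl | h) (rfl | h')
      · exact Or.inl rfl
      · exact Or.inr h'
      · exact Or.inr h
      · exact Or.inr ⟨h.1, h'.2⟩

/-- The quotient `HS(p, X) = C(X) / C(p, X)`, with the quotient topology. -/
abbrev HS (X : Type) [TopologicalSpace X] (p : X) : Type := Quotient (rel X p)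

/-- `Y` is aposyndetic at `x` with respect to `y`: some subcontinuum of `Y` contains `x` in its
interior and does not contain `y`. -/
def AposyndeticAt {Y : Type} [TopologicalSpace Y] (x y : Y) : Prop :=
  ∃ M : Set Y, IsCompact M ∧ IsClosed M ∧ IsConnected M ∧ x ∈ interior M ∧ y ∉ M

/-- `Y` is aposyndetic. -/
def Aposyndetic (Y : Type) [TopologicalSpace Y] : Prop :=
  ∀ x y : Y, x ≠ y → AposyndeticAt x y

/-- `Y` is semi-aposyndetic. -/
def SemiAposyndetic (Y : Type) [TopologicalSpace Y] : Prop :=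
  ∀ x y : Y, x ≠ y → AposyndeticAt x y ∨ AposyndeticAt y x

/-- the projection -/
def pr {X : Type} [TopologicalSpace X] (p : X) (A : CX X) : HS X p := Quotient.mk _ A

section basics

variable {X : Type} [TopologicalSpace X] {p : X}

lemma pr_cont : Continuous (pr p) := continuous_quotient_mk'

lemma pr_surj : Function.Surjective (pr p) := Quotient.mk_surjective

lemma pr_eq {A B : CX X} : pr p A = pr p B ↔ A = B ∨ (p ∈ (A.1 : Set X) ∧ p ∈ (B.1 : Set X)) :=
  Quotient.eq (r := rel X p)

lemma pr_open {O : Set (CX X)} (hO : IsOpen O)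
    (hs : ∀ A B : CX X, p ∈ (A.1 : Set X) → p ∈ (B.1 : Set X) → A ∈ O → B ∈ O) :
    IsOpen (pr p '' O) := by
  have hq : IsQuotientMap (pr p) := isQuotientMap_quot_mk
  rw [← hq.isOpen_preimage]
  convert hO using 1
  ext B
  constructor
  · rintro ⟨A, hA, hAB⟩
    rcases pr_eq.1 hAB with rfl | h
    · exact hA
    · exact hs A B h.1 h.2 hA
  · exact fun h => ⟨B, h, rfl⟩

lemma cp_closed [T1Space X] : IsClosed {A : CX X | p ∈ (A.1 : Set X)} := by
  have h : {A : CX X | p ∈ (A.1 : Set X)} = {A : CX X | ((A.1 : Set X) ∩ {p}).Nonempty} := by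
    ext A
    constructor
    · exact fun h => ⟨p, h, rfl⟩
    · rintro ⟨q, hq, rfl⟩
      exact hq
  rw [h]
  exact (NonemptyCompacts.isClosed_inter_nonempty_of_isClosed isClosed_singleton).preimage
    continuous_subtype_val

lemma pr_closed {F : Set (CX X)} (hF : IsClosed F) [T1Space X] : IsClosed (pr p '' F) := by
  have hq : IsQuotientMap (pr p) := isQuotientMap_quot_mk
  rw [← hq.isClosed_preimage]
  by_cases h : ∃ A ∈ F, p ∈ (A.1 : Set X)
  · convert hF.union (cp_closed (p := p)) using 1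
    ext B
    constructor
    · rintro ⟨A, hA, hAB⟩
      rcases pr_eq.1 hAB with rfl | h
      · exact Or.inl hA
      · exact Or.inr h.2
    · rintro (h' | h')
      · exact ⟨B, h', rfl⟩
      · obtain ⟨A, hA, hpA⟩ := h
        exact ⟨A, hA, pr_eq.2 (Or.inr ⟨hpA, h'⟩)⟩
  · push Not at h
    convert hF using 1
    ext B
    constructor
    · rintro ⟨A, hA, hAB⟩
      rcases pr_eq.1 hAB with rfl | h'
      · exact hA
      · exact absurd h'.1 (h A hA)
    · exact fun h => ⟨B, h, rfl⟩

end basics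

section arcs

variable {X : Type} [TopologicalSpace X] [CompactSpace X] [T2Space X] [SecondCountableTopology X]
  [ConnectedSpace X]

/-- the whole space as a member of `C(X)` -/
def top : CX X := ⟨⟨⟨univ, isCompact_univ⟩, univ_nonempty⟩, isConnected_univ⟩

attribute [local instance] TopologicalSpace.vietoris in
/-- upward closed subsets of `C(X)` are connected -/
theorem upper_connected {S : Set (CX X)} (hne : S.Nonempty)
    (hS : ∀ A B : CX X, (A.1 : Set X) ⊆ (B.1 : Set X) → A ∈ S → B ∈ S) : IsConnected S := by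
  refine ⟨hne, ?_⟩
  refine isPreconnected_of_forall (top (X := X)) fun A hA => ?_
  obtain ⟨ω, hω⟩ := Pool.Agent.Helper300.OrderArc.exists_size (X := X)
  obtain ⟨β, h1, h2, h3, h4⟩ := OrderArcs.order_arc_between (K0 := (A.1 : Set X)) (P := univ)
    A.1.isCompact.isClosed A.2 isClosed_univ isConnected_univ (subset_univ _) ω hω
  let b : ℝ → CX X := fun t => ⟨⟨⟨β t, (h4 t).1.isCompact⟩, (h4 t).2.1.nonempty⟩, (h4 t).2.1⟩
  have hb : Continuous b := by
    rw [Topology.IsEmbedding.subtypeVal.continuous_iff,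
      NonemptyCompacts.isEmbedding_coe.continuous_iff]
    exact h1
  refine ⟨range b, ?_, ?_, ?_, isPreconnected_range hb⟩
  · rintro _ ⟨t, rfl⟩
    exact hS A _ (h4 t).2.2.1 hA
  · refine ⟨ω univ, ?_⟩
    apply Subtype.ext
    apply NonemptyCompacts.ext
    exact h3
  · refine ⟨ω (A.1 : Set X) - 1, ?_⟩
    apply Subtype.ext
    apply NonemptyCompacts.ext
    exact h2 _ (by linarith)

end arcs

/-- `C(X)` is compact -/
theorem compactSpace_CX {X : Type} [TopologicalSpace X] [CompactSpace X] [T2Space X] :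
    CompactSpace (CX X) := by
  have hcl : IsClosed {K : NonemptyCompacts X | IsConnected (K : Set X)} := by
    have h1 : {K : NonemptyCompacts X | IsConnected (K : Set X)} =
        {K : NonemptyCompacts X | IsPreconnected (K : Set X)} := by
      ext K
      exact ⟨fun h => h.2, fun h => ⟨K.nonempty, h⟩⟩
    rw [h1, ← isOpen_compl_iff, isOpen_iff_mem_nhds]
    intro K hK
    have hK' : ¬ IsPreconnected (K : Set X) := hK
    rw [isPreconnected_iff_subset_of_fully_disjoint_closed K.isCompact.isClosed] at hK'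
    push Not at hK'
    obtain ⟨u, v, hu, hv, huv, hd, hnu, hnv⟩ := hK'
    obtain ⟨U, V, hU, hV, hUu, hVv, hUV⟩ := SeparatedNhds.of_isCompact_isCompact
      (K.isCompact.inter_right hu) (K.isCompact.inter_right hv)
      (hd.mono inter_subset_right inter_subset_right)
    obtain ⟨x, hxK, hxu⟩ := not_subset.1 hnu
    obtain ⟨y, hyK, hyv⟩ := not_subset.1 hnv
    have hxV : x ∈ V := hVv ⟨hxK, (huv hxK).resolve_left hxu⟩
    have hyU : y ∈ U := hUu ⟨hyK, (huv hyK).resolve_right hyv⟩
    have hKUV : (K : Set X) ⊆ U ∪ V := by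
      intro z hz
      rcases huv hz with h | h
      · exact Or.inl (hUu ⟨hz, h⟩)
      · exact Or.inr (hVv ⟨hz, h⟩)
    have hop := ((NonemptyCompacts.isOpen_subsets_of_isOpen (hU.union hV)).inter
      ((NonemptyCompacts.isOpen_inter_nonempty_of_isOpen hU).inter
        (NonemptyCompacts.isOpen_inter_nonempty_of_isOpen hV)))
    refine Filter.mem_of_superset (hop.mem_nhds ⟨hKUV, ⟨y, hyK, hyU⟩, ⟨x, hxK, hxV⟩⟩) ?_
    rintro L ⟨hL1, hL2, hL3⟩ hL
    obtain ⟨z, _, hzU, hzV⟩ := (hL : IsPreconnected (L : Set X)) U V hU hV hL1 hL2 hL3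
    exact disjoint_left.1 hUV hzU hzV
  exact isCompact_iff_compactSpace.1 hcl.isCompact

section semi

variable {X : Type} [TopologicalSpace X] [CompactSpace X] [T2Space X] [SecondCountableTopology X]
  [ConnectedSpace X]

/-- the main aposyndesis lemma -/
theorem apo_of_mem {p : X} {A B : CX X} (a : X) (haA : a ∈ (A.1 : Set X))
    (haB : a ∉ (B.1 : Set X)) (hpB : p ∉ (B.1 : Set X)) (hap : p ∉ (A.1 : Set X) ∨ a = p) :
    AposyndeticAt (pr p A) (pr p B) := by
  -- a closed neighbourhood of `a` missing `B`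
  obtain ⟨U, hU, haU, hUB⟩ := normal_exists_closure_subset (isClosed_singleton (x := a))
    B.1.isCompact.isClosed.isOpen_compl (singleton_subset_iff.2 haB)
  have haU' : a ∈ U := haU rfl
  set S : Set (CX X) := {C | ((C.1 : Set X) ∩ closure U).Nonempty} with hSdef
  have hSc : IsClosed S :=
    (NonemptyCompacts.isClosed_inter_nonempty_of_isClosed isClosed_closure).preimage
      continuous_subtype_val
  have hAS : A ∈ S := ⟨a, haA, subset_closure haU'⟩
  have hSconn : IsConnected S := upper_connected ⟨A, hAS⟩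
    fun C D hCD hC => hC.mono (inter_subset_inter_left _ hCD)
  have hO : IsOpen {C : CX X | ((C.1 : Set X) ∩ U).Nonempty} :=
    (NonemptyCompacts.isOpen_inter_nonempty_of_isOpen hU).preimage continuous_subtype_val
  refine ⟨pr p '' S, ?_, pr_closed hSc, hSconn.image _ pr_cont.continuousOn, ?_, ?_⟩
  · have : CompactSpace (CX X) := compactSpace_CX
    exact (hSc.isCompact).image pr_cont
  · rw [mem_interior]
    rcases hap with hpA | rfl
    · refine ⟨pr p '' ({C : CX X | ((C.1 : Set X) ∩ U).Nonempty} ∩ {C : CX X | p ∈ (C.1 : Set X)}ᶜ),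
        ?_, ?_, ?_⟩
      · apply image_mono
        rintro C ⟨hC, -⟩
        exact hC.mono (inter_subset_inter_right _ subset_closure)
      · refine pr_open (hO.inter cp_closed.isOpen_compl) ?_
        rintro C D hC _ ⟨-, hC'⟩
        exact absurd hC hC'
      · exact ⟨A, ⟨⟨a, haA, haU'⟩, hpA⟩, rfl⟩
    · refine ⟨pr a '' {C : CX X | ((C.1 : Set X) ∩ U).Nonempty}, ?_, ?_, ?_⟩
      · apply image_mono
        intro C hC
        exact hC.mono (inter_subset_inter_right _ subset_closure)
      · refine pr_open hO ?_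
        intro C D _ hD _
        exact ⟨a, hD, haU'⟩
      · exact ⟨A, ⟨a, haA, haU'⟩, rfl⟩
  · rintro ⟨C, hC, hCB⟩
    rcases pr_eq.1 hCB with rfl | h
    · obtain ⟨z, hz, hz'⟩ := hC
      exact hUB hz' hz
    · exact hpB h.2

/-- `HS(p, X)` is semi-aposyndetic -/
theorem semi (p : X) : SemiAposyndetic (HS X p) := by
  intro x y hxy
  obtain ⟨A, rfl⟩ := pr_surj (p := p) x
  obtain ⟨B, rfl⟩ := pr_surj (p := p) y
  have hAB : ¬ (A = B ∨ (p ∈ (A.1 : Set X) ∧ p ∈ (B.1 : Set X))) := fun h => hxy (pr_eq.2 h)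
  push Not at hAB
  by_cases hpA : p ∈ (A.1 : Set X)
  · exact Or.inl (apo_of_mem p hpA (hAB.2 hpA) (hAB.2 hpA) (Or.inr rfl))
  by_cases hpB : p ∈ (B.1 : Set X)
  · exact Or.inr (apo_of_mem p hpB hpA hpA (Or.inr rfl))
  by_cases hsub : (A.1 : Set X) ⊆ (B.1 : Set X)
  · by_cases hsub' : (B.1 : Set X) ⊆ (A.1 : Set X)
    · exfalso
      apply hAB.1
      apply Subtype.ext
      apply NonemptyCompacts.ext
      exact Subset.antisymm hsub hsub'
    · obtain ⟨b, hb, hbA⟩ := not_subset.1 hsub'
      exact Or.inr (apo_of_mem b hb hbA hpA (Or.inl hpB))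
  · obtain ⟨a, ha, haB⟩ := not_subset.1 hsub
    exact Or.inl (apo_of_mem a ha haB hpB (Or.inl hpA))

end semi

section neg

variable {X : Type} [TopologicalSpace X] [CompactSpace X] [T2Space X] [SecondCountableTopology X]
  [ConnectedSpace X]

/-- a point as a member of `C(X)` -/
def sing (x : X) : CX X := ⟨{x}, by simpa using isConnected_singleton⟩

lemma sing_coe (x : X) : ((sing x).1 : Set X) = {x} := by simp [sing]

attribute [local instance] TopologicalSpace.vietoris in
/-- aposyndesis of `HS(p, X)` at a point of `X` with respect to the collapsed point implies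
aposyndesis of `X` -/
theorem apo_down {p a : X} (hap : a ≠ p)
    (h : AposyndeticAt (pr p (sing a)) (pr p (sing p))) : AposyndeticAt a p := by
  obtain ⟨M, -, hMcl, hMc, haM, hpM⟩ := h
  have hmem : ∀ B : CX X, pr p B ∈ M → p ∉ (B.1 : Set X) := by
    intro B hB hpB
    apply hpM
    have : pr p (sing p) = pr p B := pr_eq.2 (Or.inr ⟨by rw [sing_coe]; rfl, hpB⟩)
    rw [this]; exact hB
  set S : Set (CX X) := pr p ⁻¹' M with hSdef
  have hScl : IsClosed S := hMcl.preimage pr_cont
  have hSpre : IsPreconnected S := by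
    intro U V hU hV hUV hSU hSV
    have hU' : IsOpen (pr p '' (U ∩ {C : CX X | p ∈ (C.1 : Set X)}ᶜ)) :=
      pr_open (hU.inter cp_closed.isOpen_compl) (by
        rintro C D hC _ ⟨-, hC'⟩
        exact absurd hC hC')
    have hV' : IsOpen (pr p '' (V ∩ {C : CX X | p ∈ (C.1 : Set X)}ᶜ)) :=
      pr_open (hV.inter cp_closed.isOpen_compl) (by
        rintro C D hC _ ⟨-, hC'⟩
        exact absurd hC hC')
    obtain ⟨y, hyM, ⟨C, ⟨hCU, hCp⟩, hCy⟩, ⟨D, ⟨hDV, hDp⟩, hDy⟩⟩ := hMc.isPreconnected _ _ hU' hV'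
      (by
        intro y hy
        obtain ⟨C, rfl⟩ := pr_surj (p := p) y
        rcases hUV (show C ∈ S from hy) with h | h
        · exact Or.inl ⟨C, ⟨h, hmem C hy⟩, rfl⟩
        · exact Or.inr ⟨C, ⟨h, hmem C hy⟩, rfl⟩)
      (by
        obtain ⟨C, hCS, hCU⟩ := hSU
        exact ⟨pr p C, hCS, C, ⟨hCU, hmem C hCS⟩, rfl⟩)
      (by
        obtain ⟨C, hCS, hCV⟩ := hSV
        exact ⟨pr p C, hCS, C, ⟨hCV, hmem C hCS⟩, rfl⟩)
    have hCD : C = D := by
      rcases pr_eq.1 (hCy.trans hDy.symm) with h | h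
      · exact h
      · exact absurd h.1 hCp
    subst hCD
    exact ⟨C, by rw [← hCy] at hyM; exact hyM, hCU, hDV⟩
  have haS : sing a ∈ S := (interior_subset haM : pr p (sing a) ∈ M)
  set K : Set X := ⋃₀ ((fun C : CX X => (C.1 : Set X)) '' S) with hK
  have hcoe : Continuous fun C : CX X => (C.1 : Set X) :=
    NonemptyCompacts.continuous_coe.comp continuous_subtype_val
  have hKc : IsPreconnected K := by
    refine vietoris.isPreconnected_sUnion (hSpre.image _ hcoe.continuousOn) ?_
    exact ⟨_, mem_image_of_mem _ haS, (sing a).2.isPreconnected⟩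
  have hnhds : K ∈ 𝓝 a := by
    have hs : Continuous (sing : X → CX X) := by
      rw [Topology.IsEmbedding.subtypeVal.continuous_iff]
      exact NonemptyCompacts.continuous_singleton
    have h1 : (sing ⁻¹' (pr p ⁻¹' interior M)) ∈ 𝓝 a :=
      ((isOpen_interior.preimage pr_cont).preimage hs).mem_nhds haM
    refine Filter.mem_of_superset h1 fun x hx => ?_
    have hx' : sing x ∈ S := (interior_subset hx : pr p (sing x) ∈ M)
    exact ⟨_, mem_image_of_mem _ hx', by rw [sing_coe]; rfl⟩
  -- `K` is closed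
  have hKcl : IsClosed K := by
    rw [← isOpen_compl_iff, isOpen_iff_mem_nhds]
    intro x hx
    -- every member of `S` misses `x`; compactness gives a neighbourhood
    have hSc : IsCompact S := by
      have := compactSpace_CX (X := X)
      exact hScl.isCompact
    have hcov : ∀ C ∈ S, ∃ U : Set X, IsOpen U ∧ x ∈ U ∧
        ∃ V : Set (CX X), IsOpen V ∧ C ∈ V ∧ ∀ D ∈ V, Disjoint (D.1 : Set X) U := by
      intro C hC
      have hxC : x ∉ (C.1 : Set X) := fun h => hx ⟨_, mem_image_of_mem _ hC, h⟩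
      obtain ⟨V, U, hV, hU, hCV, hxU, hVU⟩ := SeparatedNhds.of_isCompact_isCompact
        C.1.isCompact (isCompact_singleton (x := x)) (disjoint_singleton_right.2 hxC)
      refine ⟨U, hU, hxU rfl, {D | (D.1 : Set X) ⊆ V},
        (NonemptyCompacts.isOpen_subsets_of_isOpen hV).preimage continuous_subtype_val, hCV, ?_⟩
      intro D hD
      exact hVU.mono_left hD
    choose! U hU hxU V hV hCV hVU using hcov
    obtain ⟨t, ht⟩ := hSc.elim_nhds_subcover' (fun C hC => V C) (fun C hC =>
      (hV C hC).mem_nhds (hCV C hC))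
    have hfin : (⋂ C ∈ t, U C) ∈ 𝓝 x := by
      rw [Filter.biInter_finset_mem]
      intro C _
      exact (hU C C.2).mem_nhds (hxU C C.2)
    refine Filter.mem_of_superset hfin fun y hy hyK => ?_
    obtain ⟨_, ⟨C, hC, rfl⟩, hyC⟩ := hyK
    obtain ⟨D, hD⟩ := mem_iUnion.1 (ht hC)
    obtain ⟨hDt, hCD⟩ := mem_iUnion.1 hD
    rw [mem_iInter₂] at hy
    exact disjoint_left.1 (hVU D D.2 C hCD) hyC (hy D hDt)
  refine ⟨K, hKcl.isCompact, hKcl, ⟨⟨a, mem_of_mem_nhds hnhds⟩, hKc⟩,
    mem_interior_iff_mem_nhds.2 hnhds, ?_⟩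
  rintro ⟨_, ⟨C, hC, rfl⟩, hpC⟩
  exact hmem C hC hpC

end neg

end Pool.Agent.Q149.HSp
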