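import Mathlib

/-! Finite `t`-regular graphs without short cycles: the Cayley graph of the group generated by
the involutions that prepend or delete the letter `i` of the ball of radius `r` of reduced words. -/

namespace Pool.Agent.Q149.LargeGirth

open List

variable {t : ℕ}

/-- the reduced words of length at most `r` over an alphabet with `t` letters -/
def Ball (t r : ℕ) : Type := {w : List (Fin t) // w.IsChain (· ≠ ·) ∧ w.length ≤ r}

noncomputable instance (t r : ℕ) : Fintype (Ball t r) := by
  have h : ({w : List (Fin t) | w.IsChain (· ≠ ·) ∧ w.length ≤ r}).Finite :=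
    (List.finite_length_le (Fin t) r).subset fun w hw => hw.2
  exact h.fintype

/-- prepend the letter `i`, or delete it if it is the first letter -/
def step (r : ℕ) (i : Fin t) : List (Fin t) → List (Fin t)
  | [] => if 0 < r then [i] else []
  | j :: l => if i = j then l else if l.length + 1 < r then i :: j :: l else j :: l

theorem step_spec {r : ℕ} {i : Fin t} {w : List (Fin t)} (hw : w.IsChain (· ≠ ·) ∧ w.length ≤ r) :
    ((step r i w).IsChain (· ≠ ·) ∧ (step r i w).length ≤ r) ∧ step r i (step r i w) = w := by
  obtain ⟨hc, hl⟩ := hw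
  cases w with
  | nil =>
    by_cases h : 0 < r
    · simp [step, h]; omega
    · simp [step, h]
  | cons j l =>
    by_cases hij : i = j
    · subst hij
      have h1 : step r i (i :: l) = l := by simp [step]
      rw [h1]
      refine ⟨⟨hc.tail, by simp at hl; omega⟩, ?_⟩
      cases l with
      | nil => simp at hl; simp [step]; omega
      | cons k l =>
        have hne : i ≠ k := by simpa using (List.isChain_cons_cons.1 hc).1
        simp only [List.length_cons] at hl
        simp [step, hne]; omega
    · by_cases h : l.length + 1 < r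
      · have h1 : step r i (j :: l) = i :: j :: l := by simp [step, hij, h]
        rw [h1]
        refine ⟨⟨List.isChain_cons_cons.2 ⟨hij, hc⟩, by simp; omega⟩, ?_⟩
        simp [step]
      · have h1 : step r i (j :: l) = j :: l := by simp [step, hij, h]
        rw [h1, h1]
        exact ⟨⟨hc, hl⟩, rfl⟩

/-- the involution of the ball attached to the letter `i` -/
def gen (r : ℕ) (i : Fin t) : Equiv.Perm (Ball t r) :=
  Function.Involutive.toPerm
    (fun w => (⟨step r i w.1, (step_spec w.2).1⟩ : Ball t r))
    (fun w => Subtype.ext (step_spec w.2).2)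

theorem gen_val (r : ℕ) (i : Fin t) (w : Ball t r) : (gen r i w).1 = step r i w.1 := rfl

theorem gen_mul_self (r : ℕ) (i : Fin t) : gen r i * gen r i = 1 := by
  ext w
  refine Subtype.ext ?_
  exact (step_spec w.2).2

/-- the permutation given by a word: the first letter acts first -/
def act (r : ℕ) : List (Fin t) → Equiv.Perm (Ball t r)
  | [] => 1
  | i :: w => act r w * gen r i

theorem act_apply (r : ℕ) (w l : List (Fin t)) (hl : l.IsChain (· ≠ ·) ∧ l.length ≤ r)
    (h : (w.reverse ++ l).IsChain (· ≠ ·)) (hr : (w.reverse ++ l).length ≤ r) :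
    (act r w ⟨l, hl⟩).1 = w.reverse ++ l := by
  induction w generalizing l with
  | nil => rfl
  | cons i w ih =>
    have e : (i :: w).reverse ++ l = w.reverse ++ (i :: l) := by simp
    rw [e] at h hr ⊢
    have hil : (i :: l).IsChain (· ≠ ·) := h.right_of_append
    have hll : l.length < r := by
      simp at hr; omega
    have hst : step r i l = i :: l := by
      cases l with
      | nil => simp at hll; simp [step, hll]
      | cons j l =>
        have hne : i ≠ j := by simpa using (List.isChain_cons_cons.1 hil).1
        simp only [List.length_cons] at hll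
        simp [step, hne, hll]
    have hg : gen r i ⟨l, hl⟩ = ⟨i :: l, ⟨hil, by simp; omega⟩⟩ := by
      refine Subtype.ext ?_
      rw [gen_val]
      exact hst
    have := ih (i :: l) ⟨hil, by simp; omega⟩ h hr
    show (act r w (gen r i ⟨l, hl⟩)).1 = _
    rw [hg]
    exact this

theorem act_ne_one (r : ℕ) (w : List (Fin t)) (h0 : w ≠ []) (h : w.IsChain (· ≠ ·))
    (hr : w.length ≤ r) : act r w ≠ 1 := by
  intro h1
  have h2 := act_apply r w [] ⟨by simp, by simp⟩ (by
    rw [List.append_nil, List.isChain_reverse]
    exact h.imp fun a b hab => hab.symm) (by simpa using hr)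
  rw [h1] at h2
  simp at h2
  exact h0 (by simpa using h2.symm)

theorem gen_injective {r : ℕ} (hr : 0 < r) : Function.Injective (gen (t := t) r) := by
  intro i j hij
  have h : (gen r i ⟨[], ⟨by simp, by simp⟩⟩).1 = (gen r j ⟨[], ⟨by simp, by simp⟩⟩).1 := by
    rw [hij]
  rw [gen_val, gen_val] at h
  simpa [step, hr] using h

theorem gen_ne_one {r : ℕ} (hr : 0 < r) (i : Fin t) : gen r i ≠ 1 := by
  intro hij
  have h : (gen r i ⟨[], ⟨by simp, by simp⟩⟩).1 = [] := by
    rw [hij]; rfl
  rw [gen_val] at h
  simp [step, hr] at h

/-- the Cayley graph -/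
def graph (t r : ℕ) : SimpleGraph (Equiv.Perm (Ball t r)) where
  Adj a b := a ≠ b ∧ ∃ i : Fin t, b = gen r i * a
  symm := ⟨fun a b h => ⟨h.1.symm, by
    obtain ⟨i, hi⟩ := h.2
    exact ⟨i, by rw [hi, ← mul_assoc, gen_mul_self, one_mul]⟩⟩⟩
  loopless := ⟨fun a h => h.1 rfl⟩

theorem neighborSet_graph {r : ℕ} (hr : 0 < r) (a : Equiv.Perm (Ball t r)) :
    (graph t r).neighborSet a = Set.range fun i : Fin t => gen r i * a := by
  ext b
  constructor
  · rintro ⟨-, i, hi⟩
    exact ⟨i, hi.symm⟩
  · rintro ⟨i, hi⟩
    refine ⟨?_, i, hi.symm⟩
    intro hab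
    rw [hab] at hi
    exact gen_ne_one hr i (by simpa using hi)

theorem ncard_neighborSet {r : ℕ} (hr : 0 < r) (a : Equiv.Perm (Ball t r)) :
    ((graph t r).neighborSet a).ncard = t := by
  rw [neighborSet_graph hr, ← Set.image_univ, Set.ncard_image_of_injective]
  · simp [Set.ncard_univ]
  · intro i j hij
    exact gen_injective hr (by simpa using hij)

/-- the letter of an edge -/
noncomputable def letter {r : ℕ} {a b : Equiv.Perm (Ball t r)} (h : (graph t r).Adj a b) : Fin t :=
  h.2.choose

theorem letter_spec {r : ℕ} {a b : Equiv.Perm (Ball t r)} (h : (graph t r).Adj a b) :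
    b = gen r (letter h) * a := h.2.choose_spec

/-- the word of a walk -/
noncomputable def word {r : ℕ} : {a b : Equiv.Perm (Ball t r)} → (graph t r).Walk a b → List (Fin t)
  | _, _, .nil => []
  | _, _, .cons h p => letter h :: word p

theorem word_length {r : ℕ} {a b : Equiv.Perm (Ball t r)} (p : (graph t r).Walk a b) :
    (word p).length = p.length := by
  induction p with
  | nil => rfl
  | cons h p ih => simp [word, ih]

theorem word_act {r : ℕ} {a b : Equiv.Perm (Ball t r)} (p : (graph t r).Walk a b) :
    b = act r (word p) * a := by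
  induction p with
  | nil => simp [word, act]
  | @cons a c b h p ih =>
    show b = act r (word p) * gen r (letter h) * a
    rw [mul_assoc, ← letter_spec h]
    exact ih

theorem word_chain {r : ℕ} {a b : Equiv.Perm (Ball t r)} (p : (graph t r).Walk a b)
    (hp : p.IsTrail) : (word p).IsChain (· ≠ ·) := by
  induction p with
  | nil => simp [word]
  | @cons a c b h p ih =>
    have h1 := ih hp.of_cons
    cases p with
    | nil => simp [word]
    | @cons _ d _ h' p =>
      show (letter h :: letter h' :: word p).IsChain (· ≠ ·)
      refine List.isChain_cons_cons.2 ⟨?_, h1⟩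
      intro hl
      have h2 := letter_spec h
      have h3 := letter_spec h'
      rw [← hl] at h3
      have h4 : d = a := by
        calc d = gen r (letter h) * c := h3
          _ = gen r (letter h) * (gen r (letter h) * a) :=
              congrArg (fun z => gen r (letter h) * z) h2
          _ = a := by rw [← mul_assoc, gen_mul_self, one_mul]
      subst h4
      rw [SimpleGraph.Walk.isTrail_def] at hp
      simp [Sym2.eq_swap] at hp

theorem no_short_cycle {r : ℕ} {a : Equiv.Perm (Ball t r)} (p : (graph t r).Walk a a)
    (hp : p.IsCycle) : r < p.length := by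
  by_contra hcon
  have h1 := word_chain p hp.isTrail
  have h2 := word_act p
  have h3 : act r (word p) = 1 := by
    have : act r (word p) * a = 1 * a := by rw [← h2, one_mul]
    exact mul_right_cancel this
  refine act_ne_one r (word p) ?_ h1 (by rw [word_length]; omega) h3
  intro h4
  have h5 := word_length p
  rw [h4] at h5
  have := hp.three_le_length
  simp at h5
  omega

/-- **Regular graphs without short cycles.** -/
theorem exists_regular (t r : ℕ) : ∃ (A : Type) (_ : Fintype A) (_ : Nonempty A)
    (F : SimpleGraph A), (∀ a, (F.neighborSet a).ncard = t) ∧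
      ∀ (a : A) (p : F.Walk a a), p.IsCycle → r < p.length := by
  classical
  refine ⟨Equiv.Perm (Ball t (r + 1)), inferInstance, ⟨1⟩, graph t (r + 1),
    fun a => ncard_neighborSet (Nat.succ_pos r) a, fun a p hp => ?_⟩
  have := no_short_cycle p hp
  omega

end Pool.Agent.Q149.LargeGirth
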