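import Pool.Agent.Q149.Functors

/-!
Preservation of (finite) preimages and (finite) 1-preimages by functors on compacta.
-/

open CategoryTheory CategoryTheory.Limits Topology Set

namespace Q149.Fun

/-- `F` is a mec functor: monomorphic, epimorphic and continuous. -/
structure IsMec (F : CompFunctor) : Prop where
  mono : Monomorphic F
  epi : Epimorphic F
  cont : IsCont F

/-- `F` preserves finite preimages. -/
def PreservesFinPreimages (F : CompFunctor) : Prop :=
  ∀ D : Square, Function.Injective D.f → Function.Injective D.tf → Finite D.X →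
    D.Bicommutative → (D.map F).Bicommutative

/-- `F` preserves 1-preimages. -/
def PreservesOnePreimages (F : CompFunctor) : Prop :=
  ∀ D : Square, Function.Injective D.f → Function.Injective D.tf → Function.Bijective D.pX →
    D.Bicommutative → (D.map F).Bicommutative

/-- `F` preserves finite 1-preimages. -/
def PreservesFinOnePreimages (F : CompFunctor) : Prop :=
  ∀ D : Square, Function.Injective D.f → Function.Injective D.tf → Function.Bijective D.pX →
    Finite D.X → D.Bicommutative → (D.map F).Bicommutative

theorem Square.comm_app (D : Square) (x : D.X') : D.pY (D.tf x) = D.f (D.pX x) := by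
  rw [← comp_app, ← D.comm, comp_app]

theorem map_comp_app (F : CompFunctor) {X Y Z : CompHaus.{0}} (f : X ⟶ Y) (g : Y ⟶ Z)
    (a : F.obj X) : F.map (f ≫ g) a = F.map g (F.map f a) := by
  rw [F.map_comp]; rfl

/-- For a monomorphic functor and a square with injective horizontal maps, bicommutativity of the
image square is a statement about ranges. -/
theorem map_bicomm_iff {F : CompFunctor} (hF : Monomorphic F) {D : Square}
    (hf : Function.Injective D.f) :
    (D.map F).Bicommutative ↔
      ∀ (b : F.obj D.Y') (a : F.obj D.X), F.map D.pY b = F.map D.f a → b ∈ range (F.map D.tf) := by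
  constructor
  · intro h b a hab
    have h1 := h a
    have h2 : b ∈ (D.map F).pY ⁻¹' {(D.map F).f a} := hab
    rw [← h1] at h2
    obtain ⟨c, -, hc⟩ := h2
    exact ⟨c, hc⟩
  · intro h a
    apply Subset.antisymm
    · rintro _ ⟨c, hc, rfl⟩
      have hc' : (D.map F).pX c = a := hc
      show (D.map F).pY ((D.map F).tf c) = (D.map F).f a
      rw [Square.comm_app, hc']
    · intro b hb
      obtain ⟨c, hc⟩ := h b a hb
      refine ⟨c, ?_, hc⟩
      show (D.map F).pX c = a
      apply hF _ _ _ hf
      have h3 : (D.map F).f ((D.map F).pX c) = (D.map F).pY ((D.map F).tf c) :=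
        (Square.comm_app (D.map F) c).symm
      have h4 : (D.map F).tf c = b := hc
      rw [h4] at h3
      exact h3.trans hb

theorem bicomm_range {D : Square} (hD : D.Bicommutative) :
    D.pY ⁻¹' (range D.f) = range D.tf := by
  apply Subset.antisymm
  · rintro y ⟨x, hx⟩
    have h1 : y ∈ D.pY ⁻¹' {D.f x} := hx.symm
    rw [← hD x] at h1
    obtain ⟨c, -, hc⟩ := h1
    exact ⟨c, hc⟩
  · rintro _ ⟨c, rfl⟩
    exact ⟨D.pX c, (Square.comm_app D c).symm⟩

theorem hom_ext' {X Y : CompHaus.{0}} {f g : X ⟶ Y} (h : ∀ x, f x = g x) : f = g := by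
  ext x
  exact h x

/-- The functions on `Y` vanishing on `Z`, as a map of `Y` into a cube, which collapses exactly
the closed set `Z` to the point `0`. -/
def collapse (Y : CompHaus.{0}) (Z : Set Y) :
    Y ⟶ CompHaus.of ({g : C(Y, unitInterval) // ∀ z ∈ Z, g z = 0} → unitInterval) :=
  CompHausLike.ofHom _ ⟨fun y g => g.1 y, continuous_pi fun g => g.1.continuous⟩

theorem collapse_eq_zero (Y : CompHaus.{0}) {Z : Set Y} (hZ : IsClosed Z) (y : Y) :
    collapse Y Z y = (fun _ => 0) ↔ y ∈ Z := by
  constructor
  · intro h
    by_contra hy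
    haveI h1 : T2Space Y := Y.is_hausdorff
    haveI h2 : CompactSpace Y := Y.is_compact
    haveI h3 : T1Space Y := T2Space.t1Space
    haveI h4 : NormalSpace Y := NormalSpace.of_compactSpace_r1Space
    obtain ⟨g, hg0, hg1, hg⟩ := exists_continuous_zero_one_of_isClosed hZ
      (isClosed_singleton (x := y)) (disjoint_singleton_right.2 hy)
    let g' : C(Y, unitInterval) := ⟨fun y => ⟨g y, hg y⟩, g.continuous.subtype_mk _⟩
    have hg' : ∀ z ∈ Z, g' z = 0 := fun z hz => Subtype.ext (hg0 hz)
    have h1 : g' y = 0 := congrFun h ⟨g', hg'⟩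
    have h2 : g y = 0 := congrArg Subtype.val h1
    have h3 : g y = 1 := hg1 rfl
    rw [h2] at h3
    exact zero_ne_one h3
  · intro hy
    funext g
    exact g.2 y hy

/-- A monomorphic functor that preserves finite preimages (even only preimages of points and of
the empty set) preserves preimages. -/
theorem preservesPreimages_of_fin {F : CompFunctor} (hF : Monomorphic F)
    (h : PreservesFinPreimages F) : PreservesPreimages F := by
  intro D hf htf hD
  rcases isEmpty_or_nonempty D.X with hX | ⟨⟨x₀⟩⟩
  · exact h D hf htf inferInstance hD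
  rw [map_bicomm_iff hF hf]
  intro b a hab
  -- collapse `Z = f(X)` to a point
  have hZ : IsClosed (range D.f) := (isCompact_range D.f.hom.hom.continuous).isClosed
  let Q := CompHaus.of ({g : C(D.Y, unitInterval) // ∀ z ∈ range D.f, g z = 0} → unitInterval)
  let z₀ : Q := fun _ => 0
  let q : D.Y ⟶ Q := collapse D.Y (range D.f)
  let E : Square :=
    { X' := D.X'
      Y' := D.Y'
      X := CompHaus.of PUnit.{1}
      Y := Q
      tf := D.tf
      f := pt Q z₀
      pX := CompHausLike.ofHom _ ⟨fun _ => PUnit.unit, continuous_const⟩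
      pY := D.pY ≫ q
      comm := by
        refine hom_ext' fun c => ?_
        show z₀ = q (D.pY (D.tf c))
        rw [Square.comm_app]
        exact ((collapse_eq_zero D.Y hZ _).2 ⟨_, rfl⟩).symm }
  have hE : E.Bicommutative := by
    intro u
    apply Subset.antisymm
    · rintro _ ⟨c, -, rfl⟩
      exact Square.comm_app E c
    · intro y hy
      have h1 : q (D.pY y) = z₀ := hy
      have h2 : D.pY y ∈ range D.f := (collapse_eq_zero D.Y hZ _).1 h1
      have h3 : y ∈ D.pY ⁻¹' (range D.f) := h2
      rw [bicomm_range hD] at h3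
      obtain ⟨c, hc⟩ := h3
      exact ⟨c, rfl, hc⟩
  have hfE : Function.Injective E.f := fun u v _ => rfl
  have hfin : Finite E.X := by change Finite PUnit; infer_instance
  have h2 := h E hfE htf hfin hE
  rw [map_bicomm_iff hF hfE] at h2
  let t : D.X ⟶ CompHaus.of PUnit.{1} := CompHausLike.ofHom _ ⟨fun _ => PUnit.unit, continuous_const⟩
  refine h2 b (F.map t a) ?_
  show F.map (D.pY ≫ q) b = F.map (pt Q z₀) (F.map t a)
  rw [map_comp_app, hab, ← map_comp_app, ← map_comp_app]
  have h3 : D.f ≫ q = t ≫ pt Q z₀ := by
    refine hom_ext' fun x => ?_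
    exact (collapse_eq_zero D.Y hZ _).2 ⟨x, rfl⟩
  rw [h3]

end Q149.Fun
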