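import Pool.Agent.Q149.Thr

/-!
A mec functor that preserves finite 1-preimages but does not preserve 1-preimages.

`T X` consists of the triples `(x, y, S)` with `S ⊆ X` closed and `x, y ∈ S`, where
`(x, y, S)` and `(x, y, S')` are identified if `x = y` or both `S` and `S'` are connected.
-/

open CategoryTheory CategoryTheory.Limits Topology Set
open TopologicalSpace (Compacts)

namespace Q149.Fun

/-- The triples `(x, y, S)` with `x, y ∈ S`. -/
def TS (X : Type) [TopologicalSpace X] : Set (X × X × Compacts X) :=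
  {p | p.1 ∈ p.2.2 ∧ p.2.1 ∈ p.2.2}

theorem isClosed_mem_compacts {X : Type} [TopologicalSpace X] [CompactSpace X] [T2Space X] :
    IsClosed {p : X × Compacts X | p.1 ∈ p.2} := by
  rw [← isOpen_compl_iff, isOpen_iff_mem_nhds]
  rintro ⟨x, S⟩ hx
  have hx' : x ∉ (S : Set X) := hx
  obtain ⟨U, V, hU, hV, hSU, hxV, hUV⟩ := S.isCompact.separation_of_notMem hx'
  have h1 : V ×ˢ {T : Compacts X | (T : Set X) ⊆ U} ∈ 𝓝 (x, S) :=
    prod_mem_nhds (hV.mem_nhds hxV)
      ((TopologicalSpace.Compacts.isOpen_subsets_of_isOpen hU).mem_nhds hSU)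
  refine Filter.mem_of_superset h1 ?_
  rintro ⟨y, T⟩ ⟨hy, hT⟩ hyT
  exact disjoint_left.1 hUV (hT hyT) hy

theorem isClosed_TS (X : Type) [TopologicalSpace X] [CompactSpace X] [T2Space X] :
    IsClosed (TS X) := by
  refine IsClosed.inter ?_ ?_
  · exact isClosed_mem_compacts.preimage
      (by fun_prop : Continuous fun p : X × X × Compacts X => (p.1, p.2.2))
  · exact isClosed_mem_compacts.preimage
      (by fun_prop : Continuous fun p : X × X × Compacts X => (p.2.1, p.2.2))

instance (X : Type) [TopologicalSpace X] [CompactSpace X] [T2Space X] : CompactSpace (TS X) :=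
  isCompact_iff_compactSpace.1 (isClosed_TS X).isCompact

/-- The equivalence relation on the triples. -/
def TR (X : Type) [TopologicalSpace X] : Setoid (TS X) where
  r p q := p.1.1 = q.1.1 ∧ p.1.2.1 = q.1.2.1 ∧ (p.1.2.2 = q.1.2.2 ∨ p.1.1 = p.1.2.1 ∨
    (IsPreconnected (p.1.2.2 : Set X) ∧ IsPreconnected (q.1.2.2 : Set X)))
  iseqv := by
    refine ⟨fun p => ⟨rfl, rfl, Or.inl rfl⟩, ?_, ?_⟩
    · rintro p q ⟨h1, h2, h3⟩
      refine ⟨h1.symm, h2.symm, ?_⟩
      rcases h3 with h | h | h
      · exact Or.inl h.symm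
      · exact Or.inr (Or.inl (by rw [← h1, ← h2]; exact h))
      · exact Or.inr (Or.inr h.symm)
    · rintro p q s ⟨h1, h2, h3⟩ ⟨k1, k2, k3⟩
      refine ⟨h1.trans k1, h2.trans k2, ?_⟩
      rcases h3 with h | h | h
      · rcases k3 with k | k | k
        · exact Or.inl (h.trans k)
        · exact Or.inr (Or.inl (by rw [h1, h2]; exact k))
        · exact Or.inr (Or.inr (by rw [h]; exact k))
      · exact Or.inr (Or.inl h)
      · rcases k3 with k | k | k
        · exact Or.inr (Or.inr (by rw [← k]; exact h))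
        · exact Or.inr (Or.inl (by rw [h1, h2]; exact k))
        · exact Or.inr (Or.inr ⟨h.1, k.2⟩)

theorem TR_iff {X : Type} [TopologicalSpace X] (p q : TS X) :
    TR X p q ↔ p.1.1 = q.1.1 ∧ p.1.2.1 = q.1.2.1 ∧ (p.1.2.2 = q.1.2.2 ∨ p.1.1 = p.1.2.1 ∨
    (IsPreconnected (p.1.2.2 : Set X) ∧ IsPreconnected (q.1.2.2 : Set X))) := Iff.rfl

theorem isClosed_TR (X : Type) [TopologicalSpace X] [CompactSpace X] [T2Space X] :
    IsClosed {p : TS X × TS X | TR X p.1 p.2} := by
  have h1 : IsClosed {p : TS X × TS X | p.1.1.1 = p.2.1.1} :=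
    isClosed_eq (by fun_prop) (by fun_prop)
  have h2 : IsClosed {p : TS X × TS X | p.1.1.2.1 = p.2.1.2.1} :=
    isClosed_eq (by fun_prop) (by fun_prop)
  have h3 : IsClosed {p : TS X × TS X | p.1.1.2.2 = p.2.1.2.2} :=
    isClosed_eq (by fun_prop) (by fun_prop)
  have h4 : IsClosed {p : TS X × TS X | p.1.1.1 = p.1.1.2.1} :=
    isClosed_eq (by fun_prop) (by fun_prop)
  have h5 : IsClosed {p : TS X × TS X | IsPreconnected (p.1.1.2.2 : Set X)} :=
    isClosed_preconnected.preimage (by fun_prop : Continuous fun p : TS X × TS X => p.1.1.2.2)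
  have h6 : IsClosed {p : TS X × TS X | IsPreconnected (p.2.1.2.2 : Set X)} :=
    isClosed_preconnected.preimage (by fun_prop : Continuous fun p : TS X × TS X => p.2.1.2.2)
  exact h1.inter (h2.inter (h3.union (h4.union (h5.inter h6))))

instance (X : Type) [TopologicalSpace X] [CompactSpace X] [T2Space X] :
    T2Space (Quotient (TR X)) := t2Space_quotient _ (isClosed_TR X)

/-- The action on triples of a continuous map. -/
def TSmap {X Y : Type} [TopologicalSpace X] [TopologicalSpace Y] (f : X → Y) (hf : Continuous f)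
    (p : TS X) : TS Y :=
  ⟨(f p.1.1, f p.1.2.1, p.1.2.2.map f hf), ⟨p.1.1, p.2.1, rfl⟩, ⟨p.1.2.1, p.2.2, rfl⟩⟩

theorem continuous_TSmap {X Y : Type} [TopologicalSpace X] [TopologicalSpace Y] (f : X → Y)
    (hf : Continuous f) : Continuous (TSmap f hf) := by
  have h := hf.compacts_map
  have h1 : Continuous fun p : TS X => (f p.1.1, f p.1.2.1, p.1.2.2.map f hf) :=
    (hf.comp (continuous_fst.comp continuous_subtype_val)).prodMk
      ((hf.comp (continuous_fst.comp (continuous_snd.comp continuous_subtype_val))).prodMk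
        (h.comp (continuous_snd.comp (continuous_snd.comp continuous_subtype_val))))
  exact h1.subtype_mk _

theorem TR_map {X Y : Type} [TopologicalSpace X] [TopologicalSpace Y] (f : X → Y)
    (hf : Continuous f) (p q : TS X) (h : TR X p q) : TR Y (TSmap f hf p) (TSmap f hf q) := by
  obtain ⟨h1, h2, h3⟩ := h
  refine ⟨congrArg f h1, congrArg f h2, ?_⟩
  rcases h3 with h | h | h
  · exact Or.inl (congrArg (fun S => S.map f hf) h)
  · exact Or.inr (Or.inl (congrArg f h))
  · refine Or.inr (Or.inr ⟨?_, ?_⟩)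
    · exact h.1.image f hf.continuousOn
    · exact h.2.image f hf.continuousOn

/-- The functor `T`. -/
def T : CompFunctor where
  obj X := CompHaus.of (Quotient (TR X))
  map {X Y} f := CompHausLike.ofHom _ ⟨Quotient.map (TSmap f f.hom.hom.continuous)
      (TR_map f f.hom.hom.continuous), by
        refine Continuous.quotient_map' (continuous_TSmap _ _) _⟩
  map_id X := by
    refine hom_ext' fun a => ?_
    induction a using Quotient.inductionOn with
    | _ p =>
      apply congrArg (Quotient.mk (TR X))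
      apply Subtype.ext
      refine Prod.ext rfl (Prod.ext rfl ?_)
      exact TopologicalSpace.Compacts.map_id _
  map_comp {X Y Z} f g := by
    refine hom_ext' fun a => ?_
    induction a using Quotient.inductionOn with
    | _ p =>
      apply congrArg (Quotient.mk (TR Z))
      apply Subtype.ext
      refine Prod.ext rfl (Prod.ext rfl ?_)
      exact TopologicalSpace.Compacts.map_comp (g : Y → Z) (f : X → Y) g.hom.hom.continuous
        f.hom.hom.continuous p.1.2.2

/-- The class of a triple. -/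
def tmk {X : CompHaus.{0}} (p : TS X) : T.obj X := Quotient.mk (TR X) p

theorem T_map_mk {X Y : CompHaus.{0}} (f : X ⟶ Y) (p : TS X) :
    T.map f (tmk p) = tmk (TSmap f f.hom.hom.continuous p) := rfl

theorem exists_tmk {X : CompHaus.{0}} (a : T.obj X) : ∃ p : TS X, tmk p = a :=
  Quotient.exists_rep a

theorem tmk_eq {X : CompHaus.{0}} {p q : TS X} : tmk p = tmk q ↔ TR X p q :=
  ⟨fun h => Quotient.exact h, fun h => Quotient.sound h⟩

theorem T_mono : Monomorphic T := by
  intro X Y f hf a b hab
  obtain ⟨p, rfl⟩ := exists_tmk a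
  obtain ⟨q, rfl⟩ := exists_tmk b
  rw [T_map_mk, T_map_mk, tmk_eq] at hab
  rw [tmk_eq]
  obtain ⟨h1, h2, h3⟩ := hab
  refine ⟨hf h1, hf h2, ?_⟩
  have hT2 : T2Space Y := Y.is_hausdorff
  have hC : CompactSpace X := X.is_compact
  have hemb : IsClosedEmbedding f := f.hom.hom.continuous.isClosedEmbedding hf
  rcases h3 with h | h | h
  · refine Or.inl ?_
    have h' : f '' (p.1.2.2 : Set X) = f '' (q.1.2.2 : Set X) := congrArg SetLike.coe h
    exact SetLike.coe_injective (hf.image_injective h')
  · exact Or.inr (Or.inl (hf h))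
  · refine Or.inr (Or.inr ⟨?_, ?_⟩)
    · have h' : IsPreconnected (f '' (p.1.2.2 : Set X)) := h.1
      exact (hemb.isInducing.isPreconnected_image).1 h'
    · have h' : IsPreconnected (f '' (q.1.2.2 : Set X)) := h.2
      exact (hemb.isInducing.isPreconnected_image).1 h'

theorem T_epi : Epimorphic T := by
  intro X Y f hf b
  obtain ⟨q, rfl⟩ := exists_tmk b
  obtain ⟨x, hx⟩ := hf q.1.1
  obtain ⟨y, hy⟩ := hf q.1.2.1
  have hT2 : T2Space Y := Y.is_hausdorff
  have hC : CompactSpace X := X.is_compact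
  let S : Compacts X := ⟨f ⁻¹' (q.1.2.2 : Set Y),
    (q.1.2.2.isCompact.isClosed.preimage f.hom.hom.continuous).isCompact⟩
  refine ⟨tmk ⟨(x, y, S), ?_, ?_⟩, ?_⟩
  · show f x ∈ q.1.2.2
    rw [hx]; exact q.2.1
  · show f y ∈ q.1.2.2
    rw [hy]; exact q.2.2
  · rw [T_map_mk]
    apply congrArg tmk
    apply Subtype.ext
    refine Prod.ext hx (Prod.ext hy ?_)
    apply SetLike.coe_injective
    exact image_preimage_eq _ hf

section cont
variable {J : Type} [Preorder J] [IsDirectedOrder J] {D : Jᵒᵖ ⥤ CompHaus.{0}}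

/-- Two closed subsets of a limit with the same projections coincide. -/
theorem subset_of_proj {c : Cone D} (hc : IsLimit c) [Nonempty J] {S S' : Set c.pt}
    (hS' : IsClosed S') (h : ∀ j, c.π.app j '' S ⊆ c.π.app j '' S') : S ⊆ S' := by
  intro s hs
  have hcomp : CompactSpace c.pt := c.pt.is_compact
  let C : J → Set c.pt := fun j => {t | t ∈ S' ∧
    c.π.app (Opposite.op j) t = c.π.app (Opposite.op j) s}
  have hne : ∀ j, (C j).Nonempty := by
    intro j
    obtain ⟨t, ht, hts⟩ := h (Opposite.op j) ⟨s, hs, rfl⟩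
    exact ⟨t, ht, hts⟩
  have hcl : ∀ j, IsClosed (C j) := by
    intro j
    have hT2 : T2Space (D.obj (Opposite.op j)) := (D.obj (Opposite.op j)).is_hausdorff
    exact hS'.inter (isClosed_eq (c.π.app (Opposite.op j)).hom.hom.continuous continuous_const)
  have hdir : Directed (· ⊇ ·) C := by
    intro i j
    obtain ⟨m, h1, h2⟩ := exists_ge_ge i j
    have hsub : ∀ k, k ≤ m → C m ⊆ C k := by
      rintro k hk t ⟨ht, hts⟩
      refine ⟨ht, ?_⟩
      have hn : c.π.app (Opposite.op m) ≫ D.map (homOfLE hk).op = c.π.app (Opposite.op k) := c.w _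
      rw [← hn, comp_app, comp_app, hts]
    exact ⟨m, hsub i h1, hsub j h2⟩
  obtain ⟨t, ht⟩ := IsCompact.nonempty_iInter_of_directed_nonempty_isCompact_isClosed C hdir hne
    (fun j => (hcl j).isCompact) hcl
  rw [mem_iInter] at ht
  have : t = s := limit_ext hc fun j => (ht j.unop).2
  rw [← this]
  exact (ht (Classical.arbitrary J)).1

/-- A closed subset of a limit with connected projections is connected. -/
theorem preconnected_of_proj {c : Cone D} (hc : IsLimit c) [Nonempty J] {S : Set c.pt}
    (hS : IsClosed S) (h : ∀ j, IsPreconnected (c.π.app j '' S)) : IsPreconnected S := by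
  have hcomp : CompactSpace c.pt := c.pt.is_compact
  have hT2c : T2Space c.pt := c.pt.is_hausdorff
  rw [isPreconnected_closed_iff]
  intro t t' ht ht' hcov hne hne'
  by_contra hcon
  rw [not_nonempty_iff_eq_empty] at hcon
  have hAB : Disjoint (S ∩ t) (S ∩ t') := by
    rw [disjoint_left]
    rintro x ⟨h1, h2⟩ ⟨-, h3⟩
    have : x ∈ S ∩ (t ∩ t') := ⟨h1, h2, h3⟩
    rw [hcon] at this
    exact this
  -- at some stage the projections of the two pieces are disjoint
  have key : ∃ j : J, Disjoint (c.π.app (Opposite.op j) '' (S ∩ t))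
      (c.π.app (Opposite.op j) '' (S ∩ t')) := by
    by_contra hall
    push Not at hall
    let C : J → Set (c.pt × c.pt) := fun j => {p | p.1 ∈ S ∩ t ∧ p.2 ∈ S ∩ t' ∧
      c.π.app (Opposite.op j) p.1 = c.π.app (Opposite.op j) p.2}
    have hne : ∀ j, (C j).Nonempty := by
      intro j
      obtain ⟨z, ⟨a, ha, haz⟩, ⟨b, hb, hbz⟩⟩ := not_disjoint_iff.1 (hall j)
      exact ⟨(a, b), ha, hb, haz.trans hbz.symm⟩
    have hcl : ∀ j, IsClosed (C j) := by
      intro j
      have hT2 : T2Space (D.obj (Opposite.op j)) := (D.obj (Opposite.op j)).is_hausdorff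
      exact ((hS.inter ht).preimage continuous_fst).inter
        (((hS.inter ht').preimage continuous_snd).inter
          (isClosed_eq ((c.π.app (Opposite.op j)).hom.hom.continuous.comp continuous_fst)
            ((c.π.app (Opposite.op j)).hom.hom.continuous.comp continuous_snd)))
    have hdir : Directed (· ⊇ ·) C := by
      intro i j
      obtain ⟨m, h1, h2⟩ := exists_ge_ge i j
      have hsub : ∀ k, k ≤ m → C m ⊆ C k := by
        rintro k hk p ⟨hp1, hp2, hp3⟩
        refine ⟨hp1, hp2, ?_⟩
        have hn : c.π.app (Opposite.op m) ≫ D.map (homOfLE hk).op = c.π.app (Opposite.op k) :=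
          c.w _
        rw [← hn, comp_app, comp_app, hp3]
      exact ⟨m, hsub i h1, hsub j h2⟩
    obtain ⟨p, hp⟩ := IsCompact.nonempty_iInter_of_directed_nonempty_isCompact_isClosed C hdir hne
      (fun j => (hcl j).isCompact) hcl
    rw [mem_iInter] at hp
    have h3 : p.1 = p.2 := limit_ext hc fun j => (hp j.unop).2.2
    have h4 := (hp (Classical.arbitrary J)).1
    have h5 := (hp (Classical.arbitrary J)).2.1
    rw [← h3] at h5
    exact disjoint_left.1 hAB h4 h5
  obtain ⟨j, hj⟩ := key
  have hT2 : T2Space (D.obj (Opposite.op j)) := (D.obj (Opposite.op j)).is_hausdorff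
  have hpc := h (Opposite.op j)
  rw [isPreconnected_closed_iff] at hpc
  have hcl1 : IsClosed (c.π.app (Opposite.op j) '' (S ∩ t)) :=
    ((hS.inter ht).isCompact.image (c.π.app (Opposite.op j)).hom.hom.continuous).isClosed
  have hcl2 : IsClosed (c.π.app (Opposite.op j) '' (S ∩ t')) :=
    ((hS.inter ht').isCompact.image (c.π.app (Opposite.op j)).hom.hom.continuous).isClosed
  obtain ⟨z, -, hz1, hz2⟩ := hpc _ _ hcl1 hcl2 (by
      rintro _ ⟨s, hs, rfl⟩
      rcases hcov hs with h' | h'
      · exact Or.inl ⟨s, ⟨hs, h'⟩, rfl⟩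
      · exact Or.inr ⟨s, ⟨hs, h'⟩, rfl⟩)
    (by
      obtain ⟨s, hs, hst⟩ := hne
      exact ⟨_, ⟨s, hs, rfl⟩, ⟨s, ⟨hs, hst⟩, rfl⟩⟩)
    (by
      obtain ⟨s, hs, hst⟩ := hne'
      exact ⟨_, ⟨s, hs, rfl⟩, ⟨s, ⟨hs, hst⟩, rfl⟩⟩)
  exact disjoint_left.1 hj hz1 hz2

/-- Threads of compacta come from the limit. -/
theorem compacts_thread {c : Cone D} (hc : IsLimit c) [Nonempty J]
    (S : ∀ j : J, Compacts (D.obj (Opposite.op j)))
    (hS : ∀ (i k : J) (h : i ≤ k), (S k).map (tr D h) (tr D h).hom.hom.continuous = S i) :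
    ∃ S' : Compacts c.pt, ∀ j, S'.map (c.π.app (Opposite.op j))
      (c.π.app (Opposite.op j)).hom.hom.continuous = S j := by
  have hcomp : CompactSpace c.pt := c.pt.is_compact
  have hT2 : ∀ j, T2Space (D.obj j) := fun j => (D.obj j).is_hausdorff
  have hcl : IsClosed {s : c.pt | ∀ j, c.π.app (Opposite.op j) s ∈ (S j : Set _)} := by
    rw [setOf_forall]
    refine isClosed_iInter fun j => ?_
    exact (S j).isCompact.isClosed.preimage (c.π.app (Opposite.op j)).hom.hom.continuous
  refine ⟨⟨{s : c.pt | ∀ j, c.π.app (Opposite.op j) s ∈ (S j : Set _)}, hcl.isCompact⟩,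
    fun j => ?_⟩
  apply SetLike.coe_injective
  apply Subset.antisymm
  · rintro _ ⟨s, hs, rfl⟩
    exact hs j
  · intro s₀ hs₀
    -- a thread through `s₀` with coordinates in the `S k`
    have hmap : ∀ (i k : J) (h : i ≤ k), tr D h '' (S k : Set _) = (S i : Set _) :=
      fun i k h => congrArg SetLike.coe (hS i k h)
    obtain ⟨z, hz1, hz2⟩ := thread_exists D j
      (fun k => {s | s ∈ (S k : Set _) ∧ ∀ h : j ≤ k, tr D h s = s₀}) (by
        intro k hk
        rw [← hmap j k hk] at hs₀
        obtain ⟨s, hs, hs'⟩ := hs₀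
        exact ⟨s, hs, fun _ => hs'⟩) (by
        intro k hk
        have h1 : {s | s ∈ (S k : Set (D.obj (Opposite.op k))) ∧ ∀ h : j ≤ k, tr D h s = s₀} =
            (S k : Set _) ∩ {s | tr D hk s = s₀} := by
          ext s
          exact ⟨fun h => ⟨h.1, h.2 hk⟩, fun h => ⟨h.1, fun _ => h.2⟩⟩
        rw [h1]
        exact (S k).isCompact.isClosed.inter
          (isClosed_eq (tr D hk).hom.hom.continuous continuous_const)) (by
        rintro l k h hl x ⟨hx1, hx2⟩
        refine ⟨?_, fun h' => ?_⟩
        · rw [← hmap l k h]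
          exact ⟨x, hx1, rfl⟩
        · rw [tr_tr]
          exact hx2 _)
    obtain ⟨s, hs⟩ := limit_exists hc z hz1
    refine ⟨s, ?_, ?_⟩
    · intro k
      rw [hs]
      obtain ⟨m, h1, h2⟩ := exists_ge_ge j k
      have h3 := (hz2 m h1).1
      have h4 : z (Opposite.op k) = tr D h2 (z (Opposite.op m)) := (hz1 _ _ _).symm
      rw [h4, ← hmap k m h2]
      exact ⟨_, h3, rfl⟩
    · rw [hs]
      have h5 := (hz2 j le_rfl).2 le_rfl
      rwa [tr_self] at h5

end cont

theorem T_cont : IsCont T := by
  apply isCont_of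
  intro J _ _ _ D c hc
  have hT2c : T2Space c.pt := c.pt.is_hausdorff
  constructor
  · intro a b hab
    obtain ⟨p, rfl⟩ := exists_tmk a
    obtain ⟨q, rfl⟩ := exists_tmk b
    simp only [T_map_mk, tmk_eq] at hab
    rw [tmk_eq]
    refine ⟨limit_ext hc fun j => (hab j).1, limit_ext hc fun j => (hab j).2.1, ?_⟩
    by_contra hcon
    rw [not_or, not_or] at hcon
    obtain ⟨h1, h2, h3⟩ := hcon
    have e2 : ∃ j, c.π.app j p.1.1 ≠ c.π.app j p.1.2.1 := by
      by_contra hall
      push Not at hall
      exact h2 (limit_ext hc hall)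
    have hpcl : IsClosed (p.1.2.2 : Set c.pt) := p.1.2.2.isCompact.isClosed
    have hqcl : IsClosed (q.1.2.2 : Set c.pt) := q.1.2.2.isCompact.isClosed
    have e1 : ∃ j, c.π.app j '' (p.1.2.2 : Set c.pt) ≠ c.π.app j '' (q.1.2.2 : Set c.pt) := by
      by_contra hall
      push Not at hall
      apply h1
      apply SetLike.coe_injective
      exact Subset.antisymm (subset_of_proj hc hqcl fun j => (hall j).subset)
        (subset_of_proj hc hpcl fun j => (hall j).superset)
    have e3 : ∃ j, ¬ (IsPreconnected (c.π.app j '' (p.1.2.2 : Set c.pt)) ∧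
        IsPreconnected (c.π.app j '' (q.1.2.2 : Set c.pt))) := by
      by_contra hall
      push Not at hall
      exact h3 ⟨preconnected_of_proj hc hpcl fun j => (hall j).1,
        preconnected_of_proj hc hqcl fun j => (hall j).2⟩
    obtain ⟨j1, e1⟩ := e1
    obtain ⟨j2, e2⟩ := e2
    obtain ⟨j3, e3⟩ := e3
    obtain ⟨m', m1, m2⟩ := exists_ge_ge j1.unop j2.unop
    obtain ⟨m, m3, m4⟩ := exists_ge_ge m' j3.unop
    have hn : ∀ (k : Jᵒᵖ) (h : k.unop ≤ m) (s : c.pt),
        D.map (homOfLE h).op (c.π.app (Opposite.op m) s) = c.π.app k s := by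
      intro k h s
      have : c.π.app (Opposite.op m) ≫ D.map (homOfLE h).op = c.π.app k := c.w _
      rw [← this, comp_app]
    have hn' : ∀ (k : Jᵒᵖ) (h : k.unop ≤ m) (A : Set c.pt),
        D.map (homOfLE h).op '' (c.π.app (Opposite.op m) '' A) = c.π.app k '' A := by
      intro k h A
      rw [image_image]
      exact image_congr fun s _ => hn k h s
    obtain ⟨-, -, h4⟩ := hab (Opposite.op m)
    rcases h4 with h4 | h4 | ⟨h4, h5⟩
    · apply e1
      have h5 : c.π.app (Opposite.op m) '' (p.1.2.2 : Set c.pt) =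
          c.π.app (Opposite.op m) '' (q.1.2.2 : Set c.pt) := congrArg SetLike.coe h4
      rw [← hn' j1 (m1.trans m3), ← hn' j1 (m1.trans m3), h5]
    · apply e2
      have h5 : c.π.app (Opposite.op m) p.1.1 = c.π.app (Opposite.op m) p.1.2.1 := h4
      rw [← hn j2 (m2.trans m3), ← hn j2 (m2.trans m3), h5]
    · apply e3
      have h4' : IsPreconnected (c.π.app (Opposite.op m) '' (p.1.2.2 : Set c.pt)) := h4
      have h5' : IsPreconnected (c.π.app (Opposite.op m) '' (q.1.2.2 : Set c.pt)) := h5
      rw [← hn' j3 m4, ← hn' j3 m4]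
      exact ⟨h4'.image _ (D.map (homOfLE m4).op).hom.hom.continuous.continuousOn,
        h5'.image _ (D.map (homOfLE m4).op).hom.hom.continuous.continuousOn⟩
  · intro z hz
    -- the spectrum of the spaces of triples
    let E : Jᵒᵖ ⥤ CompHaus.{0} :=
      { obj := fun j => CompHaus.of (TS (D.obj j))
        map := fun {i j} φ => CompHausLike.ofHom _ ⟨TSmap (D.map φ) (D.map φ).hom.hom.continuous,
          continuous_TSmap _ _⟩
        map_id := fun j => by
          refine hom_ext' fun p => ?_
          apply Subtype.ext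
          have h1 : ∀ s : D.obj j, D.map (𝟙 j) s = s := fun s => by rw [D.map_id]; rfl
          refine Prod.ext (h1 _) (Prod.ext (h1 _) ?_)
          apply SetLike.coe_injective
          show D.map (𝟙 j) '' (p.1.2.2 : Set (D.obj j)) = (p.1.2.2 : Set (D.obj j))
          rw [image_congr fun s _ => h1 s]
          exact image_id' _
        map_comp := fun {i j k} φ ψ => by
          refine hom_ext' fun p => ?_
          apply Subtype.ext
          have h1 : ∀ s : D.obj i, D.map (φ ≫ ψ) s = D.map ψ (D.map φ s) := fun s => by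
            rw [D.map_comp]; rfl
          refine Prod.ext (h1 _) (Prod.ext (h1 _) ?_)
          apply SetLike.coe_injective
          show D.map (φ ≫ ψ) '' (p.1.2.2 : Set (D.obj i)) =
            D.map ψ '' (D.map φ '' (p.1.2.2 : Set (D.obj i)))
          rw [image_image]
          exact image_congr fun s _ => h1 s }
    obtain ⟨j₀⟩ := (inferInstance : Nonempty J)
    obtain ⟨w, hw1, hw2⟩ := thread_exists E j₀
      (fun k => {p : TS (D.obj (Opposite.op k)) | tmk p = z (Opposite.op k)})
      (fun k _ => exists_tmk _) (by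
        intro k _
        have hT2 : T2Space (T.obj (D.obj (Opposite.op k))) :=
          (T.obj (D.obj (Opposite.op k))).is_hausdorff
        have hc1 : Continuous (fun p : TS (D.obj (Opposite.op k)) =>
            (tmk p : T.obj (D.obj (Opposite.op k)))) := continuous_quotient_mk'
        exact isClosed_eq hc1 continuous_const) (by
        intro l k h _ p hp
        have hp' : tmk p = z (Opposite.op k) := hp
        show tmk (TSmap (D.map (homOfLE h).op) _ p) = z (Opposite.op l)
        rw [← hz _ _ (homOfLE h).op, ← hp']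
        rfl)
    have hwc : ∀ (i k : J) (h : i ≤ k), TSmap (D.map (homOfLE h).op)
        (D.map (homOfLE h).op).hom.hom.continuous (w (Opposite.op k)) = w (Opposite.op i) :=
      fun i k h => hw1 _ _ (homOfLE h).op
    have hwc' : ∀ (i k : Jᵒᵖ) (φ : i ⟶ k), TSmap (D.map φ)
        (D.map φ).hom.hom.continuous (w i) = w k := fun i k φ => hw1 _ _ φ
    obtain ⟨x, hx⟩ := limit_exists hc (fun j => (w j : TS _).1.1)
      (fun i k φ => congrArg (fun q : TS _ => q.1.1) (hwc' i k φ))
    obtain ⟨y, hy⟩ := limit_exists hc (fun j => (w j : TS _).1.2.1)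
      (fun i k φ => congrArg (fun q : TS _ => q.1.2.1) (hwc' i k φ))
    haveI : Nonempty J := ⟨j₀⟩
    obtain ⟨S, hS⟩ := compacts_thread hc (fun j => (w (Opposite.op j) : TS _).1.2.2)
      (fun i k h => congrArg (fun q : TS _ => q.1.2.2) (hwc i k h))
    -- membership
    have hmem : ∀ (u : c.pt), (∀ j : J, c.π.app (Opposite.op j) u ∈
        (w (Opposite.op j) : TS _).1.2.2) → u ∈ S := by
      intro u hu
      have h1 : ({u} : Set c.pt) ⊆ (S : Set c.pt) := by
        refine subset_of_proj hc S.isCompact.isClosed fun j => ?_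
        rw [image_singleton, singleton_subset_iff]
        have h2 := hu j.unop
        rw [← hS j.unop] at h2
        exact h2
      exact h1 rfl
    have hxS : x ∈ S := hmem x fun j => by rw [hx]; exact (w (Opposite.op j) : TS _).2.1
    have hyS : y ∈ S := hmem y fun j => by rw [hy]; exact (w (Opposite.op j) : TS _).2.2
    -- all the `z j` are classes of the members of the thread
    have hzw : ∀ j : Jᵒᵖ, tmk (w j : TS _) = z j := by
      intro j
      obtain ⟨m, h1, h2⟩ := exists_ge_ge j₀ j.unop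
      have h3 : tmk (w (Opposite.op m) : TS _) = z (Opposite.op m) := hw2 m h1
      have h4 := hz (Opposite.op m) j (homOfLE h2).op
      rw [← h4, ← h3, T_map_mk, hwc' _ _ _]
    refine ⟨tmk ⟨(x, y, S), hxS, hyS⟩, fun j => ?_⟩
    rw [T_map_mk, ← hzw j]
    apply congrArg tmk
    apply Subtype.ext
    exact Prod.ext (hx j) (Prod.ext (hy j) (hS j.unop))

theorem T_mec : IsMec T := ⟨T_mono, T_epi, T_cont⟩

theorem T_fin : PreservesFinOnePreimages T := by
  intro D hf htf hpX hfin hD
  rw [map_bicomm_iff T_mono hf]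
  intro b a hab
  obtain ⟨p, rfl⟩ := exists_tmk b
  obtain ⟨q, rfl⟩ := exists_tmk a
  rw [T_map_mk, T_map_mk, tmk_eq] at hab
  obtain ⟨h1, h2, h3⟩ := hab
  have h1' : D.pY p.1.1 = D.f q.1.1 := h1
  have h2' : D.pY p.1.2.1 = D.f q.1.2.1 := h2
  have hT2 : T2Space D.Y' := D.Y'.is_hausdorff
  have hC : CompactSpace D.X' := D.X'.is_compact
  have hT2X : T2Space D.X := D.X.is_hausdorff
  have hCX : CompactSpace D.X := D.X.is_compact
  have hT2Y : T2Space D.Y := D.Y.is_hausdorff
  -- preimages of points of `X` are images of points of `X'`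
  have key : ∀ (y : D.Y') (x : D.X), D.pY y = D.f x → ∃ c : D.X', D.pX c = x ∧ D.tf c = y := by
    intro y x hyx
    have h4 : y ∈ D.pY ⁻¹' {D.f x} := hyx
    rw [← hD x] at h4
    obtain ⟨c, hc, hc'⟩ := h4
    exact ⟨c, hc, hc'⟩
  obtain ⟨x', hx', hx''⟩ := key _ _ h1'
  obtain ⟨y', hy', hy''⟩ := key _ _ h2'
  -- the case where the first two coordinates coincide
  have hcase : D.f q.1.1 = D.f q.1.2.1 → tmk p ∈ range (T.map D.tf) := by
    intro h
    have h5 : x' = y' := by
      apply hpX.1
      rw [hx', hy']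
      exact hf h
    refine ⟨tmk ⟨(x', x', {x'}), rfl, rfl⟩, ?_⟩
    rw [T_map_mk, tmk_eq]
    refine ⟨hx'', ?_, Or.inr (Or.inl rfl)⟩
    show D.tf x' = p.1.2.1
    rw [h5, hy'']
  rcases h3 with h3 | h3 | ⟨h3, h4⟩
  · -- the third coordinates coincide
    have h3' : D.pY '' (p.1.2.2 : Set D.Y') = D.f '' (q.1.2.2 : Set D.X) := congrArg SetLike.coe h3
    let S' : Compacts D.X' := ⟨D.tf ⁻¹' (p.1.2.2 : Set D.Y'),
      (p.1.2.2.isCompact.isClosed.preimage D.tf.hom.hom.continuous).isCompact⟩
    refine ⟨tmk ⟨(x', y', S'), ?_, ?_⟩, ?_⟩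
    · show D.tf x' ∈ p.1.2.2
      rw [hx'']; exact p.2.1
    · show D.tf y' ∈ p.1.2.2
      rw [hy'']; exact p.2.2
    · rw [T_map_mk]
      apply congrArg tmk
      apply Subtype.ext
      refine Prod.ext hx'' (Prod.ext hy'' ?_)
      apply SetLike.coe_injective
      show D.tf '' (D.tf ⁻¹' (p.1.2.2 : Set D.Y')) = (p.1.2.2 : Set D.Y')
      rw [image_preimage_eq_iff]
      intro s hs
      have h6 : D.pY s ∈ D.f '' (q.1.2.2 : Set D.X) := by
        rw [← h3']
        exact ⟨s, hs, rfl⟩
      obtain ⟨u, -, hu⟩ := h6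
      obtain ⟨c, -, hc⟩ := key s u hu.symm
      exact ⟨c, hc⟩
  · apply hcase
    rw [← h1', ← h2']
    exact h3
  · -- both third coordinates are connected
    have h4' : IsPreconnected (D.f '' (q.1.2.2 : Set D.X)) := h4
    have hemb : IsClosedEmbedding D.f := D.f.hom.hom.continuous.isClosedEmbedding hf
    have h5 : IsPreconnected (q.1.2.2 : Set D.X) := (hemb.isInducing.isPreconnected_image).1 h4'
    have h6 : (q.1.2.2 : Set D.X).Subsingleton := h5.subsingleton
    apply hcase
    rw [h6 q.2.1 q.2.2]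

/-- The map `t ↦ t / 2` of the unit interval. -/
noncomputable def half (t : unitInterval) : unitInterval :=
  ⟨t.1 / 2, by have := t.2.1; linarith, by have := t.2.1; have := t.2.2; linarith⟩

theorem continuous_half : Continuous half := by
  unfold half
  fun_prop

/-- The square showing that `T` does not preserve 1-preimages. -/
noncomputable def sq1 : Square where
  X' := CompHaus.of unitInterval
  Y' := CompHaus.of (unitInterval ⊕ PUnit.{1})
  X := CompHaus.of unitInterval
  Y := CompHaus.of unitInterval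
  tf := CompHausLike.ofHom _ ⟨fun t => Sum.inl (half t), continuous_inl.comp continuous_half⟩
  f := CompHausLike.ofHom _ ⟨half, continuous_half⟩
  pX := 𝟙 _
  pY := CompHausLike.ofHom _ ⟨Sum.elim id (fun _ => 1), by fun_prop⟩
  comm := rfl

theorem half_injective : Function.Injective half := by
  intro s t h
  have := congrArg Subtype.val h
  simp only [half] at this
  apply Subtype.ext
  linarith

theorem sq1_bicomm : sq1.Bicommutative := by
  intro x
  apply Subset.antisymm
  · rintro _ ⟨c, hc, rfl⟩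
    have : c = x := hc
    rw [this]
    rfl
  · intro y hy
    change unitInterval ⊕ PUnit at y
    rcases y with t | u
    · have h1 : t = half x := hy
      exact ⟨x, rfl, congrArg Sum.inl h1.symm⟩
    · exfalso
      have h1 : (1 : unitInterval) = half x := hy
      have h2 := congrArg Subtype.val h1
      simp only [half] at h2
      have h3 := (show unitInterval from x).2.2
      change (1 : ℝ) = (show unitInterval from x).1 / 2 at h2
      linarith

theorem T_not_one : ¬ PreservesOnePreimages T := by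
  intro h
  have hf : Function.Injective sq1.f := half_injective
  have h1 := h sq1 hf (fun s t hst => half_injective (Sum.inl_injective hst))
    Function.bijective_id sq1_bicomm
  rw [map_bicomm_iff T_mono hf] at h1
  let q : TS sq1.X := ⟨((0 : unitInterval), (1 : unitInterval), (⊤ : Compacts unitInterval)),
    trivial, trivial⟩
  let p : TS sq1.Y' := ⟨((Sum.inl 0 : unitInterval ⊕ PUnit.{1}), Sum.inl (half 1),
    (⊤ : Compacts (unitInterval ⊕ PUnit.{1}))), trivial, trivial⟩
  obtain ⟨c, hc⟩ := h1 (tmk p) (tmk q) (by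
    rw [T_map_mk, T_map_mk, tmk_eq]
    refine ⟨?_, rfl, Or.inr (Or.inr ⟨?_, ?_⟩)⟩
    · show (0 : unitInterval) = half 0
      apply Subtype.ext
      simp [half]
    · show _root_.IsPreconnected
        (Sum.elim id (fun _ => 1) '' (univ : Set (unitInterval ⊕ PUnit.{1})))
      rw [image_univ, Function.Surjective.range_eq]
      · exact isPreconnected_univ
      · intro t
        exact ⟨Sum.inl t, rfl⟩
    · show _root_.IsPreconnected (half '' (univ : Set unitInterval))
      exact isPreconnected_univ.image _ continuous_half.continuousOn)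
  obtain ⟨r, rfl⟩ := exists_tmk c
  rw [T_map_mk, tmk_eq] at hc
  obtain ⟨h2, h3, h4⟩ := hc
  rcases h4 with h4 | h4 | ⟨-, h4⟩
  · let R : Compacts unitInterval := r.1.2.2
    have h5 : (fun t => (Sum.inl (half t) : unitInterval ⊕ PUnit.{1})) '' (R : Set unitInterval) =
        (univ : Set (unitInterval ⊕ PUnit.{1})) := congrArg SetLike.coe h4
    have h6 : (Sum.inr PUnit.unit : unitInterval ⊕ PUnit.{1}) ∈
        (fun t => (Sum.inl (half t) : unitInterval ⊕ PUnit.{1})) '' (R : Set unitInterval) := by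
      rw [h5]; trivial
    obtain ⟨t, -, ht⟩ := h6
    exact Sum.inl_ne_inr ht
  · have h5 : (Sum.inl 0 : unitInterval ⊕ PUnit.{1}) = Sum.inl (half 1) := by
      exact h2.symm.trans (h4.trans h3)
    have h6 := congrArg Subtype.val (Sum.inl_injective h5)
    simp [half] at h6
  · have h5 : _root_.IsPreconnected (univ : Set (unitInterval ⊕ PUnit.{1})) := h4
    obtain ⟨z, -, ⟨t, hz1⟩, ⟨u, hz2⟩⟩ := h5 (range Sum.inl) (range Sum.inr)
      isOpen_range_inl isOpen_range_inr
      (by rintro (t | u) _; exacts [Or.inl ⟨t, rfl⟩, Or.inr ⟨u, rfl⟩])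
      ⟨Sum.inl 0, trivial, 0, rfl⟩ ⟨Sum.inr PUnit.unit, trivial, _, rfl⟩
    rw [← hz2] at hz1
    exact Sum.inl_ne_inr hz1

end Q149.Fun
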