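import Pool.Agent.Helper300.OrderArc

set_option autoImplicit false

open Set Topology TopologicalSpace

namespace Pool.Agent.Q149.OrderArcs

open Pool.Agent.Helper300.OrderArc Pool.Agent.Helper300

attribute [local instance] TopologicalSpace.vietoris

variable {X : Type*} [TopologicalSpace X] [CompactSpace X] [T2Space X]

/-- Order arcs between two nested continua. -/
theorem order_arc_between {K0 P : Set X} (hK0 : IsClosed K0) (hK0c : IsConnected K0)
    (hP : IsClosed P) (hPc : IsConnected P) (hb : K0 ⊆ P)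
    (ω : Set X → ℝ) (hω : ∀ K L : Set X, IsClosed K → K ⊂ L → ω K < ω L) :
    ∃ β : ℝ → Set X, Continuous β ∧ (∀ t < ω K0, β t = K0) ∧ β (ω P) = P ∧
      ∀ t, IsClosed (β t) ∧ IsConnected (β t) ∧ K0 ⊆ β t ∧ β t ⊆ P := by
  obtain ⟨b, hbK⟩ := hK0c.nonempty
  obtain ⟨N, hN1, hN2, hN3⟩ := exists_max_chain
    (fun K : Set X => IsClosed K ∧ IsConnected K ∧ K0 ⊆ K ∧ K ⊆ P)
  have hbN : K0 ∈ N := by
    apply hN3 _ ⟨hK0, hK0c, Subset.rfl, hb⟩
    intro K hK
    exact Or.inr (hN1 K hK).2.2.1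
  have hPN : P ∈ N := hN3 _ ⟨hP, hPc, hb, Subset.rfl⟩ fun K hK => Or.inl (hN1 K hK).2.2.2
  have hss : ∀ K ∈ N, ∀ L ∈ N, ¬ L ⊆ K → K ⊂ L := fun K hK L hL h =>
    ⟨(hN2 K hK L hL).resolve_right h, h⟩
  have hωN : ∀ K ∈ N, ∀ L ∈ N, ω K ≤ ω L → K ⊆ L := by
    intro K hK L hL h
    by_contra hn
    exact absurd (hω L K (hN1 L hL).1 (hss L hL K hK hn)) (not_lt.2 h)
  -- closure of unions
  have hsup : ∀ S ⊆ N, S.Nonempty → closure (⋃₀ S) ∈ N := by
    intro S hS hSne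
    obtain ⟨s0, hs0⟩ := hSne
    apply hN3
    · refine ⟨isClosed_closure,
        ⟨⟨b, subset_closure ⟨s0, hs0, (hN1 s0 (hS hs0)).2.2.1 hbK⟩⟩, ?_⟩,
        ((hN1 s0 (hS hs0)).2.2.1.trans (subset_sUnion_of_mem hs0)).trans subset_closure, ?_⟩
      · exact (isPreconnected_sUnion b _ (fun s hs => (hN1 s (hS hs)).2.2.1 hbK)
          (fun s hs => (hN1 s (hS hs)).2.1.isPreconnected)).closure
      · exact closure_minimal (sUnion_subset fun s hs => (hN1 s (hS hs)).2.2.2) hP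
    · intro K hK
      by_cases h : ∀ s ∈ S, s ⊆ K
      · exact Or.inr (closure_minimal (sUnion_subset h) (hN1 K hK).1)
      · push Not at h
        obtain ⟨s, hs, hsK⟩ := h
        left
        have := (hN2 K hK s (hS hs)).resolve_right hsK
        exact this.trans ((subset_sUnion_of_mem hs).trans subset_closure)
  have hinf : ∀ S ⊆ N, S.Nonempty → ⋂₀ S ∈ N := by
    intro S hS hSne
    apply hN3
    · refine ⟨isClosed_sInter fun s hs => (hN1 s (hS hs)).1, ⟨⟨b, fun s hs =>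
        (hN1 s (hS hs)).2.2.1 hbK⟩, ?_⟩, subset_sInter fun s hs => (hN1 s (hS hs)).2.2.1, ?_⟩
      · apply Cont.isPreconnected_sInter _ hSne (fun s hs => (hN1 s (hS hs)).1.isCompact)
          (fun s hs => (hN1 s (hS hs)).2.1.isPreconnected)
        intro s hs t ht _
        exact hN2 s (hS hs) t (hS ht)
      · obtain ⟨s0, hs0⟩ := hSne
        exact (sInter_subset_of_mem hs0).trans (hN1 s0 (hS hs0)).2.2.2
    · intro K hK
      by_cases h : ∀ s ∈ S, K ⊆ s
      · exact Or.inl (subset_sInter h)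
      · push Not at h
        obtain ⟨s, hs, hsK⟩ := h
        right
        have := (hN2 K hK s (hS hs)).resolve_left hsK
        exact (sInter_subset_of_mem hs).trans this
  have hdense : ∀ K ∈ N, ∀ L ∈ N, K ⊂ L → ∃ M ∈ N, K ⊂ M ∧ M ⊂ L := by
    intro K hK L hL h
    by_contra hcon
    push Not at hcon
    obtain ⟨M, hM1, hM2, hM3, hM4⟩ := insertion (hN1 K hK).1 (hN1 K hK).2.1 (hN1 L hL).1
      (hN1 L hL).2.1 h
    have hMN : M ∈ N := by
      apply hN3 M ⟨hM1, hM2, (hN1 K hK).2.2.1.trans hM3.1, hM4.1.trans (hN1 L hL).2.2.2⟩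
      intro J hJ
      by_cases hJK : J ⊆ K
      · exact Or.inl (hJK.trans hM3.1)
      by_cases hLJ : L ⊆ J
      · exact Or.inr (hM4.1.trans hLJ)
      · exact absurd (hss J hJ L hL hLJ) (hcon J hJ (hss K hK J hJ hJK))
    exact hcon M hMN hM3 hM4
  have hm2 : ∀ K ∈ N, K ≠ P → ∀ U : Set X, IsOpen U → K ⊆ U → ∃ L ∈ N, K ⊂ L ∧ L ⊆ U := by
    intro K hK hKP U hU hKU
    have hSne : {L ∈ N | K ⊂ L}.Nonempty :=
      ⟨P, hPN, (hN1 K hK).2.2.2, fun h => hKP (Subset.antisymm (hN1 K hK).2.2.2 h)⟩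
    have hM := hinf {L ∈ N | K ⊂ L} (sep_subset _ _) hSne
    have hKM : K ⊆ ⋂₀ {L ∈ N | K ⊂ L} := subset_sInter fun L hL => hL.2.1
    have hMK : ⋂₀ {L ∈ N | K ⊂ L} ⊆ K := by
      by_contra hn
      obtain ⟨J, hJN, hJ1, hJ2⟩ := hdense K hK _ hM ⟨hKM, hn⟩
      exact hJ2.2 (sInter_subset_of_mem ⟨hJN, hJ1⟩)
    have hne : Nonempty {L ∈ N | K ⊂ L} := hSne.to_subtype
    obtain ⟨⟨L, hL⟩, hLU⟩ := exists_subset_nhds_of_isCompact'
      (V := fun s : {L ∈ N | K ⊂ L} => (s : Set X))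
      (by
        intro a c
        rcases hN2 a.1 a.2.1 c.1 c.2.1 with h | h
        · exact ⟨a, Subset.rfl, h⟩
        · exact ⟨c, h, Subset.rfl⟩)
      (fun s => (hN1 s.1 s.2.1).1.isCompact) (fun s => (hN1 s.1 s.2.1).1) (U := U)
      (fun z hz => by
        apply hU.mem_nhds
        apply hKU
        apply hMK
        rw [sInter_eq_iInter]
        exact hz)
    exact ⟨L, hL.1, hL.2, hLU⟩
  have hm3 : ∀ K ∈ N, K ≠ K0 → ∀ U : Set X, IsOpen U → (K ∩ U).Nonempty →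
      ∃ L ∈ N, L ⊂ K ∧ (L ∩ U).Nonempty := by
    intro K hK hKb U hU hKU
    have hSne : {L ∈ N | L ⊂ K}.Nonempty :=
      ⟨K0, hbN, (hN1 K hK).2.2.1, fun h => hKb (Subset.antisymm h (hN1 K hK).2.2.1)⟩
    have hM := hsup {L ∈ N | L ⊂ K} (sep_subset _ _) hSne
    have hMK : closure (⋃₀ {L ∈ N | L ⊂ K}) ⊆ K :=
      closure_minimal (sUnion_subset fun L hL => hL.2.1) (hN1 K hK).1
    have hKM : K ⊆ closure (⋃₀ {L ∈ N | L ⊂ K}) := by
      by_contra hn
      obtain ⟨J, hJN, hJ1, hJ2⟩ := hdense _ hM K hK ⟨hMK, hn⟩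
      have hJm : J ∈ {L ∈ N | L ⊂ K} := ⟨hJN, hJ2⟩
      exact hJ1.2 ((subset_sUnion_of_mem hJm).trans subset_closure)
    obtain ⟨x, hxK, hxU⟩ := hKU
    obtain ⟨y, hyU, L, hL, hyL⟩ := mem_closure_iff.1 (hKM hxK) U hU hxU
    exact ⟨L, hL.1, hL.2, y, hyL, hyU⟩
  -- the parametrisation
  set β : ℝ → Set X := fun t => closure (⋃₀ (insert K0 {K ∈ N | ω K ≤ t})) with hβ
  have hβN : ∀ t, β t ∈ N := fun t => hsup _
    (insert_subset hbN (sep_subset _ _)) (insert_nonempty _ _)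
  have hβle : ∀ t, ∀ K ∈ N, ω K ≤ t → K ⊆ β t := by
    intro t K hK h
    have hKm : K ∈ {K ∈ N | ω K ≤ t} := ⟨hK, h⟩
    exact (subset_sUnion_of_mem (mem_insert_of_mem _ hKm)).trans subset_closure
  have hβub : ∀ t, ∀ L ∈ N, t ≤ ω L → β t ⊆ L := by
    intro t L hL h
    apply closure_minimal _ (hN1 L hL).1
    apply sUnion_subset
    rintro K (rfl | hK)
    · exact (hN1 L hL).2.2.1
    · exact hωN K hK.1 L hL (hK.2.trans h)
  refine ⟨β, ?_, ?_, ?_, ?_⟩
  · rw [continuous_generateFrom_iff]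
    rintro _ (⟨U, hU, rfl⟩ | ⟨U, hU, rfl⟩)
    · rw [isOpen_iff_mem_nhds]
      intro s hs
      have hs' : β s ⊆ U := hs
      by_cases hsP : β s = P
      · filter_upwards with r
        exact ((hN1 _ (hβN r)).2.2.2.trans hsP.symm.subset).trans hs'
      · obtain ⟨L, hLN, hL1, hL2⟩ := hm2 _ (hβN s) hsP U hU hs'
        have hsL : s < ω L := by
          by_contra hn
          exact hL1.2 (hβle s L hLN (not_lt.1 hn))
        filter_upwards [Iio_mem_nhds hsL] with r hr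
        exact (hβub r L hLN (le_of_lt hr)).trans hL2
    · rw [isOpen_iff_mem_nhds]
      intro s hs
      have hs' : (β s ∩ U).Nonempty := hs
      by_cases hsb : β s = K0
      · filter_upwards with r
        obtain ⟨x, hx, hxU⟩ := hs'
        rw [hsb] at hx
        exact ⟨x, (hN1 _ (hβN r)).2.2.1 hx, hxU⟩
      · obtain ⟨L, hLN, hL1, hL2⟩ := hm3 _ (hβN s) hsb U hU hs'
        have hsL : ω L < s := by
          by_contra hn
          exact hL1.2 (hβub s L hLN (not_lt.1 hn))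
        filter_upwards [Ioi_mem_nhds hsL] with r hr
        exact hL2.mono (inter_subset_inter_left _ (hβle r L hLN (le_of_lt hr)))
  · intro t ht
    apply Subset.antisymm
    · exact hβub t _ hbN ht.le
    · exact (hN1 _ (hβN t)).2.2.1
  · exact Subset.antisymm (hN1 _ (hβN _)).2.2.2 (hβle _ P hPN le_rfl)
  · intro t
    exact hN1 _ (hβN t)


end Pool.Agent.Q149.OrderArcs
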