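import Mathlib

/-!
Spaces of separately continuous functions on `X × Y` with the cross-open and the cross-uniform
topology, and Rosenthal compacta.
-/

open Set Filter Topology

namespace Q149.SepC

universe u v

/-- `s : X × Y → ℝ` is separately continuous. -/
def SepCont {X : Type u} {Y : Type v} [TopologicalSpace X] [TopologicalSpace Y]
    (s : X × Y → ℝ) : Prop :=
  (∀ y : Y, Continuous fun x : X => s (x, y)) ∧ (∀ x : X, Continuous fun y : Y => s (x, y))

/-- The set `S(X × Y)` of all separately continuous real-valued functions on `X × Y`. -/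
def S (X : Type u) (Y : Type v) [TopologicalSpace X] [TopologicalSpace Y] : Type (max u v) :=
  {s : X × Y → ℝ // SepCont s}

/-- The cross of a point `p = (a, b)`: the set `({a} × Y) ∪ (X × {b})`. -/
def cross {X : Type u} {Y : Type v} (p : X × Y) : Set (X × Y) :=
  ({p.1} ×ˢ univ) ∪ (univ ×ˢ {p.2})

/-- The cross-open topology on `S(X × Y)`: generated by the sets `{s | s(A) ⊆ W}` with `W` open in
`ℝ` and `A = closure G ∩ C`, `C` the cross of a point and `G = U ∩ C` (with `U` open in `X × Y`)
an open subset of `C`. -/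
def crossOpen (X : Type u) (Y : Type v) [TopologicalSpace X] [TopologicalSpace Y] :
    TopologicalSpace (S X Y) :=
  TopologicalSpace.generateFrom
    {N | ∃ (p : X × Y) (U : Set (X × Y)) (W : Set ℝ), IsOpen U ∧ IsOpen W ∧
      N = {s : S X Y | s.1 '' (closure (U ∩ cross p) ∩ cross p) ⊆ W}}

/-- The basic cross-uniform neighbourhood of `s` given by a finite set `F` of points and `ε`. -/
def cuNhd {X : Type u} {Y : Type v} [TopologicalSpace X] [TopologicalSpace Y]
    (s : S X Y) (F : Finset (X × Y)) (ε : ℝ) : Set (S X Y) :=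
  {t | ∀ p ∈ F, ∀ q ∈ cross p, |s.1 q - t.1 q| < ε}

/-- The cross-uniform topology on `S(X × Y)`: a set is open if with every point `s` it contains
a finite intersection of sets `{t | |s(q) - t(q)| < ε for all q in the cross of p}`. -/
def crossUniform (X : Type u) (Y : Type v) [TopologicalSpace X] [TopologicalSpace Y] :
    TopologicalSpace (S X Y) where
  IsOpen O := ∀ s ∈ O, ∃ (F : Finset (X × Y)) (ε : ℝ), 0 < ε ∧ cuNhd s F ε ⊆ O
  isOpen_univ := fun s _ => ⟨∅, 1, one_pos, fun _ _ => trivial⟩
  isOpen_inter := by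
    classical
    intro O₁ O₂ h₁ h₂ s hs
    obtain ⟨F₁, e₁, he₁, H₁⟩ := h₁ s hs.1
    obtain ⟨F₂, e₂, he₂, H₂⟩ := h₂ s hs.2
    refine ⟨F₁ ∪ F₂, min e₁ e₂, lt_min he₁ he₂, fun t ht => ⟨H₁ ?_, H₂ ?_⟩⟩
    · intro p hp q hq
      exact lt_of_lt_of_le (ht p (Finset.mem_union_left _ hp) q hq) (min_le_left _ _)
    · intro p hp q hq
      exact lt_of_lt_of_le (ht p (Finset.mem_union_right _ hp) q hq) (min_le_right _ _)
  isOpen_sUnion := by
    intro 𝒪 h s hs
    obtain ⟨O, hO, hsO⟩ := hs
    obtain ⟨F, e, he, H⟩ := h O hO s hsO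
    exact ⟨F, e, he, fun t ht => ⟨O, hO, H ht⟩⟩

/-- `f : M → ℝ` is a Baire-one function: a pointwise limit of continuous functions. -/
def BaireOne {M : Type u} [TopologicalSpace M] (f : M → ℝ) : Prop :=
  ∃ g : ℕ → M → ℝ, (∀ n, Continuous (g n)) ∧ ∀ x, Tendsto (fun n => g n x) atTop (𝓝 (f x))

/-- `K` is a Rosenthal compactum: it is compact and embeds into the space of Baire-one functions
on a Polish space with the topology of pointwise convergence. -/
def RosenthalCompact (K : Type u) [TopologicalSpace K] : Prop :=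
  CompactSpace K ∧ ∃ (M : Type) (_ : TopologicalSpace M) (_ : PolishSpace M) (e : K → M → ℝ),
    (∀ k, BaireOne (e k)) ∧ IsEmbedding e

/-- Restriction of a separately continuous function to a cross is continuous, in the form of a
closed-neighbourhood statement: the set where `s` is within `ε` of `s p`. -/
theorem nhd_cross {X : Type u} {Y : Type v} [TopologicalSpace X] [TopologicalSpace Y]
    [T1Space X] [T1Space Y] (s : S X Y) (p : X × Y) (V : Set ℝ) (hV : IsOpen V) :
    ∃ U : Set (X × Y), IsOpen U ∧ ∀ q ∈ cross p, (q ∈ U ↔ s.1 q ∈ V) := by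
  have hc : ContinuousOn s.1 (cross p) := by
    unfold cross
    refine ContinuousOn.union_of_isClosed ?_ ?_ ?_ ?_
    · have h : ContinuousOn (fun q : X × Y => s.1 (p.1, q.2)) ({p.1} ×ˢ univ) :=
        ((s.2.2 p.1).comp continuous_snd).continuousOn
      refine h.congr ?_
      rintro ⟨a, b⟩ hq
      simp only [mem_prod, mem_singleton_iff, mem_univ, and_true] at hq
      simp [hq]
    · have h : ContinuousOn (fun q : X × Y => s.1 (q.1, p.2)) (univ ×ˢ {p.2}) :=
        ((s.2.1 p.2).comp continuous_fst).continuousOn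
      refine h.congr ?_
      rintro ⟨a, b⟩ hq
      simp only [mem_prod, mem_singleton_iff, mem_univ, true_and] at hq
      simp [hq]
    · exact isClosed_singleton.prod isClosed_univ
    · exact isClosed_univ.prod isClosed_singleton
  obtain ⟨U, hU, hUe⟩ := (continuousOn_iff'.1 hc) V hV
  refine ⟨U, hU, fun q hq => ?_⟩
  have := Set.ext_iff.1 hUe q
  simp only [mem_inter_iff, mem_preimage, hq, and_true] at this
  exact this.symm

/-- Point evaluations are continuous for the cross-open topology. -/
theorem continuous_eval_cro {X : Type u} {Y : Type v} [TopologicalSpace X] [TopologicalSpace Y]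
    [T1Space X] [T1Space Y] (p : X × Y) :
    @Continuous (S X Y) ℝ (crossOpen X Y) _ (fun s => s.1 p) := by
  letI := crossOpen X Y
  rw [continuous_def]
  intro W hW
  rw [isOpen_iff_mem_nhds]
  intro s hs
  obtain ⟨ε, hε, hball⟩ := Metric.isOpen_iff.1 hW _ hs
  obtain ⟨U, hU, hUe⟩ := nhd_cross s p (Metric.ball (s.1 p) (ε / 2)) Metric.isOpen_ball
  obtain ⟨U', hU', hUe'⟩ := nhd_cross s p {y : ℝ | ε / 2 < dist y (s.1 p)}
    (isOpen_lt continuous_const (continuous_id.dist continuous_const))
  have hpc : p ∈ cross p := Or.inl ⟨rfl, trivial⟩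
  have hpU : p ∈ U := (hUe p hpc).2 (Metric.mem_ball_self (half_pos hε))
  have hsub : ∀ q ∈ closure (U ∩ cross p) ∩ cross p, dist (s.1 q) (s.1 p) ≤ ε / 2 := by
    rintro q ⟨hq, hqc⟩
    by_contra hcon
    push Not at hcon
    have hqU' : q ∈ U' := (hUe' q hqc).2 hcon
    obtain ⟨r, hr1, hr2, hr3⟩ := mem_closure_iff.1 hq U' hU' hqU'
    have h1 := (hUe r hr3).1 hr2
    have h2 : ε / 2 < dist (s.1 r) (s.1 p) := (hUe' r hr3).1 hr1
    rw [Metric.mem_ball] at h1
    linarith
  have hN : IsOpen ({t : S X Y | t.1 '' (closure (U ∩ cross p) ∩ cross p) ⊆ W}) := by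
    refine TopologicalSpace.isOpen_generateFrom_of_mem ⟨p, U, W, hU, hW, rfl⟩
  refine Filter.mem_of_superset (hN.mem_nhds ?_) ?_
  · rintro _ ⟨q, hq, rfl⟩
    exact hball (by rw [Metric.mem_ball]; linarith [hsub q hq])
  · intro t ht
    exact ht ⟨p, ⟨subset_closure ⟨hpU, hpc⟩, hpc⟩, rfl⟩

/-- Point evaluations are continuous for the cross-uniform topology. -/
theorem continuous_eval_cru {X : Type u} {Y : Type v} [TopologicalSpace X] [TopologicalSpace Y]
    (p : X × Y) :
    @Continuous (S X Y) ℝ (crossUniform X Y) _ (fun s => s.1 p) := by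
  letI := crossUniform X Y
  rw [continuous_def]
  intro W hW s hs
  obtain ⟨ε, hε, hball⟩ := Metric.isOpen_iff.1 hW _ hs
  refine ⟨{p}, ε, hε, fun t ht => hball ?_⟩
  have := ht p (Finset.mem_singleton_self p) p (Or.inl ⟨rfl, trivial⟩)
  rw [Metric.mem_ball, dist_comm, Real.dist_eq]
  exact this

/-- A separately continuous function on a product of separable spaces is determined by its values
on a countable set. -/
theorem exists_countable_determining (X : Type u) (Y : Type v) [TopologicalSpace X]
    [TopologicalSpace Y] [TopologicalSpace.SeparableSpace X] [TopologicalSpace.SeparableSpace Y] :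
    ∃ D : Set (X × Y), D.Countable ∧ ∀ s t : S X Y, (∀ q ∈ D, s.1 q = t.1 q) → s = t := by
  obtain ⟨D, hDc, hD⟩ := TopologicalSpace.exists_countable_dense X
  obtain ⟨E, hEc, hE⟩ := TopologicalSpace.exists_countable_dense Y
  refine ⟨D ×ˢ E, hDc.prod hEc, fun s t h => ?_⟩
  have h1 : ∀ x ∈ D, ∀ y, s.1 (x, y) = t.1 (x, y) := by
    intro x hx
    have := Continuous.ext_on hE (s.2.2 x) (t.2.2 x) (fun y hy => h (x, y) ⟨hx, hy⟩)
    exact fun y => congrFun this y
  apply Subtype.ext
  funext q
  obtain ⟨x, y⟩ := q
  have := Continuous.ext_on hD (s.2.1 y) (t.2.1 y) (fun x hx => h1 x hx y)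
  exact congrFun this x

/-- If the point evaluations are continuous for a topology `τ` on `S(X × Y)`, with `X, Y`
separable, then any compact space that maps continuously and injectively into `(S(X × Y), τ)`
is second countable. -/
theorem secondCountable_of_injection {X : Type u} {Y : Type v} [TopologicalSpace X]
    [TopologicalSpace Y] [TopologicalSpace.SeparableSpace X] [TopologicalSpace.SeparableSpace Y]
    (τ : TopologicalSpace (S X Y))
    (hτ : ∀ p : X × Y, @Continuous (S X Y) ℝ τ _ (fun s => s.1 p))
    {K : Type*} [TopologicalSpace K] [CompactSpace K] (f : K → S X Y)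
    (hf : @Continuous K (S X Y) _ τ f) (hinj : Function.Injective f) :
    SecondCountableTopology K := by
  obtain ⟨D, hDc, hD⟩ := exists_countable_determining X Y
  haveI : Countable D := hDc.to_subtype
  let g : K → (D → ℝ) := fun k q => (f k).1 q.1
  have hg : Continuous g := continuous_pi fun q => (hτ q.1).comp hf
  have hgi : Function.Injective g := by
    intro a b hab
    apply hinj
    apply hD
    intro q hq
    exact congrFun hab ⟨q, hq⟩
  exact (hg.isClosedEmbedding hgi).isEmbedding.secondCountableTopology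

/-- The compactum of the functions `ℝ → ℝ` with values in `{0, 1}` that are nonzero in at most
one point. -/
def KK : Set (ℝ → ℝ) := {f | (∀ x, f x = 0 ∨ f x = 1) ∧ ∀ x y, x ≠ y → f x * f y = 0}

theorem isCompact_KK : IsCompact KK := by
  have h1 : IsCompact (Set.pi univ (fun _ : ℝ => ({0, 1} : Set ℝ))) :=
    isCompact_univ_pi fun _ => (Set.toFinite _).isCompact
  refine h1.of_isClosed_subset ?_ ?_
  · have e : KK = (⋂ x : ℝ, {f : ℝ → ℝ | f x ∈ ({0, 1} : Set ℝ)}) ∩
        ⋂ x : ℝ, ⋂ y : ℝ, ⋂ _ : x ≠ y, {f : ℝ → ℝ | f x * f y = 0} := by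
      ext f
      simp [KK]
    rw [e]
    refine IsClosed.inter ?_ ?_
    · refine isClosed_iInter fun x => ?_
      exact (Set.toFinite ({0, 1} : Set ℝ)).isClosed.preimage (continuous_apply x)
    · refine isClosed_iInter fun x => isClosed_iInter fun y => isClosed_iInter fun _ => ?_
      exact isClosed_eq ((continuous_apply x).mul (continuous_apply y)) continuous_const
  · intro f hf x _
    simpa using hf.1 x

theorem baireOne_of_mem {f : ℝ → ℝ} (hf : f ∈ KK) : BaireOne f := by
  by_cases h : ∃ x, f x = 1
  · obtain ⟨x, hx⟩ := h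
    refine ⟨fun n t => 1 / (1 + (n : ℝ) * |t - x|), fun n => ?_, fun t => ?_⟩
    · refine Continuous.div continuous_const (by fun_prop) (fun t => ?_)
      have : 0 ≤ (n : ℝ) * |t - x| := by positivity
      linarith
    · by_cases htx : t = x
      · subst htx
        simp [hx]
      · have hft : f t = 0 := by
          have := hf.2 t x htx
          rw [hx, mul_one] at this
          exact this
        rw [hft]
        have hpos : 0 < |t - x| := abs_pos.2 (sub_ne_zero.2 htx)
        have h1 : Tendsto (fun n : ℕ => 1 + (n : ℝ) * |t - x|) atTop atTop :=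
          tendsto_atTop_add_const_left _ _
            (tendsto_natCast_atTop_atTop.atTop_mul_const hpos)
        have h2 : Tendsto (fun n : ℕ => (1 + (n : ℝ) * |t - x|)⁻¹) atTop (𝓝 0) :=
          tendsto_inv_atTop_zero.comp h1
        simpa [one_div] using h2
  · push Not at h
    have h0 : f = fun _ => 0 := by
      funext x
      rcases hf.1 x with h1 | h1
      · exact h1
      · exact absurd h1 (h x)
    exact ⟨fun _ _ => 0, fun _ => continuous_const, fun x => by rw [h0]; exact tendsto_const_nhds⟩

theorem rosenthal_KK : RosenthalCompact KK :=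
  ⟨isCompact_iff_compactSpace.1 isCompact_KK, ℝ, inferInstance, inferInstance,
    fun k => k.1, fun k => baireOne_of_mem k.2, IsEmbedding.subtypeVal⟩

theorem not_secondCountable_KK : ¬ SecondCountableTopology KK := by
  classical
  intro hsc
  have hmem : ∀ x : ℝ, (Pi.single x (1 : ℝ) : ℝ → ℝ) ∈ KK := by
    intro x
    refine ⟨fun y => ?_, fun y z hyz => ?_⟩
    · by_cases h : y = x
      · subst h; right; simp
      · left; simp [Pi.single_apply, h]
    · by_cases h : y = x
      · subst h
        have : z ≠ y := fun h => hyz h.symm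
        simp [Pi.single_apply, this]
      · simp [Pi.single_apply, h]
  let O : ℝ → Set KK := fun x => {f | 1 / 2 < f.1 x}
  have hO : ∀ x ∈ (univ : Set ℝ), IsOpen (O x) := fun x _ =>
    isOpen_lt continuous_const ((continuous_apply x).comp continuous_subtype_val)
  have hne : ∀ x ∈ (univ : Set ℝ), (O x).Nonempty := fun x _ =>
    ⟨⟨Pi.single x 1, hmem x⟩, by simp only [O, mem_setOf_eq, Pi.single_eq_same]; norm_num⟩
  have hd : (univ : Set ℝ).PairwiseDisjoint O := by
    intro x _ y _ hxy
    rw [Function.onFun, Set.disjoint_left]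
    intro f hf1 hf2
    simp only [O, mem_setOf_eq] at hf1 hf2
    have := f.2.2 x y hxy
    nlinarith
  have hc : (univ : Set ℝ).Countable := hd.countable_of_isOpen hO hne
  exact Cardinal.not_countable_real hc

end Q149.SepC
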