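import Pool.Agent.Q149.Functors

/-!
The functor `W X = {(x, y, z) ∈ X³ | y = x or z = x}` (two copies of `X²` glued along the
diagonal). It is normal, finitary, of degree `2` and skeletal, but it is not finitely
bicommutative (and not open).
-/

open CategoryTheory CategoryTheory.Limits Topology Set

namespace Q149.Fun

/-- The set of triples `(x, y, z)` with `y = x` or `z = x`. -/
def WS (X : Type) : Set (X × X × X) := {p | p.2.1 = p.1 ∨ p.2.2 = p.1}

theorem isClosed_WS (X : Type) [TopologicalSpace X] [T2Space X] : IsClosed (WS X) := by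
  apply IsClosed.union
  · exact isClosed_eq (continuous_fst.comp continuous_snd) continuous_fst
  · exact isClosed_eq (continuous_snd.comp continuous_snd) continuous_fst

instance (X : Type) [TopologicalSpace X] [CompactSpace X] [T2Space X] : CompactSpace (WS X) :=
  isCompact_iff_compactSpace.1 (isClosed_WS X).isCompact

/-- The map `WS X → WS Y` induced by `f : X → Y`. -/
def WSmap {X Y : Type} (f : X → Y) (p : WS X) : WS Y :=
  ⟨(f p.1.1, f p.1.2.1, f p.1.2.2), p.2.imp (congrArg f) (congrArg f)⟩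

theorem continuous_WSmap {X Y : Type} [TopologicalSpace X] [TopologicalSpace Y] {f : X → Y}
    (hf : Continuous f) : Continuous (WSmap f) := by
  unfold WSmap
  fun_prop

/-- The functor `W`. -/
def W : CompFunctor where
  obj X := CompHaus.of (WS X)
  map {X Y} f := CompHausLike.ofHom _ ⟨WSmap f, continuous_WSmap f.hom.hom.continuous⟩
  map_id X := rfl
  map_comp f g := rfl

theorem W_map_apply {X Y : CompHaus.{0}} (f : X ⟶ Y) (p : W.obj X) : W.map f p = WSmap f p := rfl

theorem WSmap_injective {X Y : Type} {f : X → Y} (hf : Function.Injective f) :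
    Function.Injective (WSmap f) := by
  intro p q h
  have h1 := congrArg Subtype.val h
  simp only [WSmap, Prod.mk.injEq] at h1
  apply Subtype.ext
  exact Prod.ext (hf h1.1) (Prod.ext (hf h1.2.1) (hf h1.2.2))

theorem W_mono : Monomorphic W := fun _ _ _ hf => WSmap_injective hf

/-- A triple is in the range of `W f` as soon as its coordinates are in the range of `f`, for an
injective or surjective `f`. -/
theorem mem_range_WSmap {X Y : Type} {f : X → Y} (p : WS Y)
    (h : ∀ y, (y = p.1.1 ∨ y = p.1.2.1 ∨ y = p.1.2.2) → y ∈ range f) : p ∈ range (WSmap f) := by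
  obtain ⟨⟨x, y, z⟩, hp⟩ := p
  obtain ⟨x', hx'⟩ := h x (Or.inl rfl)
  obtain ⟨y', hy'⟩ := h y (Or.inr (Or.inl rfl))
  obtain ⟨z', hz'⟩ := h z (Or.inr (Or.inr rfl))
  rcases hp with hp | hp
  · change y = x at hp
    subst hp
    refine ⟨⟨(x', x', z'), Or.inl rfl⟩, ?_⟩
    apply Subtype.ext
    simp only [WSmap, hx', hz']
  · change z = x at hp
    subst hp
    refine ⟨⟨(x', y', x'), Or.inr rfl⟩, ?_⟩
    apply Subtype.ext
    simp only [WSmap, hx', hy']

theorem W_epi : Epimorphic W := fun _ _ _ hf p => mem_range_WSmap p fun y _ => hf y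

theorem range_WSmap {X Y : Type} (f : X → Y) :
    range (WSmap f) = {p : WS Y | p.1.1 ∈ range f ∧ p.1.2.1 ∈ range f ∧ p.1.2.2 ∈ range f} := by
  ext p
  constructor
  · rintro ⟨q, rfl⟩
    exact ⟨⟨_, rfl⟩, ⟨_, rfl⟩, ⟨_, rfl⟩⟩
  · rintro ⟨h1, h2, h3⟩
    apply mem_range_WSmap
    rintro y (rfl | rfl | rfl)
    exacts [h1, h2, h3]

theorem W_inter : PreservesInter W := by
  intro X ι _ A e B g _ _ hg
  change range (WSmap g) = ⋂ i, range (WSmap (e i))
  ext p
  simp only [range_WSmap, mem_iInter, mem_setOf_eq, hg]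
  exact ⟨fun h i => ⟨h.1 i, h.2.1 i, h.2.2 i⟩, fun h => ⟨fun i => (h i).1, fun i => (h i).2.1,
    fun i => (h i).2.2⟩⟩

theorem W_empty : PreservesEmpty W := fun X hX => ⟨fun p => hX.false (p : WS X).1.1⟩

theorem W_point : PreservesPoint W := by
  rintro X ⟨x⟩ hX
  refine ⟨⟨(⟨(x, x, x), Or.inl rfl⟩ : WS X)⟩, ⟨fun p q => ?_⟩⟩
  apply Subtype.ext
  exact Prod.ext (hX.elim _ _) (Prod.ext (hX.elim _ _) (hX.elim _ _))

theorem exists_basis_weight (X : Type) [TopologicalSpace X] :
    ∃ B : Set (Set X), TopologicalSpace.IsTopologicalBasis B ∧ Cardinal.mk B = weight X := by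
  have : weight X ∈ {κ | ∃ B : Set (Set X), TopologicalSpace.IsTopologicalBasis B ∧
      Cardinal.mk B = κ} := csInf_mem ⟨_, {s | IsOpen s}, TopologicalSpace.isTopologicalBasis_opens,
        rfl⟩
  exact this

theorem weight_le {X : Type} [TopologicalSpace X] {B : Set (Set X)}
    (hB : TopologicalSpace.IsTopologicalBasis B) : weight X ≤ Cardinal.mk B :=
  csInf_le' ⟨B, hB, rfl⟩

/-- A basis of an infinite Hausdorff space is infinite. -/
theorem infinite_basis {X : Type} [TopologicalSpace X] [T2Space X] [Infinite X] {B : Set (Set X)}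
    (hB : TopologicalSpace.IsTopologicalBasis B) : Infinite B := by
  by_contra hfin
  rw [not_infinite_iff_finite] at hfin
  -- the map sending a point to the set of basis elements containing it is injective
  have hinj : Function.Injective (fun (x : X) => {b : B | x ∈ b.1}) := by
    intro x y hxy
    by_contra hne
    obtain ⟨u, hu, hxu, huy⟩ := hB.exists_subset_of_mem_open (a := x) (u := {y}ᶜ) hne
      isOpen_compl_singleton
    have h1 : (⟨u, hu⟩ : B) ∈ {b : B | x ∈ b.1} := hxu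
    have h2 : (⟨u, hu⟩ : B) ∈ {b : B | y ∈ b.1} := by
      have := congrArg (fun s => (⟨u, hu⟩ : B) ∈ s) hxy
      exact this.mp h1
    exact huy h2 rfl
  haveI := Finite.of_injective _ hinj
  exact not_finite X

theorem W_weight : PreservesWeight W := by
  intro X hX
  obtain ⟨B, hB, hBw⟩ := exists_basis_weight X
  haveI := infinite_basis hB
  have hB3 : TopologicalSpace.IsTopologicalBasis (image2 (· ×ˢ ·) B (image2 (· ×ˢ ·) B B)) :=
    hB.prod (hB.prod hB)
  have h4 : TopologicalSpace.IsTopologicalBasis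
      (preimage (Subtype.val : WS X → X × X × X) ''
        (image2 (· ×ˢ ·) B (image2 (· ×ˢ ·) B B))) := hB3.isInducing IsInducing.subtypeVal
  have h5 : weight (W.obj X) ≤ _ := weight_le (X := WS X) h4
  refine h5.trans ?_
  refine Cardinal.mk_image_le.trans ?_
  have h6 : ∀ (P Q : Type) (S : Set (Set P)) (T : Set (Set Q)) (κ : Cardinal.{0}),
      Cardinal.aleph0 ≤ κ → Cardinal.mk S ≤ κ → Cardinal.mk T ≤ κ →
      Cardinal.mk (image2 (· ×ˢ ·) S T : Set (Set (P × Q))) ≤ κ := by
    intro P Q S T κ hκ hS hT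
    rw [← image_prod]
    refine Cardinal.mk_image_le.trans ?_
    rw [Cardinal.mk_setProd]
    exact (mul_le_mul' hS hT).trans (Cardinal.mul_eq_self hκ).le
  have h7 : Cardinal.aleph0 ≤ weight X := by
    rw [← hBw]
    exact Cardinal.aleph0_le_mk _
  exact h6 _ _ _ _ _ h7 hBw.le (h6 _ _ _ _ _ h7 hBw.le hBw.le)

theorem W_preimages : PreservesPreimages W := by
  intro D hf htf hD a
  change WSmap D.tf '' (WSmap D.pX ⁻¹' {a}) = WSmap D.pY ⁻¹' {WSmap D.f a}
  apply Subset.antisymm
  · rintro _ ⟨b, hb, rfl⟩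
    have hb' : WSmap D.pX b = a := hb
    show WSmap D.pY (WSmap D.tf b) = WSmap D.f a
    rw [← hb']
    apply Subtype.ext
    have hc : ∀ x, D.pY (D.tf x) = D.f (D.pX x) := by
      intro x
      rw [← comp_app, ← D.comm, comp_app]
    simp only [WSmap, hc]
  · intro b hb
    have hb' : WSmap D.pY b = WSmap D.f a := hb
    have h1 := congrArg Subtype.val hb'
    simp only [WSmap, Prod.mk.injEq] at h1
    have key : ∀ (y : D.Y') (x : D.X), D.pY y = D.f x → y ∈ range D.tf := by
      intro y x hyx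
      have : y ∈ D.pY ⁻¹' {D.f x} := hyx
      rw [← hD x] at this
      obtain ⟨w, -, hw⟩ := this
      exact ⟨w, hw⟩
    have hr : b ∈ range (WSmap D.tf) := by
      rw [range_WSmap]
      exact ⟨key _ _ h1.1, key _ _ h1.2.1, key _ _ h1.2.2⟩
    obtain ⟨c, rfl⟩ := hr
    refine ⟨c, ?_, rfl⟩
    show WSmap D.pX c = a
    apply WSmap_injective hf
    rw [← hb']
    apply Subtype.ext
    have hc : ∀ x, D.pY (D.tf x) = D.f (D.pX x) := by
      intro x
      rw [← comp_app, ← D.comm, comp_app]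
    simp only [WSmap, hc]

theorem W_cont : IsCont W := by
  apply isCont_of
  intro J _ _ _ D c hc
  constructor
  · intro a b h
    have h' : ∀ j, WSmap (c.π.app j) a = WSmap (c.π.app j) b := h
    apply Subtype.ext
    exact Prod.ext (limit_ext hc fun j => congrArg (fun q : WS (D.obj j) => q.1.1) (h' j))
      (Prod.ext (limit_ext hc fun j => congrArg (fun q : WS (D.obj j) => q.1.2.1) (h' j))
        (limit_ext hc fun j => congrArg (fun q : WS (D.obj j) => q.1.2.2) (h' j)))
  · intro z hz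
    have hz' : ∀ (i j : Jᵒᵖ) (φ : i ⟶ j), WSmap (D.map φ) (z i) = z j := hz
    have hz1 : ∀ (i j : Jᵒᵖ) (φ : i ⟶ j), D.map φ (z i : WS _).1.1 = (z j : WS _).1.1 := by
      intro i j φ
      rw [← hz' i j φ]; rfl
    have hz2 : ∀ (i j : Jᵒᵖ) (φ : i ⟶ j), D.map φ (z i : WS _).1.2.1 = (z j : WS _).1.2.1 := by
      intro i j φ
      rw [← hz' i j φ]; rfl
    have hz3 : ∀ (i j : Jᵒᵖ) (φ : i ⟶ j), D.map φ (z i : WS _).1.2.2 = (z j : WS _).1.2.2 := by
      intro i j φ
      rw [← hz' i j φ]; rfl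
    obtain ⟨x, hx⟩ := limit_exists hc (fun j => (z j : WS _).1.1) hz1
    obtain ⟨y, hy⟩ := limit_exists hc (fun j => (z j : WS _).1.2.1) hz2
    obtain ⟨w, hw⟩ := limit_exists hc (fun j => (z j : WS _).1.2.2) hz3
    have hmem : y = x ∨ w = x := by
      by_contra hcon
      push Not at hcon
      obtain ⟨hyx, hwx⟩ := hcon
      have h1 : ∃ i, c.π.app i y ≠ c.π.app i x := by
        by_contra hall
        push Not at hall
        exact hyx (limit_ext hc hall)
      have h2 : ∃ i, c.π.app i w ≠ c.π.app i x := by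
        by_contra hall
        push Not at hall
        exact hwx (limit_ext hc hall)
      obtain ⟨i, hi⟩ := h1
      obtain ⟨j, hj⟩ := h2
      obtain ⟨k, hik, hjk⟩ := exists_ge_ge i.unop j.unop
      have e1 : c.π.app (Opposite.op k) y ≠ c.π.app (Opposite.op k) x := by
        intro h
        apply hi
        have hn : c.π.app (Opposite.op k) ≫ D.map (homOfLE hik).op = c.π.app i := c.w _
        rw [← hn, comp_app, comp_app, h]
      have e2 : c.π.app (Opposite.op k) w ≠ c.π.app (Opposite.op k) x := by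
        intro h
        apply hj
        have hn : c.π.app (Opposite.op k) ≫ D.map (homOfLE hjk).op = c.π.app j := c.w _
        rw [← hn, comp_app, comp_app, h]
      rw [hx, hy] at e1
      rw [hx, hw] at e2
      rcases (z (Opposite.op k) : WS _).2 with h | h
      · exact e1 h
      · exact e2 h
    refine ⟨(⟨(x, y, w), hmem⟩ : WS _), fun j => ?_⟩
    change WSmap (c.π.app j) ⟨(x, y, w), hmem⟩ = z j
    apply Subtype.ext
    simp only [WSmap, hx, hy, hw]

theorem W_normal : IsNormal W :=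
  ⟨W_mono, W_epi, W_cont, W_inter, W_empty, W_point, W_weight, W_preimages⟩

theorem W_finitary : IsFinitary W := by
  intro X hX
  change Finite (WS X)
  infer_instance

theorem W_degree : FiniteDegree W := by
  refine ⟨2, fun X a => ?_⟩
  obtain ⟨⟨x, y, z⟩, h⟩ := a
  rcases h with h | h
  · refine ⟨CompHausLike.ofHom _ ⟨![x, z], continuous_of_discreteTopology⟩,
      (⟨(0, 0, 1), Or.inl rfl⟩ : WS (Fin 2)), ?_⟩
    apply Subtype.ext
    change (x, x, z) = (x, y, z)
    rw [show y = x from h]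
  · refine ⟨CompHausLike.ofHom _ ⟨![x, y], continuous_of_discreteTopology⟩,
      (⟨(0, 1, 0), Or.inr rfl⟩ : WS (Fin 2)), ?_⟩
    apply Subtype.ext
    change (x, y, x) = (x, y, z)
    rw [show z = x from h]

/-- A sufficient condition for a map to be skeletal. -/
theorem skeletalMap_of {K L : Type} [TopologicalSpace K] [TopologicalSpace L] {g : K → L}
    (hg : Continuous g)
    (h : ∀ U : Set K, IsOpen U → U.Nonempty → ∃ V : Set L, IsOpen V ∧ V.Nonempty ∧ V ⊆ g '' U) :
    SkeletalMap g := by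
  intro A hA
  rw [IsNowhereDense, ← not_nonempty_iff_eq_empty]
  intro hne
  obtain ⟨V, hV, hVne, hVsub⟩ := h _ isOpen_interior hne
  have h1 : V ⊆ closure A := by
    refine hVsub.trans ?_
    rintro _ ⟨x, hx, rfl⟩
    have h2 : x ∈ closure (g ⁻¹' A) := interior_subset hx
    exact (closure_mono (image_preimage_subset g A)) (image_closure_subset_closure_image hg ⟨x, h2, rfl⟩)
  have h2 : V ⊆ interior (closure A) := interior_maximal h1 hV
  rw [hA] at h2
  exact hVne.ne_empty (subset_empty_iff.1 h2)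

/-- The core of the skeletality of `W`: the image of an open subset of one of the two copies of
`X²` contains a nonempty open set. -/
theorem W_skeletal_core {X Y : Type} [TopologicalSpace X] [TopologicalSpace Y] [T2Space Y]
    {f : X → Y} (hf : IsOpenMap f) (U : Set (WS X)) (hU : IsOpen U) (hne : U.Nonempty) :
    ∃ V : Set (WS Y), IsOpen V ∧ V.Nonempty ∧ V ⊆ WSmap f '' U := by
  obtain ⟨⟨⟨x, y, z⟩, hp⟩, hxyz⟩ := hne
  obtain ⟨O, hO, hOU⟩ := isOpen_induced_iff.1 hU
  have hmem : (x, y, z) ∈ O := by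
    have : (⟨(x, y, z), hp⟩ : WS X) ∈ Subtype.val ⁻¹' O := by rw [hOU]; exact hxyz
    exact this
  obtain ⟨Ox, Oyz, hOx, hOyz, hx, hyz, hsub⟩ := isOpen_prod_iff.1 hO x (y, z) hmem
  obtain ⟨Oy, Oz, hOy, hOz, hy, hz, hsub2⟩ := isOpen_prod_iff.1 hOyz y z hyz
  have hin : ∀ a b c (h : b = a ∨ c = a), a ∈ Ox → b ∈ Oy → c ∈ Oz →
      (⟨(a, b, c), h⟩ : WS X) ∈ U := by
    intro a b c h ha hb hc
    rw [← hOU]
    exact hsub ⟨ha, hsub2 ⟨hb, hc⟩⟩
  rcases hp with hp | hp
  · -- `y = x`
    have hyx : y = x := hp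
    subst hyx
    have hA : IsOpen (f '' (Ox ∩ Oy)) := hf _ (hOx.inter hOy)
    have hB : IsOpen (f '' Oz) := hf _ hOz
    by_cases hsplit : ∃ u ∈ f '' (Ox ∩ Oy), ∃ v ∈ f '' Oz, u ≠ v
    · obtain ⟨u, hu, v, hv, huv⟩ := hsplit
      obtain ⟨U1, V1, hU1, hV1, hu1, hv1, hdisj⟩ := t2_separation huv
      refine ⟨{p : WS Y | p.1.1 ∈ f '' (Ox ∩ Oy) ∩ U1 ∧ p.1.2.2 ∈ f '' Oz ∩ V1}, ?_,
        ⟨⟨(u, u, v), Or.inl rfl⟩, ⟨hu, hu1⟩, ⟨hv, hv1⟩⟩, ?_⟩
      · exact ((hA.inter hU1).preimage (by fun_prop)).inter ((hB.inter hV1).preimage (by fun_prop))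
      · rintro ⟨⟨a, b, c⟩, hp'⟩ ⟨⟨ha, ha1⟩, ⟨hc, hc1⟩⟩
        have hca : c ≠ a := fun h => disjoint_left.1 hdisj ha1 (h ▸ hc1)
        have hba : b = a := by
          rcases hp' with h | h
          · exact h
          · exact absurd h hca
        obtain ⟨a', ⟨ha'1, ha'2⟩, hfa⟩ := ha
        obtain ⟨c', hc', hfc⟩ := hc
        refine ⟨⟨(a', a', c'), Or.inl rfl⟩, hin _ _ _ _ ha'1 ha'2 hc', ?_⟩
        apply Subtype.ext
        change (f a', f a', f c') = (a, b, c)
        change f a' = a at hfa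
        change f c' = c at hfc
        rw [hfa, hfc, hba]
    · push Not at hsplit
      have hxA : f y ∈ f '' (Ox ∩ Oy) := ⟨y, ⟨hx, hy⟩, rfl⟩
      have hzB : f z ∈ f '' Oz := ⟨z, hz, rfl⟩
      refine ⟨{p : WS Y | p.1.1 ∈ f '' (Ox ∩ Oy) ∧ p.1.2.1 ∈ f '' (Ox ∩ Oy) ∧
        p.1.2.2 ∈ f '' (Ox ∩ Oy)}, ?_, ⟨⟨(f y, f y, f y), Or.inl rfl⟩, hxA, hxA, hxA⟩, ?_⟩
      · exact (hA.preimage (by fun_prop)).inter
          ((hA.preimage (by fun_prop)).inter (hA.preimage (by fun_prop)))
      · rintro ⟨⟨a, b, c⟩, hp'⟩ ⟨ha, hb, hc⟩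
        have e1 := hsplit a ha (f z) hzB
        have e2 := hsplit b hb (f z) hzB
        have e3 := hsplit c hc (f z) hzB
        have e4 := hsplit (f y) hxA (f z) hzB
        refine ⟨⟨(y, y, z), Or.inl rfl⟩, hin _ _ _ _ hx hy hz, ?_⟩
        apply Subtype.ext
        change (f y, f y, f z) = (a, b, c)
        rw [show a = f z from e1, show b = f z from e2, show c = f z from e3, e4]
  · -- `z = x`
    have hzx : z = x := hp
    subst hzx
    have hA : IsOpen (f '' (Ox ∩ Oz)) := hf _ (hOx.inter hOz)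
    have hB : IsOpen (f '' Oy) := hf _ hOy
    by_cases hsplit : ∃ u ∈ f '' (Ox ∩ Oz), ∃ v ∈ f '' Oy, u ≠ v
    · obtain ⟨u, hu, v, hv, huv⟩ := hsplit
      obtain ⟨U1, V1, hU1, hV1, hu1, hv1, hdisj⟩ := t2_separation huv
      refine ⟨{p : WS Y | p.1.1 ∈ f '' (Ox ∩ Oz) ∩ U1 ∧ p.1.2.1 ∈ f '' Oy ∩ V1}, ?_,
        ⟨⟨(u, v, u), Or.inr rfl⟩, ⟨hu, hu1⟩, ⟨hv, hv1⟩⟩, ?_⟩
      · exact ((hA.inter hU1).preimage (by fun_prop)).inter ((hB.inter hV1).preimage (by fun_prop))
      · rintro ⟨⟨a, b, c⟩, hp'⟩ ⟨⟨ha, ha1⟩, ⟨hb, hb1⟩⟩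
        have hba : b ≠ a := fun h => disjoint_left.1 hdisj ha1 (h ▸ hb1)
        have hca : c = a := by
          rcases hp' with h | h
          · exact absurd h hba
          · exact h
        obtain ⟨a', ⟨ha'1, ha'2⟩, hfa⟩ := ha
        obtain ⟨b', hb', hfb⟩ := hb
        refine ⟨⟨(a', b', a'), Or.inr rfl⟩, hin _ _ _ _ ha'1 hb' ha'2, ?_⟩
        apply Subtype.ext
        change (f a', f b', f a') = (a, b, c)
        change f a' = a at hfa
        change f b' = b at hfb
        rw [hfa, hfb, hca]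
    · push Not at hsplit
      have hxA : f z ∈ f '' (Ox ∩ Oz) := ⟨z, ⟨hx, hz⟩, rfl⟩
      have hyB : f y ∈ f '' Oy := ⟨y, hy, rfl⟩
      refine ⟨{p : WS Y | p.1.1 ∈ f '' (Ox ∩ Oz) ∧ p.1.2.1 ∈ f '' (Ox ∩ Oz) ∧
        p.1.2.2 ∈ f '' (Ox ∩ Oz)}, ?_, ⟨⟨(f z, f z, f z), Or.inl rfl⟩, hxA, hxA, hxA⟩, ?_⟩
      · exact (hA.preimage (by fun_prop)).inter
          ((hA.preimage (by fun_prop)).inter (hA.preimage (by fun_prop)))
      · rintro ⟨⟨a, b, c⟩, hp'⟩ ⟨ha, hb, hc⟩
        have e1 := hsplit a ha (f y) hyB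
        have e2 := hsplit b hb (f y) hyB
        have e3 := hsplit c hc (f y) hyB
        have e4 := hsplit (f z) hxA (f y) hyB
        refine ⟨⟨(z, y, z), Or.inr rfl⟩, hin _ _ _ _ hx hy hz, ?_⟩
        apply Subtype.ext
        change (f z, f y, f z) = (a, b, c)
        rw [show a = f y from e1, show b = f y from e2, show c = f y from e3, e4]

theorem W_skeletal : SkeletalFunctor W := by
  intro X Y f hf _
  exact skeletalMap_of (g := WSmap f) (continuous_WSmap f.hom.hom.continuous)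
    fun U hU hne => W_skeletal_core hf U hU hne

/-- The bicommutative square of finite spaces showing that `W` is not bicommutative. -/
def sq : Square where
  X' := CompHaus.of (Bool × Bool)
  Y' := CompHaus.of Bool
  X := CompHaus.of Bool
  Y := CompHaus.of PUnit.{1}
  tf := CompHausLike.ofHom _ ⟨Prod.snd, continuous_snd⟩
  f := CompHausLike.ofHom _ ⟨fun _ => PUnit.unit, continuous_const⟩
  pX := CompHausLike.ofHom _ ⟨Prod.fst, continuous_fst⟩
  pY := CompHausLike.ofHom _ ⟨fun _ => PUnit.unit, continuous_const⟩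
  comm := rfl

theorem sq_fin : sq.Fin := by
  refine ⟨?_, ?_, ?_, ?_⟩
  · change Finite (Bool × Bool); infer_instance
  · change Finite Bool; infer_instance
  · change Finite Bool; infer_instance
  · change Finite PUnit; infer_instance

theorem sq_surj : sq.Surj :=
  ⟨fun b => ⟨(b, b), rfl⟩, fun _ => ⟨true, rfl⟩, fun b => ⟨(b, b), rfl⟩, fun _ => ⟨true, rfl⟩⟩

theorem sq_bicomm : sq.Bicommutative := by
  intro x
  apply Subset.antisymm
  · intro _ _
    rfl
  · intro b _
    exact ⟨(x, b), rfl, rfl⟩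

theorem sq_skeletal : sq.IsSkeletal := by
  intro x U hU
  refine ⟨univ, isOpen_univ, ⟨PUnit.unit, trivial⟩, fun _ _ => ⟨x, mem_of_mem_nhds hU, rfl⟩, ?_⟩
  intro b _
  exact ⟨(x, b), (show x ∈ U from mem_of_mem_nhds hU), rfl⟩

theorem sq_key (b : WS (Bool × Bool)) (h1 : WSmap Prod.fst b = ⟨(false, true, false), Or.inr rfl⟩)
    (h2 : WSmap Prod.snd b = ⟨(false, false, true), Or.inl rfl⟩) : False := by
  have e1 := congrArg Subtype.val h1
  have e2 := congrArg Subtype.val h2
  simp only [WSmap, Prod.mk.injEq] at e1 e2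
  obtain ⟨a1, a2, a3⟩ := e1
  obtain ⟨b1, b2, b3⟩ := e2
  rcases b.2 with h | h
  · rw [h, a1] at a2
    exact absurd a2 (by decide)
  · rw [h, b1] at b3
    exact absurd b3 (by decide)

theorem W_not_bicomm : ¬ (sq.map W).Bicommutative := by
  intro h
  have h1 := h (⟨(false, true, false), Or.inr rfl⟩ : WS Bool)
  have h2 : (⟨(false, false, true), Or.inl rfl⟩ : WS Bool) ∈
      WSmap sq.pY ⁻¹' {WSmap sq.f (⟨(false, true, false), Or.inr rfl⟩ : WS Bool)} := rfl
  have h3 : (⟨(false, false, true), Or.inl rfl⟩ : WS Bool) ∈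
      WSmap sq.tf '' (WSmap sq.pX ⁻¹' {(⟨(false, true, false), Or.inr rfl⟩ : WS Bool)}) := by
    have h1' : WSmap sq.tf '' (WSmap sq.pX ⁻¹' {(⟨(false, true, false), Or.inr rfl⟩ : WS Bool)}) =
      WSmap sq.pY ⁻¹' {WSmap sq.f (⟨(false, true, false), Or.inr rfl⟩ : WS Bool)} := h1
    rw [h1']
    exact h2
  obtain ⟨b, hb1, hb2⟩ := h3
  exact sq_key b hb1 hb2

theorem W_not_square : ¬ (sq.map W).IsSkeletal := by
  intro h
  obtain ⟨V, -, ⟨v, hv⟩, -, hV⟩ := h (⟨(false, true, false), Or.inr rfl⟩ : WS Bool)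
    {(⟨(false, true, false), Or.inr rfl⟩ : WS Bool)}
    (by
      have : IsOpen ({(⟨(false, true, false), Or.inr rfl⟩ : WS Bool)} : Set (WS Bool)) :=
        isOpen_discrete _
      exact this.mem_nhds rfl)
  have h2 : WSmap sq.pY (⟨(false, false, true), Or.inl rfl⟩ : WS Bool) ∈ V := by
    have : WSmap sq.pY (⟨(false, false, true), Or.inl rfl⟩ : WS Bool) = v := by
      apply Subtype.ext
      rfl
    rw [this]
    exact hv
  obtain ⟨b, hb1, hb2⟩ := hV h2
  exact sq_key b hb1 hb2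

/-- `W` is not open. -/
theorem W_not_open : ¬ OpenFunctor W := by
  intro h
  let T : CompHaus.{0} := CompHaus.of (OnePoint ℕ)
  let X : CompHaus.{0} := CompHaus.of (OnePoint ℕ × Bool)
  let f : X ⟶ T := CompHausLike.ofHom _ ⟨Prod.fst, continuous_fst⟩
  have hop : IsOpenMap (WSmap (Prod.fst : OnePoint ℕ × Bool → OnePoint ℕ)) :=
    h X T f isOpenMap_fst (fun t => ⟨(t, true), rfl⟩)
  let U : Set (WS (OnePoint ℕ × Bool)) := {p | p.1.1.2 = true ∧ p.1.2.1.2 = false}
  have hU : IsOpen U := by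
    have h1 : IsOpen {p : WS (OnePoint ℕ × Bool) | p.1.1.2 = true} :=
      (isOpen_discrete ({true} : Set Bool)).preimage (by fun_prop : Continuous
        fun p : WS (OnePoint ℕ × Bool) => p.1.1.2)
    have h2 : IsOpen {p : WS (OnePoint ℕ × Bool) | p.1.2.1.2 = false} :=
      (isOpen_discrete ({false} : Set Bool)).preimage (by fun_prop : Continuous
        fun p : WS (OnePoint ℕ × Bool) => p.1.2.1.2)
    exact h1.inter h2
  have hV := hop U hU
  have hmem : (⟨(OnePoint.infty, OnePoint.infty, OnePoint.infty), Or.inl rfl⟩ :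
      WS (OnePoint ℕ)) ∈ WSmap (Prod.fst : OnePoint ℕ × Bool → OnePoint ℕ) '' U := by
    refine ⟨⟨((OnePoint.infty, true), (OnePoint.infty, false), (OnePoint.infty, true)),
      Or.inr rfl⟩, ⟨rfl, rfl⟩, rfl⟩
  -- the sequence `(∞, ∞, n)` converges to `(∞, ∞, ∞)`
  have hlim : Filter.Tendsto (fun n : ℕ => (⟨(OnePoint.infty, OnePoint.infty, (n : OnePoint ℕ)),
      Or.inl rfl⟩ : WS (OnePoint ℕ))) Filter.atTop
      (𝓝 ⟨(OnePoint.infty, OnePoint.infty, OnePoint.infty), Or.inl rfl⟩) := by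
    rw [tendsto_subtype_rng]
    refine Filter.Tendsto.prodMk_nhds tendsto_const_nhds
      (Filter.Tendsto.prodMk_nhds tendsto_const_nhds ?_)
    have := OnePoint.tendsto_coe_infty (X := ℕ)
    rwa [Filter.coclosedCompact_eq_cocompact, Filter.cocompact_eq_cofinite,
      Nat.cofinite_eq_atTop] at this
  have hev := hlim.eventually (hV.mem_nhds hmem)
  obtain ⟨n, hn⟩ := hev.exists
  obtain ⟨⟨⟨⟨x, i⟩, ⟨y, j⟩, ⟨z, k⟩⟩, hp⟩, ⟨hi, hj⟩, hb⟩ := hn
  have e := congrArg Subtype.val hb
  simp only [WSmap, Prod.mk.injEq] at e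
  obtain ⟨e1, e2, e3⟩ := e
  change i = true at hi
  change j = false at hj
  rcases hp with h | h
  · have := congrArg Prod.snd (show ((y, j) : OnePoint ℕ × Bool) = (x, i) from h)
    simp only [hi, hj] at this
    exact absurd this (by decide)
  · have := congrArg Prod.fst (show ((z, k) : OnePoint ℕ × Bool) = (x, i) from h)
    simp only at this
    rw [this, e1] at e3
    exact OnePoint.infty_ne_coe n e3

end Q149.Fun

namespace Q149.Fun

open CategoryTheory CategoryTheory.Limits Topology Set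

/-- `W` preserves the weight of infinite compacta. -/
theorem W_weight_eq (X : CompHaus.{0}) (hX : Infinite X) : weight (W.obj X) = weight X := by
  refine le_antisymm (W_weight X hX) ?_
  obtain ⟨B, hB, hBw⟩ := exists_basis_weight (W.obj X)
  let δ : X → WS X := fun x => ⟨(x, x, x), Or.inl rfl⟩
  have hδ : IsInducing δ := by
    have hc : Continuous δ := by fun_prop
    have hi : Function.Injective δ := fun x y h => congrArg (fun q : WS X => q.1.1) h
    exact (hc.isClosedEmbedding hi).isInducing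
  have h1 : TopologicalSpace.IsTopologicalBasis (preimage δ '' B) := hB.isInducing hδ
  rw [← hBw]
  exact (weight_le h1).trans Cardinal.mk_image_le

end Q149.Fun
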