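import Pool.Agent.Q149.Thr
import Pool.Agent.Q149.Wedge

/-!
Every normal functor that is finitely square-skeletal is skeletal.
-/

open CategoryTheory CategoryTheory.Limits Topology Set

namespace Q149.Fun

theorem cnhd {K : Type} [TopologicalSpace K] [CompactSpace K] [T2Space K] {x : K} {N : Set K}
    (h : N ∈ 𝓝 x) : ∃ t ∈ 𝓝 x, IsClosed t ∧ t ⊆ N := exists_mem_nhds_isClosed_subset h

theorem discrete_of_finite {K : Type} [TopologicalSpace K] [T2Space K] (h : Finite K) :
    DiscreteTopology K := inferInstance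

theorem zorn_aux {K D : Type} [TopologicalSpace K] [T2Space K] [TopologicalSpace D]
    [CompactSpace D] {g : D → K} (hg : Continuous g) (hgs : Function.Surjective g) :
    ∃ E : Set D, CompactSpace E ∧ g '' E = univ ∧
      ∀ E₀ : Set E, E₀ ≠ univ → IsClosed E₀ → E.domRestrict g '' E₀ ≠ univ :=
  exists_compact_surjective_zorn_subset hg hgs

/-- Irreducible zero-dimensional covers. -/
theorem exists_cover (X : CompHaus.{0}) : ∃ (Z : CompHaus.{0}) (π : Z ⟶ X),
    TotallyDisconnectedSpace Z ∧ Function.Surjective π ∧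
      ∀ O : Set Z, IsOpen O → O.Nonempty →
        ∃ V : Set X, IsOpen V ∧ V.Nonempty ∧ π ⁻¹' V ⊆ O := by
  have hC : CompactSpace X := X.is_compact
  have hT : T2Space X := X.is_hausdorff
  let g : Ultrafilter X → X := Ultrafilter.extend id
  have hg : Continuous g := continuous_ultrafilter_extend id
  have hgs : Function.Surjective g := by
    intro x
    refine ⟨pure x, ?_⟩
    exact congrFun (ultrafilter_extend_extends (id : X → X)) x
  obtain ⟨E, hE, hEs, hEmin⟩ := zorn_aux hg hgs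
  have hc : Continuous (fun e : E => g e.1) := hg.comp continuous_subtype_val
  refine ⟨CompHaus.of E, CompHausLike.ofHom _ ⟨fun e : E => g e.1, hc⟩, ?_, ?_, ?_⟩
  · change TotallyDisconnectedSpace E
    infer_instance
  · intro x
    have : x ∈ g '' E := by rw [hEs]; trivial
    obtain ⟨e, he, hx⟩ := this
    exact ⟨⟨e, he⟩, hx⟩
  · intro O hO hne
    change Set E at O
    have hne' : Oᶜ ≠ univ := by
      intro h
      rw [compl_univ_iff] at h
      exact hne.ne_empty h
    have h1 := hEmin Oᶜ hne' hO.isClosed_compl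
    have h2 : IsClosed ((fun e : E => g e.1) '' Oᶜ) :=
      (hO.isClosed_compl.isCompact.image hc).isClosed
    refine ⟨((fun e : E => g e.1) '' Oᶜ)ᶜ, h2.isOpen_compl, ?_, ?_⟩
    · rw [nonempty_compl]
      exact h1
    · intro e he
      by_contra hcon
      exact he ⟨e, hcon, rfl⟩

section dq
variable {Z : CompHaus.{0}}

/-- A discrete quotient as a compactum. -/
def dq (S : DiscreteQuotient Z) : CompHaus.{0} := CompHaus.of S

instance (S : DiscreteQuotient Z) : DiscreteTopology (dq S) :=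
  inferInstanceAs (DiscreteTopology S)

instance (S : DiscreteQuotient Z) : Finite (dq S) := inferInstanceAs (Finite S)

/-- The projection onto a discrete quotient. -/
def dproj (S : DiscreteQuotient Z) : Z ⟶ dq S :=
  CompHausLike.ofHom _ (⟨S.proj, S.proj_continuous⟩ : C(Z, S))

theorem dproj_surjective (S : DiscreteQuotient Z) : Function.Surjective (dproj S) :=
  S.proj_surjective

/-- The map between discrete quotients. -/
def dle {A B : DiscreteQuotient Z} (h : A ≤ B) : dq A ⟶ dq B :=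
  CompHausLike.ofHom _ (⟨DiscreteQuotient.ofLE h, DiscreteQuotient.ofLE_continuous h⟩ : C(A, B))

theorem dproj_dle {A B : DiscreteQuotient Z} (h : A ≤ B) : dproj A ≫ dle h = dproj B :=
  hom_ext' fun z => DiscreteQuotient.ofLE_proj h z

theorem dle_surjective {A B : DiscreteQuotient Z} (h : A ≤ B) : Function.Surjective (dle h) := by
  intro b
  obtain ⟨z, hz⟩ := dproj_surjective B b
  refine ⟨dproj A z, ?_⟩
  rw [← comp_app, dproj_dle, hz]

variable (Z) in
/-- The spectrum of the discrete quotients. -/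
def DD : (DiscreteQuotient Z)ᵒᵈᵒᵖ ⥤ CompHaus.{0} where
  obj j := dq (OrderDual.ofDual j.unop)
  map {i j} φ := dle (A := OrderDual.ofDual i.unop) (B := OrderDual.ofDual j.unop)
    (leOfHom φ.unop)
  map_id j := hom_ext' fun a => DiscreteQuotient.ofLE_refl_apply a
  map_comp {i j k} φ ψ := hom_ext' fun a =>
    (DiscreteQuotient.ofLE_ofLE (leOfHom φ.unop : OrderDual.ofDual i.unop ≤ OrderDual.ofDual j.unop)
      (leOfHom ψ.unop : OrderDual.ofDual j.unop ≤ OrderDual.ofDual k.unop) a).symm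

variable (Z) in
/-- The cone over the spectrum of the discrete quotients. -/
def DC : Cone (DD Z) where
  pt := Z
  π := { app := fun j => dproj (OrderDual.ofDual j.unop)
         naturality := fun i j φ => hom_ext' fun z =>
          (DiscreteQuotient.ofLE_proj (A := OrderDual.ofDual i.unop)
            (B := OrderDual.ofDual j.unop) (leOfHom φ.unop) z).symm }

theorem DC_isLimit (hZ : TotallyDisconnectedSpace Z) : Nonempty (IsLimit (DC Z)) := by
  have hC : CompactSpace Z := Z.is_compact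
  have hT : T2Space Z := Z.is_hausdorff
  apply isLimit_of
  · intro a b hab
    exact DiscreteQuotient.eq_of_forall_proj_eq (X := Z)
      (fun Q => hab (Opposite.op (OrderDual.toDual Q)))
  · intro z hz
    obtain ⟨x, hx⟩ := DiscreteQuotient.exists_of_compat
      (fun Q => (z (Opposite.op (OrderDual.toDual Q)) : Q)) (fun A B h => by
        exact hz (Opposite.op (OrderDual.toDual A)) (Opposite.op (OrderDual.toDual B))
          (homOfLE (show OrderDual.toDual B ≤ OrderDual.toDual A from h)).op)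
    exact ⟨x, fun j => hx _⟩

instance : IsDirectedOrder (DiscreteQuotient Z)ᵒᵈ :=
  ⟨fun a b => ⟨OrderDual.toDual (OrderDual.ofDual a ⊓ OrderDual.ofDual b),
    (inf_le_left : OrderDual.ofDual a ⊓ OrderDual.ofDual b ≤ OrderDual.ofDual a),
    (inf_le_right : OrderDual.ofDual a ⊓ OrderDual.ofDual b ≤ OrderDual.ofDual b)⟩⟩

variable {F : CompFunctor}

theorem F_limit (hF : IsCont F) (hZ : TotallyDisconnectedSpace Z) :
    Nonempty (IsLimit (F.mapCone (DC Z))) := by
  obtain ⟨hc⟩ := DC_isLimit hZ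
  haveI : Nonempty (DiscreteQuotient Z)ᵒᵈ := ⟨OrderDual.toDual ⊤⟩
  haveI := hF (DiscreteQuotient Z)ᵒᵈ (DD Z)
  exact PreservesLimit.preserves hc

/-- Points of `F Z` are separated by the finite quotients of `Z`. -/
theorem F_ext (hF : IsCont F) (hZ : TotallyDisconnectedSpace Z) {a b : F.obj Z}
    (h : ∀ S : DiscreteQuotient Z, F.map (dproj S) a = F.map (dproj S) b) : a = b := by
  obtain ⟨hc⟩ := F_limit hF hZ
  exact limit_ext (D := DD Z ⋙ F) (c := F.mapCone (DC Z)) hc
    (fun j => h (OrderDual.ofDual j.unop))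

/-- Basic open sets of `F Z` come from finite quotients of `Z`. -/
theorem zdim (hF : IsCont F) (hZ : TotallyDisconnectedSpace Z) (O : Set (F.obj Z))
    (hO : IsOpen O) (b : F.obj Z) (hb : b ∈ O) : ∃ (S : DiscreteQuotient Z)
      (N : Set (F.obj (dq S))), IsOpen N ∧ F.map (dproj S) b ∈ N ∧
        ∀ z, F.map (dproj S) z ∈ N → z ∈ O := by
  have hC : CompactSpace (F.obj Z) := (F.obj Z).is_compact
  have key : ∃ S : DiscreteQuotient Z, F.map (dproj S) b ∉ F.map (dproj S) '' Oᶜ := by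
    by_contra hall
    push Not at hall
    let B : DiscreteQuotient Z → Set (F.obj Z) := fun S =>
      {c | c ∈ Oᶜ ∧ F.map (dproj S) c = F.map (dproj S) b}
    have hne : ∀ S, (B S).Nonempty := by
      intro S
      obtain ⟨c, hc, hcb⟩ := hall S
      exact ⟨c, hc, hcb⟩
    have hcl : ∀ S, IsClosed (B S) := by
      intro S
      have hT : T2Space (F.obj (dq S)) := (F.obj (dq S)).is_hausdorff
      exact hO.isClosed_compl.inter
        (isClosed_eq (F.map (dproj S)).hom.hom.continuous continuous_const)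
    have hmono : ∀ S S' : DiscreteQuotient Z, S ≤ S' → B S ⊆ B S' := by
      rintro S S' h c ⟨hc, hcb⟩
      refine ⟨hc, ?_⟩
      rw [← dproj_dle h, map_comp_app, map_comp_app, hcb]
    have hdir : Directed (· ⊇ ·) B := fun S S' =>
      ⟨S ⊓ S', hmono _ _ inf_le_left, hmono _ _ inf_le_right⟩
    obtain ⟨c, hc⟩ := IsCompact.nonempty_iInter_of_directed_nonempty_isCompact_isClosed B hdir hne
      (fun j => (hcl j).isCompact) hcl
    rw [mem_iInter] at hc
    have : c = b := F_ext hF hZ fun S => (hc S).2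
    rw [this] at hc
    exact (hc ⊤).1 hb
  obtain ⟨S, hS⟩ := key
  have hT : T2Space (F.obj (dq S)) := (F.obj (dq S)).is_hausdorff
  refine ⟨S, (F.map (dproj S) '' Oᶜ)ᶜ, ?_, hS, ?_⟩
  · exact (hO.isClosed_compl.isCompact.image (F.map (dproj S)).hom.hom.continuous).isClosed.isOpen_compl
  · intro z hz
    by_contra hcon
    exact hz ⟨z, hcon, rfl⟩

end dq

section pb
variable {A B C : CompHaus.{0}}

theorem isClosed_pb (f : A ⟶ C) (g : B ⟶ C) : IsClosed {p : A × B | f p.1 = g p.2} := by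
  have hT : T2Space C := C.is_hausdorff
  exact isClosed_eq (f.hom.hom.continuous.comp continuous_fst)
    (g.hom.hom.continuous.comp continuous_snd)

instance (f : A ⟶ C) (g : B ⟶ C) : CompactSpace {p : A × B // f p.1 = g p.2} :=
  isCompact_iff_compactSpace.1 (isClosed_pb f g).isCompact

/-- The pullback. -/
def pb (f : A ⟶ C) (g : B ⟶ C) : CompHaus.{0} := CompHaus.of {p : A × B // f p.1 = g p.2}

/-- The first projection of the pullback. -/
def pb1 (f : A ⟶ C) (g : B ⟶ C) : pb f g ⟶ A :=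
  CompHausLike.ofHom _ (⟨fun p => p.1.1, by fun_prop⟩ : C({p : A × B // f p.1 = g p.2}, A))

/-- The second projection of the pullback. -/
def pb2 (f : A ⟶ C) (g : B ⟶ C) : pb f g ⟶ B :=
  CompHausLike.ofHom _ (⟨fun p => p.1.2, by fun_prop⟩ : C({p : A × B // f p.1 = g p.2}, B))

/-- A point of the pullback. -/
def pbmk (f : A ⟶ C) (g : B ⟶ C) (a : A) (b : B) (h : f a = g b) : pb f g := ⟨(a, b), h⟩

/-- The universal map into the pullback. -/
def pblift {T : CompHaus.{0}} (f : A ⟶ C) (g : B ⟶ C) (a : T ⟶ A) (b : T ⟶ B)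
    (h : ∀ t, f (a t) = g (b t)) : T ⟶ pb f g :=
  CompHausLike.ofHom _ (⟨fun t => ⟨(a t, b t), h t⟩,
    (a.hom.hom.continuous.prodMk b.hom.hom.continuous).subtype_mk _⟩ :
      C(T, {p : A × B // f p.1 = g p.2}))

/-- Maps into a closed subspace of a product. -/
def pairlift {T : CompHaus.{0}} (a : T ⟶ A) (b : T ⟶ B) (P : A × B → Prop)
    [CompactSpace {r : A × B // P r}] (h : ∀ t, P (a t, b t)) :
    T ⟶ CompHaus.of {r : A × B // P r} :=
  CompHausLike.ofHom _ (⟨fun t => ⟨(a t, b t), h t⟩,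
    (a.hom.hom.continuous.prodMk b.hom.hom.continuous).subtype_mk _⟩ :
      C(T, {r : A × B // P r}))

theorem pblift_pb1 {T : CompHaus.{0}} (f : A ⟶ C) (g : B ⟶ C) (a : T ⟶ A) (b : T ⟶ B)
    (h : ∀ t, f (a t) = g (b t)) : pblift f g a b h ≫ pb1 f g = a := rfl

theorem pblift_pb2 {T : CompHaus.{0}} (f : A ⟶ C) (g : B ⟶ C) (a : T ⟶ A) (b : T ⟶ B)
    (h : ∀ t, f (a t) = g (b t)) : pblift f g a b h ≫ pb2 f g = b := rfl

theorem pb1_mk (f : A ⟶ C) (g : B ⟶ C) (a : A) (b : B) (h : f a = g b) :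
    pb1 f g (pbmk f g a b h) = a := rfl

theorem pb2_mk (f : A ⟶ C) (g : B ⟶ C) (a : A) (b : B) (h : f a = g b) :
    pb2 f g (pbmk f g a b h) = b := rfl

theorem pb_cond (f : A ⟶ C) (g : B ⟶ C) (p : pb f g) : f (pb1 f g p) = g (pb2 f g p) := p.2

theorem pb_ext (f : A ⟶ C) (g : B ⟶ C) {p q : pb f g} (h1 : pb1 f g p = pb1 f g q)
    (h2 : pb2 f g p = pb2 f g q) : p = q := Subtype.ext (Prod.ext h1 h2)

/-- The pullback square: `pb f g → A` over `g : B → C`, with the vertical maps `pb2` and `f`. -/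
def pbSq (f : A ⟶ C) (g : B ⟶ C) : Square where
  X' := pb f g
  Y' := A
  X := B
  Y := C
  tf := pb1 f g
  f := g
  pX := pb2 f g
  pY := f
  comm := hom_ext' fun p => (pb_cond f g p).symm

theorem pbSq_bicomm (f : A ⟶ C) (g : B ⟶ C) : (pbSq f g).Bicommutative := by
  intro x
  apply Subset.antisymm
  · rintro _ ⟨p, hp, rfl⟩
    have hp' : pb2 f g p = x := hp
    show f (pb1 f g p) = g x
    rw [pb_cond, hp']
  · intro a ha
    exact ⟨pbmk f g a x ha, rfl, rfl⟩

/-- Preservation of preimages, applied to a pullback square. -/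
theorem preimage_lift {F : CompFunctor} (hF : PreservesPreimages F) (f : A ⟶ C) (g : B ⟶ C)
    (hg : Function.Injective g) (a : F.obj A) (b : F.obj B) (hab : F.map f a = F.map g b) :
    ∃ s : F.obj (pb f g), F.map (pb1 f g) s = a ∧ F.map (pb2 f g) s = b := by
  have h1 := hF (pbSq f g) hg (by
    intro p q hpq
    refine pb_ext f g hpq (hg ?_)
    rw [← pb_cond, ← pb_cond]
    exact congrArg f hpq) (pbSq_bicomm f g) b
  have h2 : a ∈ ((pbSq f g).map F).pY ⁻¹' {((pbSq f g).map F).f b} := hab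
  rw [← h1] at h2
  obtain ⟨s, hs1, hs2⟩ := h2
  exact ⟨s, hs2, hs1⟩

end pb

section main
variable {F : CompFunctor}

/-- For a finitely square-skeletal functor `F` and a surjection `g` between finite spaces, `F g`
maps open sets onto sets with nonempty interior. -/
theorem finSkel (hsq : FinSquareSkeletal F) {A B : CompHaus.{0}} (hA : Finite A) (hB : Finite B)
    (g : A ⟶ B) (hg : Function.Surjective g) (O : Set (F.obj A)) (hO : IsOpen O)
    (hne : O.Nonempty) : ∃ V : Set (F.obj B), IsOpen V ∧ V.Nonempty ∧ V ⊆ F.map g '' O := by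
  obtain ⟨a, ha⟩ := hne
  have hBT : T2Space B := B.is_hausdorff
  have hBd : DiscreteTopology B := discrete_of_finite hB
  let D : Square :=
    { X' := A, Y' := B, X := A, Y := B, tf := g, f := g, pX := 𝟙 A, pY := 𝟙 B
      comm := by rw [Category.id_comp, Category.comp_id] }
  have hD : D.IsSkeletal := by
    intro x U hU
    refine ⟨{g x}, @isOpen_discrete B _ hBd _, ⟨g x, rfl⟩, ?_, ?_⟩
    · rintro _ rfl
      exact ⟨x, mem_of_mem_nhds hU, rfl⟩
    · intro b hb
      have hb' : b = g x := hb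
      exact ⟨x, (show x ∈ U from mem_of_mem_nhds hU), hb'.symm⟩
  obtain ⟨V, hV, hVne, hVs, -⟩ := hsq D ⟨hA, hB, hA, hB⟩
    ⟨hg, hg, Function.surjective_id, Function.surjective_id⟩ hD a O (hO.mem_nhds ha)
  exact ⟨V, hV, hVne, hVs⟩

/-- The key finite step. -/
theorem fin_step (hsq : FinSquareSkeletal F) {L L' Q : CompHaus.{0}} (hL : Finite L)
    (hL' : Finite L') (hQ : Finite Q) (lam : L' ⟶ L) (hlam : Function.Surjective lam)
    (h : Q ⟶ L) (hh : Function.Surjective h) (N : Set (F.obj Q)) (hN : IsClosed N)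
    (V : Set (F.obj L)) (hV : IsOpen V) (hVN : V ⊆ F.map h '' interior N)
    (e : F.obj L') (he : F.map lam e ∈ V) :
    ∃ t : F.obj (pb lam h), F.map (pb1 lam h) t = e ∧ F.map (pb2 lam h) t ∈ N := by
  by_contra hcon
  push Not at hcon
  have hT : T2Space (F.obj L') := (F.obj L').is_hausdorff
  have hLT : T2Space L := L.is_hausdorff
  have hLd : DiscreteTopology L := discrete_of_finite hL
  have hcomp : CompactSpace (F.obj (pb lam h)) := (F.obj (pb lam h)).is_compact
  let E : Set (F.obj L') := F.map (pb1 lam h) '' (F.map (pb2 lam h) ⁻¹' N)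
  have hE : IsClosed E :=
    ((hN.preimage (F.map (pb2 lam h)).hom.hom.continuous).isCompact.image
      (F.map (pb1 lam h)).hom.hom.continuous).isClosed
  have heE : e ∉ E := by
    rintro ⟨t, ht, hte⟩
    exact hcon t hte ht
  have hO : IsOpen (F.map lam ⁻¹' V ∩ Eᶜ) :=
    (hV.preimage (F.map lam).hom.hom.continuous).inter hE.isOpen_compl
  obtain ⟨V', hV', ⟨c, hc⟩, hVs'⟩ := finSkel hsq hL' hL lam hlam _ hO ⟨e, he, heE⟩
  obtain ⟨e1, ⟨he1, -⟩, hce⟩ := hVs' hc
  have hcV : c ∈ V := by rw [← hce]; exact he1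
  obtain ⟨n, hn, hnc⟩ := hVN hcV
  let D : Square := pbSq lam h
  have hfpb : Finite (pb lam h) := by
    change Finite {p : L' × Q // lam p.1 = h p.2}
    infer_instance
  have hDfin : D.Fin := ⟨hfpb, hL', hQ, hL⟩
  have hDs : D.Surj := by
    refine ⟨?_, hh, ?_, hlam⟩
    · intro a
      obtain ⟨b, hb⟩ := hh (lam a)
      exact ⟨pbmk lam h a b hb.symm, rfl⟩
    · intro b
      obtain ⟨a, ha⟩ := hlam (h b)
      exact ⟨pbmk lam h a b ha, rfl⟩
  have hDsk : D.IsSkeletal := by
    intro x U hU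
    refine ⟨{h x}, @isOpen_discrete L _ hLd _, ⟨h x, rfl⟩, ?_, ?_⟩
    · rintro _ rfl
      exact ⟨x, mem_of_mem_nhds hU, rfl⟩
    · intro a ha
      exact ⟨pbmk lam h a x ha, (show x ∈ U from mem_of_mem_nhds hU), rfl⟩
  have hU : interior N ∩ F.map h ⁻¹' V' ∈ 𝓝 n := by
    refine (isOpen_interior.inter (hV'.preimage (F.map h).hom.hom.continuous)).mem_nhds
      ⟨hn, ?_⟩
    show F.map h n ∈ V'
    rw [hnc]; exact hc
  obtain ⟨V'', hV'', ⟨c'', hc''⟩, hs1, hs2⟩ := hsq D hDfin hDs hDsk n _ hU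
  have hc''V' : c'' ∈ V' := by
    obtain ⟨u, ⟨-, hu⟩, huc⟩ := hs1 hc''
    rw [← huc]; exact hu
  obtain ⟨e2, ⟨-, he2⟩, he2c⟩ := hVs' hc''V'
  have he2V : e2 ∈ F.map lam ⁻¹' V'' := by
    show F.map lam e2 ∈ V''
    rw [he2c]; exact hc''
  obtain ⟨t, ht, hte⟩ := hs2 he2V
  have ht1 : F.map (pb2 lam h) t ∈ interior N := ht.1
  have ht2 : F.map (pb2 lam h) t ∈ N := interior_subset ht1
  exact he2 ⟨t, ht2, hte⟩

/-- The zero-dimensional step. -/
theorem zdim_step (hcont : IsCont F) (hepi : Epimorphic F) (hsq : FinSquareSkeletal F)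
    {Y : CompHaus.{0}} (hY : TotallyDisconnectedSpace Y) (L : DiscreteQuotient Y)
    {Q : CompHaus.{0}} (hQ : Finite Q) (h : Q ⟶ dq L) (hh : Function.Surjective h)
    (N : Set (F.obj Q)) (hN : IsOpen N) (hNne : N.Nonempty) :
    ∃ O : Set (F.obj Y), IsOpen O ∧ O.Nonempty ∧ ∀ e ∈ O, ∃ t : F.obj (pb (dproj L) h),
      F.map (pb1 (dproj L) h) t = e ∧ F.map (pb2 (dproj L) h) t ∈ N := by
  obtain ⟨n0, hn0⟩ := hNne
  have hQT : T2Space (F.obj Q) := (F.obj Q).is_hausdorff
  have hQC : CompactSpace (F.obj Q) := (F.obj Q).is_compact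
  obtain ⟨N1, hN1, hN1c, hN1s⟩ := cnhd (hN.mem_nhds hn0)
  obtain ⟨V, hV, ⟨v, hv⟩, hVs⟩ := finSkel hsq hQ (inferInstance : Finite (dq L)) h hh
    (interior N1) isOpen_interior ⟨n0, mem_interior_iff_mem_nhds.2 hN1⟩
  refine ⟨F.map (dproj L) ⁻¹' V, hV.preimage (F.map (dproj L)).hom.hom.continuous, ?_, ?_⟩
  · obtain ⟨e, he⟩ := hepi _ _ (dproj L) (dproj_surjective L) v
    exact ⟨e, (show F.map (dproj L) e ∈ V by rw [he]; exact hv)⟩
  · intro e he
    let K := {L' : DiscreteQuotient Y // L' ≤ L}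
    haveI : Nonempty K := ⟨⟨L, le_rfl⟩⟩
    let B : K → Set (F.obj (pb (dproj L) h)) := fun L' =>
      {t | F.map (dproj L'.1) (F.map (pb1 (dproj L) h) t) = F.map (dproj L'.1) e ∧
        F.map (pb2 (dproj L) h) t ∈ N1}
    have hcomp : CompactSpace (F.obj (pb (dproj L) h)) := (F.obj (pb (dproj L) h)).is_compact
    have hne : ∀ k, (B k).Nonempty := by
      rintro ⟨L', hL'⟩
      obtain ⟨t0, ht0, ht0'⟩ := fin_step hsq (inferInstance : Finite (dq L))
        (inferInstance : Finite (dq L')) hQ (dle hL') (dle_surjective hL') h hh N1 hN1c V hV hVs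
        (F.map (dproj L') e) (by rw [← map_comp_app, dproj_dle]; exact he)
      let r : pb (dproj L) h ⟶ pb (dle hL') h := CompHausLike.ofHom _
        (⟨fun p => ⟨(dproj L' p.1.1, p.1.2), by
            rw [← p.2, ← comp_app, dproj_dle]⟩, by
          have := (dproj L').hom.hom.continuous
          exact Continuous.subtype_mk ((this.comp (by fun_prop)).prodMk (by fun_prop)) _⟩ :
          C({p : Y × Q // dproj L p.1 = h p.2}, {p : dq L' × Q // dle hL' p.1 = h p.2}))
      have hr : Function.Surjective r := by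
        intro p
        obtain ⟨y, hy⟩ := dproj_surjective L' (pb1 (dle hL') h p)
        refine ⟨pbmk (dproj L) h y (pb2 (dle hL') h p) ?_, ?_⟩
        · rw [← pb_cond, ← hy, ← comp_app, dproj_dle]
        · exact pb_ext (dle hL') h hy rfl
      obtain ⟨t, ht⟩ := hepi _ _ r hr t0
      refine ⟨t, ?_, ?_⟩
      · rw [← ht0, ← ht, ← map_comp_app, ← map_comp_app]
        rfl
      · rw [← ht, ← map_comp_app] at ht0'
        exact ht0'
    have hcl : ∀ k, IsClosed (B k) := by
      intro k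
      have hT : T2Space (F.obj (dq k.1)) := (F.obj (dq k.1)).is_hausdorff
      exact (isClosed_eq ((F.map (dproj k.1)).hom.hom.continuous.comp
        (F.map (pb1 (dproj L) h)).hom.hom.continuous) continuous_const).inter
          (hN1c.preimage (F.map (pb2 (dproj L) h)).hom.hom.continuous)
    have hmono : ∀ k k' : K, k.1 ≤ k'.1 → B k ⊆ B k' := by
      rintro k k' hk t ⟨ht1, ht2⟩
      refine ⟨?_, ht2⟩
      rw [← dproj_dle hk, map_comp_app, map_comp_app, ht1]
    have hdir : Directed (· ⊇ ·) B := fun k k' =>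
      ⟨⟨k.1 ⊓ k'.1, inf_le_left.trans k.2⟩, hmono _ _ inf_le_left, hmono _ _ inf_le_right⟩
    obtain ⟨t, ht⟩ := IsCompact.nonempty_iInter_of_directed_nonempty_isCompact_isClosed B hdir hne
      (fun j => (hcl j).isCompact) hcl
    rw [mem_iInter] at ht
    refine ⟨t, ?_, hN1s (ht ⟨L, le_rfl⟩).2⟩
    apply F_ext hcont hY
    intro S
    have h1 := (ht ⟨S ⊓ L, inf_le_right⟩).1
    have h2 : S ⊓ L ≤ S := inf_le_left
    rw [← dproj_dle h2, map_comp_app, map_comp_app, h1]

/-- `F p` maps open sets onto sets with nonempty interior for irreducible maps `p` from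
zero-dimensional compacta. -/
theorem irr_step (hcont : IsCont F) (hepi : Epimorphic F) (hpre : PreservesPreimages F)
    {Z Y : CompHaus.{0}} (hZ : TotallyDisconnectedSpace Z) (p : Z ⟶ Y)
    (hp : Function.Surjective p)
    (hirr : ∀ O : Set Z, IsOpen O → O.Nonempty → ∃ V : Set Y, IsOpen V ∧ V.Nonempty ∧ p ⁻¹' V ⊆ O)
    (O : Set (F.obj Z)) (hO : IsOpen O) (hne : O.Nonempty) :
    ∃ V : Set (F.obj Y), IsOpen V ∧ V.Nonempty ∧ V ⊆ F.map p '' O := by
  obtain ⟨e0, he0⟩ := hne
  obtain ⟨S, N, hN, hN0, hNs⟩ := zdim hcont hZ O hO e0 he0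
  have h1 : ∀ q : dq S, ∃ V : Set Y, IsOpen V ∧ V.Nonempty ∧ p ⁻¹' V ⊆ dproj S ⁻¹' {q} := by
    intro q
    refine hirr _ ((isOpen_discrete {q}).preimage (dproj S).hom.hom.continuous) ?_
    obtain ⟨z, hz⟩ := dproj_surjective S q
    exact ⟨z, hz⟩
  choose V hV hVne hVs using h1
  choose y hy using hVne
  have hyinj : Function.Injective y := by
    intro q q' hqq
    obtain ⟨z, hz⟩ := hp (y q)
    have e1 : dproj S z = q := hVs q (by show p z ∈ V q; rw [hz]; exact hy q)
    have e2 : dproj S z = q' := hVs q' (by show p z ∈ V q'; rw [hz, hqq]; exact hy q')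
    exact e1.symm.trans e2
  let j : dq S ⟶ Y := CompHausLike.ofHom _ (⟨y, continuous_of_discreteTopology⟩ : C(dq S, Y))
  let β := F.map (dproj S) e0
  have hT : T2Space (F.obj Y) := (F.obj Y).is_hausdorff
  have hC : CompactSpace (F.obj Z) := (F.obj Z).is_compact
  have key : F.map j β ∉ F.map p '' Oᶜ := by
    rintro ⟨e, he, hee⟩
    apply he
    apply hNs
    obtain ⟨s, hs1, hs2⟩ := preimage_lift hpre p j hyinj e β hee
    have h2 : pb1 p j ≫ dproj S = pb2 p j := by
      refine hom_ext' fun w => ?_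
      have h3 : p (pb1 p j w) = y (pb2 p j w) := pb_cond p j w
      exact hVs (pb2 p j w) (by show p (pb1 p j w) ∈ V (pb2 p j w); rw [h3]; exact hy _)
    rw [← hs1, ← map_comp_app, h2, hs2]
    exact hN0
  refine ⟨(F.map p '' Oᶜ)ᶜ, ?_, ⟨_, key⟩, ?_⟩
  · exact (hO.isClosed_compl.isCompact.image (F.map p).hom.hom.continuous).isClosed.isOpen_compl
  · intro c hc
    obtain ⟨e, rfl⟩ := hepi _ _ p hp c
    refine ⟨e, ?_, rfl⟩
    by_contra hcon
    exact hc ⟨e, hcon, rfl⟩

/-- The set underlying the space `T` of the main construction. -/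
def TT {X Y : CompHaus.{0}} (S L : Type) (f : X → Y) {Z : CompHaus.{0}} (p : Z → Y)
    (κ : Z → L) (h : S ⊕ L → L) (W : S → Set X) : Set (X × Z × (S ⊕ L)) :=
  {t | f t.1 = p t.2.1 ∧ κ t.2.1 = h t.2.2 ∧ ∀ q, t.2.2 = Sum.inl q → t.1 ∈ W q}

theorem main_core (hmono : Monomorphic F) (hepi : Epimorphic F) (hcont : IsCont F)
    (hpre : PreservesPreimages F) (hsq : FinSquareSkeletal F) {X Y : CompHaus.{0}} (f : X ⟶ Y)
    (hf : IsOpenMap f) (hfs : Function.Surjective f) (U : Set (F.obj X)) (hU : IsOpen U)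
    (hne : U.Nonempty) : ∃ V : Set (F.obj Y), IsOpen V ∧ V.Nonempty ∧ V ⊆ F.map f '' U := by
  classical
  obtain ⟨a0, ha0⟩ := hne
  have hXT : T2Space X := X.is_hausdorff
  have hXC : CompactSpace X := X.is_compact
  have hYT : T2Space Y := Y.is_hausdorff
  -- zero-dimensional cover of `X`
  obtain ⟨Z, π, hZ, hπs, hπirr⟩ := exists_cover X
  have hZC : CompactSpace Z := Z.is_compact
  obtain ⟨b0, hb0⟩ := hepi _ _ π hπs a0
  obtain ⟨S, N, hN, hN0, hNs⟩ := zdim hcont hZ (F.map π ⁻¹' U)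
    (hU.preimage (F.map π).hom.hom.continuous) b0 (by show F.map π b0 ∈ U; rw [hb0]; exact ha0)
  have h1 : ∀ q : dq S, ∃ V : Set X, IsOpen V ∧ V.Nonempty ∧ π ⁻¹' V ⊆ dproj S ⁻¹' {q} := by
    intro q
    refine hπirr _ ((isOpen_discrete {q}).preimage (dproj S).hom.hom.continuous) ?_
    obtain ⟨z, hz⟩ := dproj_surjective S q
    exact ⟨z, hz⟩
  choose V hV hVne hVs using h1
  choose x hx using hVne
  have h2 : ∀ q, ∃ W ∈ 𝓝 (x q), IsClosed W ∧ W ⊆ V q := fun q => cnhd ((hV q).mem_nhds (hx q))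
  choose W hW hWc hWV using h2
  -- zero-dimensional cover of `Y`
  obtain ⟨Y', p, hY', hps, hpirr⟩ := exists_cover Y
  have hY'C : CompactSpace Y' := Y'.is_compact
  have hY'T : T2Space Y' := Y'.is_hausdorff
  let O : dq S → Set Y' := fun q => p ⁻¹' (f '' interior (W q))
  have hO : ∀ q, IsOpen (O q) := fun q => (hf _ isOpen_interior).preimage p.hom.hom.continuous
  have h3 : ∀ q, ∃ y : Y', y ∈ O q := by
    intro q
    obtain ⟨y, hy⟩ := hps (f (x q))
    exact ⟨y, x q, mem_interior_iff_mem_nhds.2 (hW q), hy.symm⟩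
  choose y hy using h3
  have h4 : ∀ q, ∃ C : Set Y', IsClopen C ∧ y q ∈ C ∧ C ⊆ O q := fun q =>
    compact_exists_isClopen_in_isOpen (hO q) (hy q)
  choose C hC hyC hCO using h4
  have hfin : Fintype (dq S) := Fintype.ofFinite _
  let L : DiscreteQuotient Y' := Finset.univ.inf fun q => DiscreteQuotient.ofIsClopen (hC q)
  have hLC : ∀ (q : dq S) (z : Y'), dproj L z = dproj L (y q) → z ∈ O q := by
    intro q z hz
    have h5 : L ≤ DiscreteQuotient.ofIsClopen (hC q) := Finset.inf_le (Finset.mem_univ q)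
    have h6 : dproj (DiscreteQuotient.ofIsClopen (hC q)) z =
        dproj (DiscreteQuotient.ofIsClopen (hC q)) (y q) := by
      rw [← dproj_dle h5, comp_app, comp_app, hz]
    have h7 : (DiscreteQuotient.ofIsClopen (hC q)).toSetoid z (y q) := Quotient.exact h6
    have h8 : z ∈ C q ↔ y q ∈ C q := h7
    exact hCO q (h8.2 (hyC q))
  -- the finite space `Q` over `L`
  let Q : CompHaus.{0} := CompHaus.of (dq S ⊕ dq L)
  have hQ : Finite Q := by change Finite (dq S ⊕ dq L); infer_instance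
  let h0 : dq S ⊕ dq L → dq L := Sum.elim (fun q => dproj L (y q)) id
  let h : Q ⟶ dq L := CompHausLike.ofHom _ (⟨h0, continuous_of_discreteTopology⟩ :
    C(dq S ⊕ dq L, dq L))
  have hh : Function.Surjective h := fun l => ⟨Sum.inr l, rfl⟩
  let inl : dq S ⟶ Q := CompHausLike.ofHom _ (⟨Sum.inl, continuous_inl⟩ :
    C(dq S, dq S ⊕ dq L))
  have hinl : Function.Injective inl := Sum.inl_injective
  -- the space `T`
  let TS : Set (X × Y' × (dq S ⊕ dq L)) := TT (dq S) (dq L) f p (dproj L) h0 W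
  have hTS : IsClosed TS := by
    have c1 : IsClosed {t : X × Y' × (dq S ⊕ dq L) | f t.1 = p t.2.1} :=
      isClosed_eq (f.hom.hom.continuous.comp continuous_fst)
        (p.hom.hom.continuous.comp (continuous_fst.comp continuous_snd))
    have c2 : IsClosed {t : X × Y' × (dq S ⊕ dq L) | dproj L t.2.1 = h0 t.2.2} :=
      isClosed_eq ((dproj L).hom.hom.continuous.comp (continuous_fst.comp continuous_snd))
        ((continuous_of_discreteTopology (f := h0)).comp (continuous_snd.comp continuous_snd))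
    have c3 : IsClosed {t : X × Y' × (dq S ⊕ dq L) | ∀ q, t.2.2 = Sum.inl q → t.1 ∈ W q} := by
      rw [setOf_forall]
      refine isClosed_iInter fun q => ?_
      have e : {t : X × Y' × (dq S ⊕ dq L) | t.2.2 = Sum.inl q → t.1 ∈ W q} =
          {t | t.2.2 ∈ ({Sum.inl q} : Set (dq S ⊕ dq L))ᶜ} ∪ {t | t.1 ∈ W q} := by
        ext t
        simp only [mem_setOf_eq, mem_union, mem_compl_iff, mem_singleton_iff]
        tauto
      rw [e]
      refine IsClosed.union ?_ ((hWc q).preimage continuous_fst)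
      exact (isClosed_discrete ({Sum.inl q} : Set (dq S ⊕ dq L))ᶜ).preimage
        (continuous_snd.comp continuous_snd)
    exact c1.inter (c2.inter c3)
  haveI hTSC : CompactSpace TS := isCompact_iff_compactSpace.1 hTS.isCompact
  let T : CompHaus.{0} := CompHaus.of TS
  let tX : T ⟶ X := CompHausLike.ofHom _ (⟨fun t => t.1.1, by fun_prop⟩ : C(TS, X))
  let tQ : T ⟶ Q := CompHausLike.ofHom _ (⟨fun t => t.1.2.2, by fun_prop⟩ :
    C(TS, dq S ⊕ dq L))
  let tY : T ⟶ Y' := CompHausLike.ofHom _ (⟨fun t => t.1.2.1, by fun_prop⟩ : C(TS, Y'))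
  let tP : T ⟶ pb (dproj L) h := pblift (dproj L) h tY tQ (fun t => t.2.2.1)
  have htP : Function.Surjective tP := by
    rintro ⟨⟨z, q'⟩, hzq⟩
    change dq S ⊕ dq L at q'
    have hzq' : dproj L z = h0 q' := hzq
    rcases q' with q | l
    · obtain ⟨w, hw, hwz⟩ := hLC q z hzq'
      refine ⟨⟨(w, z, Sum.inl q), hwz, hzq', ?_⟩, rfl⟩
      intro q1 hq1
      have : q = q1 := Sum.inl_injective hq1
      rw [← this]
      exact interior_subset hw
    · obtain ⟨w, hw⟩ := hfs (p z)
      refine ⟨⟨(w, z, Sum.inr l), hw, hzq', ?_⟩, rfl⟩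
      intro q1 hq1
      exact absurd hq1 (by simp)
  -- the open set `N'`
  have hTC : CompactSpace (F.obj T) := (F.obj T).is_compact
  have hQT : T2Space (F.obj Q) := (F.obj Q).is_hausdorff
  have hbad : IsClosed (F.map tQ '' (F.map tX ⁻¹' Uᶜ)) :=
    ((hU.isClosed_compl.preimage (F.map tX).hom.hom.continuous).isCompact.image
      (F.map tQ).hom.hom.continuous).isClosed
  have hN' : F.map inl (F.map (dproj S) b0) ∈ (F.map tQ '' (F.map tX ⁻¹' Uᶜ))ᶜ := by
    rintro ⟨t, ht, hte⟩
    apply ht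
    show F.map tX t ∈ U
    obtain ⟨s, hs1, hs2⟩ := preimage_lift hpre tQ inl hinl t _ hte
    -- the closed subset `{(x, q) | x ∈ W q}` of `X × dq S`
    have hWW : IsClosed {r : X × dq S | r.1 ∈ W r.2} := by
      have e : {r : X × dq S | r.1 ∈ W r.2} = ⋂ q, ({r : X × dq S | r.2 ∈ ({q} : Set (dq S))ᶜ} ∪
          {r | r.1 ∈ W q}) := by
        ext r
        simp only [mem_setOf_eq, mem_iInter, mem_union, mem_compl_iff, mem_singleton_iff]
        constructor
        · intro hr q
          by_cases hq : r.2 = q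
          · right; rw [← hq]; exact hr
          · left; exact hq
        · intro hr
          rcases hr r.2 with h' | h'
          · exact absurd rfl h'
          · exact h'
      rw [e]
      refine isClosed_iInter fun q => ?_
      exact ((isClosed_discrete ({q} : Set (dq S))ᶜ).preimage continuous_snd).union
        ((hWc q).preimage continuous_fst)
    haveI : CompactSpace {r : X × dq S // r.1 ∈ W r.2} :=
      isCompact_iff_compactSpace.1 hWW.isCompact
    let WW : CompHaus.{0} := CompHaus.of {r : X × dq S // r.1 ∈ W r.2}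
    let w1 : WW ⟶ X := CompHausLike.ofHom _ (⟨fun r => r.1.1, by fun_prop⟩ :
      C({r : X × dq S // r.1 ∈ W r.2}, X))
    let w2 : WW ⟶ dq S := CompHausLike.ofHom _ (⟨fun r => r.1.2, by fun_prop⟩ :
      C({r : X × dq S // r.1 ∈ W r.2}, dq S))
    let m : pb tQ inl ⟶ WW := pairlift (pb1 tQ inl ≫ tX) (pb2 tQ inl)
      (fun r : X × dq S => r.1 ∈ W r.2) (fun r => (pb1 tQ inl r).2.2.2 _ (pb_cond tQ inl r))
    have hZW : IsClosed {z : Z | π z ∈ W (dproj S z)} :=
      hWW.preimage (π.hom.hom.continuous.prodMk (dproj S).hom.hom.continuous)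
    haveI : CompactSpace {z : Z // π z ∈ W (dproj S z)} :=
      isCompact_iff_compactSpace.1 hZW.isCompact
    let ZW : CompHaus.{0} := CompHaus.of {z : Z // π z ∈ W (dproj S z)}
    let zi : ZW ⟶ Z := CompHausLike.ofHom _ (⟨fun z => z.1, continuous_subtype_val⟩ :
      C({z : Z // π z ∈ W (dproj S z)}, Z))
    let zw : ZW ⟶ WW := CompHausLike.ofHom _
      (⟨fun z => ⟨(π z.1, dproj S z.1), z.2⟩, by
        refine Continuous.subtype_mk ?_ _
        exact (π.hom.hom.continuous.comp continuous_subtype_val).prodMk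
          ((dproj S).hom.hom.continuous.comp continuous_subtype_val)⟩ :
        C({z : Z // π z ∈ W (dproj S z)}, {r : X × dq S // r.1 ∈ W r.2}))
    have hzw : Function.Surjective zw := by
      rintro ⟨⟨u, q⟩, hu⟩
      have hu' : u ∈ W q := hu
      obtain ⟨z, hz⟩ := hπs u
      have hzq : dproj S z = q := hVs q (by show π z ∈ V q; rw [hz]; exact hWV q hu')
      refine ⟨⟨z, ?_⟩, ?_⟩
      · rw [hzq, hz]; exact hu'
      · apply Subtype.ext
        exact Prod.ext hz hzq
    obtain ⟨v, hv⟩ := hepi _ _ zw hzw (F.map m s)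
    have e1 : zi ≫ dproj S = zw ≫ w2 := rfl
    have e2 : m ≫ w2 = pb2 tQ inl := rfl
    have e3 : zi ≫ π = zw ≫ w1 := rfl
    have e4 : m ≫ w1 = pb1 tQ inl ≫ tX := rfl
    have h9 : F.map (dproj S) (F.map zi v) ∈ N := by
      rw [← map_comp_app, e1, map_comp_app, hv, ← map_comp_app, e2, hs2]
      exact hN0
    have h10 : F.map π (F.map zi v) ∈ U := hNs _ h9
    rw [← map_comp_app, e3, map_comp_app, hv, ← map_comp_app, e4, map_comp_app, hs1] at h10
    exact h10
  -- the zero-dimensional step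
  obtain ⟨O', hO', hO'ne, hO's⟩ := zdim_step hcont hepi hsq hY' L hQ h hh _ hbad.isOpen_compl
    ⟨_, hN'⟩
  obtain ⟨V', hV', hV'ne, hV's⟩ := irr_step hcont hepi hpre hY' p hps hpirr O' hO' hO'ne
  refine ⟨V', hV', hV'ne, ?_⟩
  intro c hc
  obtain ⟨e, he, rfl⟩ := hV's hc
  obtain ⟨t', ht1, ht2⟩ := hO's e he
  obtain ⟨t, rfl⟩ := hepi _ _ tP htP t'
  refine ⟨F.map tX t, ?_, ?_⟩
  · by_contra hcon
    apply ht2
    refine ⟨t, hcon, ?_⟩
    have e6 : tP ≫ pb2 (dproj L) h = tQ := rfl
    rw [← map_comp_app, e6]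
  · have e5 : tX ≫ f = tP ≫ (pb1 (dproj L) h ≫ p) := hom_ext' fun t => t.2.1
    rw [← map_comp_app, e5, map_comp_app, map_comp_app, ht1]

/-- A monomorphic, epimorphic, continuous functor that preserves preimages and is finitely
square-skeletal is skeletal. -/
theorem skeletal_of_finSquareSkeletal (hmono : Monomorphic F) (hepi : Epimorphic F)
    (hcont : IsCont F) (hpre : PreservesPreimages F) (hsq : FinSquareSkeletal F) :
    SkeletalFunctor F := by
  intro X Y f hf hfs
  exact skeletalMap_of (g := F.map f) (F.map f).hom.hom.continuous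
    fun U hU hne => main_core hmono hepi hcont hpre hsq f hf hfs U hU hne

end main

end Q149.Fun
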