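import Pool.Agent.Q149.MecA

/-!
Threads in inverse spectra of compacta; Hausdorff quotients by closed equivalence relations.
-/

open CategoryTheory CategoryTheory.Limits Topology Set

namespace Q149.Fun

section threads
variable {J : Type} [Preorder J] [IsDirectedOrder J]

/-- The transition map of an inverse spectrum. -/
def tr (E : Jᵒᵖ ⥤ CompHaus.{0}) {i k : J} (h : i ≤ k) :
    E.obj (Opposite.op k) ⟶ E.obj (Opposite.op i) := E.map (homOfLE h).op

theorem tr_tr (E : Jᵒᵖ ⥤ CompHaus.{0}) {i j k : J} (h : i ≤ j) (h' : j ≤ k)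
    (x : E.obj (Opposite.op k)) : tr E h (tr E h' x) = tr E (h.trans h') x := by
  unfold tr
  rw [← comp_app, ← E.map_comp]
  rfl

theorem tr_self (E : Jᵒᵖ ⥤ CompHaus.{0}) {i : J} (h : i ≤ i)
    (x : E.obj (Opposite.op i)) : tr E h x = x := by
  have : (homOfLE h).op = 𝟙 (Opposite.op i) := rfl
  unfold tr
  rw [this, E.map_id]
  rfl

/-- Existence of threads through nonempty closed subsets. -/
theorem thread_exists (E : Jᵒᵖ ⥤ CompHaus.{0}) (j₀ : J)
    (P : ∀ k : J, Set (E.obj (Opposite.op k)))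
    (hne : ∀ k, j₀ ≤ k → (P k).Nonempty) (hcl : ∀ k, j₀ ≤ k → IsClosed (P k))
    (hP : ∀ (l k : J) (h : l ≤ k), j₀ ≤ l → ∀ x ∈ P k, tr E h x ∈ P l) :
    ∃ z : ∀ j : Jᵒᵖ, E.obj j, (∀ (i j : Jᵒᵖ) (φ : i ⟶ j), E.map φ (z i) = z j) ∧
      ∀ k, j₀ ≤ k → z (Opposite.op k) ∈ P k := by
  classical
  let K := {k : J // j₀ ≤ k}
  let PJ : Type := ∀ j : Jᵒᵖ, E.obj j
  let C : K → Set PJ := fun k => {z | z (Opposite.op k.1) ∈ P k.1 ∧
    ∀ (i : J) (h : i ≤ k.1), tr E h (z (Opposite.op k.1)) = z (Opposite.op i)}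
  haveI : Nonempty K := ⟨⟨j₀, le_rfl⟩⟩
  have hnonemp : ∀ j : Jᵒᵖ, Nonempty (E.obj j) := by
    intro j
    obtain ⟨m, h1, h2⟩ := exists_ge_ge j₀ j.unop
    obtain ⟨x, -⟩ := hne m h1
    exact ⟨tr E h2 x⟩
  have hCne : ∀ k, (C k).Nonempty := by
    intro k
    obtain ⟨x, hx⟩ := hne k.1 k.2
    let z : PJ := fun j => if h : j.unop ≤ k.1 then tr E h x else (hnonemp j).some
    have hz : ∀ (i : J) (h : i ≤ k.1), z (Opposite.op i) = tr E h x := by
      intro i h
      simp only [z]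
      rw [dif_pos h]
    refine ⟨z, ?_, ?_⟩
    · rw [hz _ le_rfl, tr_self]; exact hx
    · intro i h
      rw [hz _ le_rfl, tr_self, hz i h]
  have hCc : ∀ k, IsClosed (C k) := by
    intro k
    have h1 : C k = {z : PJ | z (Opposite.op k.1) ∈ P k.1} ∩
        ⋂ (i : J) (h : i ≤ k.1), {z : PJ | tr E h (z (Opposite.op k.1)) = z (Opposite.op i)} := by
      ext z
      simp [C]
    rw [h1]
    have hc0 : Continuous (fun z : PJ => z (Opposite.op k.1)) := continuous_apply _
    refine IsClosed.inter ((hcl k.1 k.2).preimage hc0) ?_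
    refine isClosed_iInter fun i => isClosed_iInter fun h => ?_
    have hT2 : T2Space (E.obj (Opposite.op i)) := (E.obj (Opposite.op i)).is_hausdorff
    have hc1 : Continuous (fun z : PJ => z (Opposite.op i)) := continuous_apply _
    exact isClosed_eq ((tr E h).hom.hom.continuous.comp hc0) hc1
  have hCdir : Directed (· ⊇ ·) C := by
    intro k l
    obtain ⟨m, h1, h2⟩ := exists_ge_ge k.1 l.1
    have hm : j₀ ≤ m := k.2.trans h1
    have hsub : ∀ (k : K) (_ : k.1 ≤ m), C ⟨m, hm⟩ ⊆ C k := by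
      rintro k hk z ⟨hz1, hz2⟩
      refine ⟨?_, ?_⟩
      · rw [← hz2 k.1 hk]
        exact hP _ _ hk k.2 _ hz1
      · intro i h
        rw [← hz2 k.1 hk, tr_tr, hz2]
    exact ⟨⟨m, hm⟩, hsub k h1, hsub l h2⟩
  have hcomp : CompactSpace PJ := Pi.compactSpace
  obtain ⟨z, hz⟩ := IsCompact.nonempty_iInter_of_directed_nonempty_isCompact_isClosed C hCdir hCne
    (fun k => (hCc k).isCompact) hCc
  rw [mem_iInter] at hz
  refine ⟨z, ?_, fun k hk => (hz ⟨k, hk⟩).1⟩
  intro i j φ
  obtain ⟨m, h1, h2⟩ := exists_ge_ge j₀ i.unop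
  have hij : j.unop ≤ i.unop := leOfHom φ.unop
  have e1 := (hz ⟨m, h1⟩).2 i.unop h2
  have e2 := (hz ⟨m, h1⟩).2 j.unop (hij.trans h2)
  have e3 : z i = tr E h2 (z (Opposite.op m)) := e1.symm
  have e4 : z j = tr E (hij.trans h2) (z (Opposite.op m)) := e2.symm
  rw [e3, e4, ← tr_tr E hij h2]
  rfl

end threads

/-- The quotient of a compact Hausdorff space by a closed equivalence relation is Hausdorff. -/
theorem t2Space_quotient {K : Type} [TopologicalSpace K] [CompactSpace K] [T2Space K]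
    (r : Setoid K) (hr : IsClosed {p : K × K | r p.1 p.2}) : T2Space (Quotient r) := by
  have hclosed : IsClosedMap (Quotient.mk r) := by
    intro C hC
    have h1 : IsClosed (Quotient.mk r ⁻¹' (Quotient.mk r '' C)) := by
      have h2 : Quotient.mk r ⁻¹' (Quotient.mk r '' C) =
          Prod.snd '' ({p : K × K | r p.1 p.2} ∩ (C ×ˢ univ)) := by
        ext x
        constructor
        · rintro ⟨c, hc, hcx⟩
          exact ⟨(c, x), ⟨Quotient.exact hcx, hc, trivial⟩, rfl⟩
        · rintro ⟨⟨c, y⟩, ⟨h, hc, -⟩, rfl⟩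
          exact ⟨c, hc, Quotient.sound h⟩
      rw [h2]
      exact isClosedMap_snd_of_compactSpace _ (hr.inter (hC.prod isClosed_univ))
    exact isQuotientMap_quotient_mk'.isClosed_preimage.1 h1
  have hcont : Continuous (Quotient.mk r) := continuous_quotient_mk'
  constructor
  intro a b hab
  obtain ⟨x, rfl⟩ := Quotient.exists_rep a
  obtain ⟨y, rfl⟩ := Quotient.exists_rep b
  let A : Set K := Quotient.mk r ⁻¹' {Quotient.mk r x}
  let B : Set K := Quotient.mk r ⁻¹' {Quotient.mk r y}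
  have hpt : ∀ z : K, IsClosed ({Quotient.mk r z} : Set (Quotient r)) := by
    intro z
    have := hclosed _ (isClosed_singleton (x := z))
    rwa [image_singleton] at this
  have hA : IsClosed A := (hpt x).preimage hcont
  have hB : IsClosed B := (hpt y).preimage hcont
  have hAB : Disjoint A B := by
    rw [disjoint_left]
    intro z hz1 hz2
    exact hab ((show Quotient.mk r z = Quotient.mk r x from hz1).symm.trans hz2)
  obtain ⟨U, V, hU, hV, hAU, hBV, hUV⟩ := normal_separation hA hB hAB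
  refine ⟨(Quotient.mk r '' Uᶜ)ᶜ, (Quotient.mk r '' Vᶜ)ᶜ, (hclosed _ hU.isClosed_compl).isOpen_compl,
    (hclosed _ hV.isClosed_compl).isOpen_compl, ?_, ?_, ?_⟩
  · rintro ⟨z, hz, hzx⟩
    exact hz (hAU hzx)
  · rintro ⟨z, hz, hzy⟩
    exact hz (hBV hzy)
  · rw [disjoint_left]
    intro c hc1 hc2
    obtain ⟨z, rfl⟩ := Quotient.exists_rep c
    have h1 : z ∈ U := by
      by_contra h
      exact hc1 ⟨z, h, rfl⟩
    have h2 : z ∈ V := by
      by_contra h
      exact hc2 ⟨z, h, rfl⟩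
    exact disjoint_left.1 hUV h1 h2

/-- In the Vietoris hyperspace of a compact Hausdorff space the (pre)connected sets form a closed
set. -/
theorem isClosed_preconnected {X : Type} [TopologicalSpace X] [CompactSpace X] [T2Space X] :
    IsClosed {S : TopologicalSpace.Compacts X | IsPreconnected (S : Set X)} := by
  rw [← isOpen_compl_iff, isOpen_iff_mem_nhds]
  intro S hS
  have hS' : ¬ IsPreconnected (S : Set X) := hS
  rw [isPreconnected_closed_iff] at hS'
  push Not at hS'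
  obtain ⟨t, t', ht, ht', hcov, hne, hne', hdis⟩ := hS'
  have hA : IsClosed ((S : Set X) ∩ t) := S.isCompact.isClosed.inter ht
  have hB : IsClosed ((S : Set X) ∩ t') := S.isCompact.isClosed.inter ht'
  have hAB : Disjoint ((S : Set X) ∩ t) ((S : Set X) ∩ t') := by
    rw [disjoint_left]
    rintro x ⟨h1, h2⟩ ⟨-, h3⟩
    have : x ∈ (S : Set X) ∩ (t ∩ t') := ⟨h1, h2, h3⟩
    rw [hdis] at this
    exact this
  obtain ⟨U, V, hU, hV, hAU, hBV, hUV⟩ := normal_separation hA hB hAB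
  have hO : IsOpen ({T : TopologicalSpace.Compacts X | (T : Set X) ⊆ U ∪ V} ∩
      ({T : TopologicalSpace.Compacts X | ((T : Set X) ∩ U).Nonempty} ∩
        {T : TopologicalSpace.Compacts X | ((T : Set X) ∩ V).Nonempty})) :=
    (TopologicalSpace.Compacts.isOpen_subsets_of_isOpen (hU.union hV)).inter
      ((TopologicalSpace.Compacts.isOpen_inter_nonempty_of_isOpen hU).inter
        (TopologicalSpace.Compacts.isOpen_inter_nonempty_of_isOpen hV))
  refine Filter.mem_of_superset (hO.mem_nhds ⟨?_, ?_, ?_⟩) ?_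
  · intro x hx
    rcases hcov hx with h | h
    · exact Or.inl (hAU ⟨hx, h⟩)
    · exact Or.inr (hBV ⟨hx, h⟩)
  · obtain ⟨x, hx1, hx2⟩ := hne
    exact ⟨x, hx1, hAU ⟨hx1, hx2⟩⟩
  · obtain ⟨x, hx1, hx2⟩ := hne'
    exact ⟨x, hx1, hBV ⟨hx1, hx2⟩⟩
  · rintro T ⟨hT1, hT2, hT3⟩ hT
    obtain ⟨x, hx1, hx2, hx3⟩ := (show IsPreconnected (T : Set X) from hT) U V hU hV hT1 hT2 hT3
    exact disjoint_left.1 hUV hx2 hx3

end Q149.Fun
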